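import Pool.Agent.W558.S.Stms

set_option autoImplicit false

universe u

namespace Pool.Agent.W22.W558Init

open Pool.Agent.W558

theorem main : S_init.{u} := by
  rintro k E _ _ _ ⟨N, H, hH, hsf⟩
  set A : Fin (N + 1) → Subalgebra k E :=
    fun i => Algebra.adjoin k (Set.range fun j => H j / H i) with hA
  have hmem : ∀ i j, H j / H i ∈ A i := fun i j => Algebra.subset_adjoin ⟨j, rfl⟩
  have hgl : ∀ t t' : Fin (N + 1), ∀ f ∈ A t', ∃ n : ℕ, (H t' / H t) ^ n * f ∈ A t := by
    intro t t' f hf
    have hmono : ∀ (n m : ℕ) (f : E), n ≤ m → (H t' / H t) ^ n * f ∈ A t →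
        (H t' / H t) ^ m * f ∈ A t := by
      intro n m f hnm h
      obtain ⟨e, rfl⟩ := Nat.exists_eq_add_of_le hnm
      rw [add_comm, pow_add, mul_assoc]
      exact (A t).mul_mem ((A t).pow_mem (hmem t t') e) h
    induction hf using Algebra.adjoin_induction with
    | mem x hx =>
      obtain ⟨j, rfl⟩ := hx
      refine ⟨1, ?_⟩
      have h1 : (H t' / H t) ^ 1 * (H j / H t') = H j / H t := by
        have := hH t'
        field_simp
      change (H t' / H t) ^ 1 * (H j / H t') ∈ A t
      rw [h1]
      exact hmem t j
    | algebraMap r =>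
      exact ⟨0, by rw [pow_zero, one_mul]; exact (A t).algebraMap_mem r⟩
    | add x y _ _ hx hy =>
      obtain ⟨n, hn⟩ := hx
      obtain ⟨m, hm⟩ := hy
      refine ⟨max n m, ?_⟩
      rw [mul_add]
      exact (A t).add_mem (hmono _ _ _ (le_max_left _ _) hn) (hmono _ _ _ (le_max_right _ _) hm)
    | mul x y _ _ hx hy =>
      obtain ⟨n, hn⟩ := hx
      obtain ⟨m, hm⟩ := hy
      refine ⟨n + m, ?_⟩
      rw [pow_add, mul_mul_mul_comm]
      exact (A t).mul_mem hn hm
  let M : LM (⊥ : Subalgebra k E) ⊤ (Fin (N + 1)) Empty :=
    { A := A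
      H := H
      x := fun _ i => i.elim
      sm := fun t => (hsf t).sm
      base := fun t => bot_le
      H0 := hH
      HR := fun _ => Algebra.mem_top
      rt := fun t t' => hmem t t'
      gl := hgl
      dn := fun _ _ _ => ⟨0, Algebra.mem_top⟩
      cv := by
        intro V hV
        obtain ⟨t, ht⟩ := Finite.exists_max (fun t => V.valuation (H t))
        refine ⟨t, ?_⟩
        intro f hf
        have h0 : V.valuation (H t) ≠ 0 := (map_ne_zero _).2 (hH t)
        induction hf using Algebra.adjoin_induction with
        | mem x hx =>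
          obtain ⟨j, rfl⟩ := hx
          change H j / H t ∈ V
          rw [← V.valuation_le_one_iff, map_div₀]
          exact (div_le_one₀ (zero_lt_iff.2 h0)).2 (ht j)
        | algebraMap r => exact hV _ ((⊥ : Subalgebra k E).algebraMap_mem r)
        | add x y _ _ hx hy => exact V.add_mem _ _ hx hy
        | mul x y _ _ hx hy => exact V.mul_mem _ _ hx hy
      xA := fun _ i => i.elim
      x0 := fun _ i => i.elim
      gi := fun _ _ i => i.elim
      snc := fun _ _ _ _ _ i => i.elim }
  exact ⟨{ T := Fin (N + 1)
           I := Empty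
           finT := inferInstance
           finI := inferInstance
           M := M
           W := fun i => i.elim
           sf := hsf
           irr := fun _ i => i.elim }⟩

end Pool.Agent.W22.W558Init
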