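import Mathlib

set_option autoImplicit false

open Complex Finset

namespace Pool.Agent.W22.MF

/-- `ee x = exp (2 π i x)` -/
noncomputable def ee (x : ℝ) : ℂ := Complex.exp (2 * Real.pi * x * I)

lemma ee_add (x y : ℝ) : ee (x + y) = ee x * ee y := by
  unfold ee; rw [← Complex.exp_add]; congr 1; push_cast; ring

lemma ee_zero : ee 0 = 1 := by unfold ee; simp

lemma norm_ee (x : ℝ) : ‖ee x‖ = 1 := by
  unfold ee
  rw [show (2 * Real.pi * x * I : ℂ) = ((2 * Real.pi * x : ℝ) : ℂ) * I by push_cast; ring]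
  exact Complex.norm_exp_ofReal_mul_I _

lemma ee_neg (x : ℝ) : ee (-x) = (starRingEnd ℂ) (ee x) := by
  unfold ee
  rw [← Complex.exp_conj]
  congr 1
  simp [Complex.conj_ofReal]
  left
  exact (map_ofNat (starRingEnd ℂ) 2).symm

lemma ee_int (n : ℤ) : ee n = 1 := by
  unfold ee
  rw [Complex.exp_eq_one_iff]
  exact ⟨n, by push_cast; ring⟩

lemma ee_nat_mul (n : ℕ) (x : ℝ) : ee (n * x) = ee x ^ n := by
  unfold ee
  rw [← Complex.exp_nat_mul]
  congr 1; push_cast; ring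

lemma norm_ee_sub_one_le (x : ℝ) : ‖ee x - 1‖ ≤ 2 * Real.pi * |x| := by
  unfold ee
  have h := Real.norm_exp_I_mul_ofReal_sub_one_le (x := 2 * Real.pi * x)
  rw [show (2 * Real.pi * x * I : ℂ) = I * ((2 * Real.pi * x : ℝ) : ℂ) by push_cast; ring]
  refine h.trans (le_of_eq ?_)
  rw [Real.norm_eq_abs, abs_mul, abs_of_pos (by positivity : (0 : ℝ) < 2 * Real.pi)]

lemma norm_ee_sub_one_ge (x : ℝ) : 4 * |x - round x| ≤ ‖ee x - 1‖ := by
  have h1 : ee x = ee (x - round x) := by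
    have : ee x = ee ((x - round x) + ((round x : ℤ) : ℝ)) := by congr 1; ring
    rw [this, ee_add, ee_int, mul_one]
  rw [h1]
  set y : ℝ := x - round x with hy
  have hy2 : |y| ≤ 1 / 2 := abs_sub_round x
  have h2 : ‖ee y - 1‖ = 2 * |Real.sin (Real.pi * y)| := by
    unfold ee
    rw [show (2 * Real.pi * y * I : ℂ) = I * ((2 * Real.pi * y : ℝ) : ℂ) by push_cast; ring]
    rw [Complex.norm_exp_I_mul_ofReal_sub_one]
    rw [norm_mul, Real.norm_eq_abs, Real.norm_eq_abs]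
    norm_num
    congr 2
    ring
  rw [h2]
  have h3 : 2 * |y| ≤ |Real.sin (Real.pi * y)| := by
    have h4 : |Real.sin (Real.pi * y)| = Real.sin (Real.pi * |y|) := by
      rcases abs_cases y with ⟨h, h'⟩ | ⟨h, h'⟩
      · rw [h, abs_of_nonneg]
        apply Real.sin_nonneg_of_nonneg_of_le_pi (by positivity)
        nlinarith [Real.pi_pos]
      · rw [h, mul_neg, Real.sin_neg, abs_of_nonpos]
        apply Real.sin_nonpos_of_nonpos_of_neg_pi_le
        · nlinarith [Real.pi_pos]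
        · nlinarith [Real.pi_pos]
    rw [h4]
    have h5 := Real.mul_le_sin (x := Real.pi * |y|) (by positivity)
      (by nlinarith [Real.pi_pos])
    refine le_trans (le_of_eq ?_) h5
    field_simp
  linarith

/-- geometric sums -/
lemma geom_bound (θ : ℝ) (K : ℕ) :
    ‖∑ n ∈ range K, ee θ ^ n‖ * (2 * |θ - round θ|) ≤ 1 := by
  rcases eq_or_ne (ee θ) 1 with h | h
  · have : |θ - round θ| = 0 := by
      have := norm_ee_sub_one_ge θ
      rw [h, sub_self, norm_zero] at this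
      linarith [abs_nonneg (θ - round θ)]
    rw [this]; simp
  · rw [geom_sum_eq h, norm_div]
    have h0 : 0 < ‖ee θ - 1‖ := norm_pos_iff.2 (sub_ne_zero.2 h)
    have h1 : ‖ee θ ^ K - 1‖ ≤ 2 := by
      calc ‖ee θ ^ K - 1‖ ≤ ‖ee θ ^ K‖ + ‖(1 : ℂ)‖ := norm_sub_le _ _
        _ = 2 := by rw [norm_pow, norm_ee]; norm_num
    have h2 := norm_ee_sub_one_ge θ
    rw [div_mul_eq_mul_div, div_le_one h0]
    calc ‖ee θ ^ K - 1‖ * (2 * |θ - round θ|) ≤ 2 * (2 * |θ - round θ|) := by gcongr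
      _ ≤ _ := by linarith

lemma geom_trivial (θ : ℝ) (K : ℕ) : ‖∑ n ∈ range K, ee θ ^ n‖ ≤ K := by
  calc ‖∑ n ∈ range K, ee θ ^ n‖ ≤ ∑ n ∈ range K, ‖ee θ ^ n‖ := norm_sum_le _ _
    _ = K := by simp [norm_pow, norm_ee]

/-- van der Corput / Weyl differencing identity -/
lemma sq_norm_sum (b : ℕ → ℂ) (N : ℕ) :
    ‖∑ n ∈ range N, b n‖ ^ 2 = ∑ n ∈ range N, ‖b n‖ ^ 2 +
      2 * (∑ h ∈ range N, ∑ n ∈ range (N - 1 - h), b (n + h + 1) * (starRingEnd ℂ) (b n)).re := by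
  induction N with
  | zero => simp
  | succ N ih =>
      rw [sum_range_succ, sum_range_succ (fun n => ‖b n‖ ^ 2)]
      have e1 : ‖∑ n ∈ range N, b n + b N‖ ^ 2 = ‖∑ n ∈ range N, b n‖ ^ 2 + ‖b N‖ ^ 2 +
          2 * (b N * (starRingEnd ℂ) (∑ n ∈ range N, b n)).re := by
        rw [← Complex.normSq_eq_norm_sq, ← Complex.normSq_eq_norm_sq, ← Complex.normSq_eq_norm_sq,
          Complex.normSq_add]
        have : (∑ n ∈ range N, b n) * (starRingEnd ℂ) (b N) =
          (starRingEnd ℂ) (b N * (starRingEnd ℂ) (∑ n ∈ range N, b n)) := by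
          simp [mul_comm]
        rw [this, Complex.conj_re]
      rw [e1, ih]
      have e2 : ∑ h ∈ range (N + 1), ∑ n ∈ range (N + 1 - 1 - h),
          b (n + h + 1) * (starRingEnd ℂ) (b n) =
          ∑ h ∈ range N, ∑ n ∈ range (N - 1 - h), b (n + h + 1) * (starRingEnd ℂ) (b n) +
          b N * (starRingEnd ℂ) (∑ n ∈ range N, b n) := by
        rw [sum_range_succ]
        have e3 : ∑ n ∈ range (N + 1 - 1 - N), b (n + N + 1) * (starRingEnd ℂ) (b n) = 0 := by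
          simp
        rw [e3, add_zero, ← sum_range_reflect b N, map_sum, mul_sum, ← sum_add_distrib]
        apply sum_congr rfl
        intro h hh
        rw [mem_range] at hh
        have e4 : N + 1 - 1 - h = (N - 1 - h) + 1 := by omega
        rw [e4, sum_range_succ]
        congr 3
        omega
      rw [e2, Complex.add_re]
      ring

/-- Weyl differencing for quadratic phases -/
lemma weyl_diff (x y : ℝ) (N : ℕ) :
    ∃ F : ℕ → ℝ, (∀ h, 0 ≤ F h) ∧ (∀ h, F h ≤ N) ∧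
      (∀ h : ℕ, F h * (2 * |(h : ℝ) * (2 * y) - round ((h : ℝ) * (2 * y))|) ≤ 1) ∧
      ‖∑ n ∈ range N, ee (x * ((n : ℝ) + 1) + y * ((n : ℝ) + 1) ^ 2)‖ ^ 2 ≤
        N + 2 * ∑ h ∈ range N, F (h + 1) := by
  refine ⟨fun h => ‖∑ n ∈ range (N - h), ee ((h : ℝ) * (2 * y)) ^ n‖, fun h => norm_nonneg _,
    fun h => ?_, fun h => geom_bound _ _, ?_⟩
  · refine (geom_trivial _ _).trans ?_
    exact_mod_cast Nat.sub_le _ _
  · rw [sq_norm_sum]
    have e1 : ∑ n ∈ range N, ‖ee (x * ((n : ℝ) + 1) + y * ((n : ℝ) + 1) ^ 2)‖ ^ 2 = N := by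
      simp [norm_ee]
    rw [e1]
    have e2 : ∀ z : ℂ, z.re ≤ ‖z‖ := fun z => Complex.re_le_norm z
    have e3 : ‖∑ h ∈ range N, ∑ n ∈ range (N - 1 - h),
        ee (x * (((n + h + 1 : ℕ) : ℝ) + 1) + y * (((n + h + 1 : ℕ) : ℝ) + 1) ^ 2) *
        (starRingEnd ℂ) (ee (x * ((n : ℝ) + 1) + y * ((n : ℝ) + 1) ^ 2))‖ ≤
        ∑ h ∈ range N, ‖∑ n ∈ range (N - (h + 1)), ee (((h + 1 : ℕ) : ℝ) * (2 * y)) ^ n‖ := by
      refine (norm_sum_le _ _).trans (sum_le_sum fun h hh => ?_)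
      have e4 : ∀ n : ℕ, ee (x * (((n + h + 1 : ℕ) : ℝ) + 1) + y * (((n + h + 1 : ℕ) : ℝ) + 1) ^ 2) *
        (starRingEnd ℂ) (ee (x * ((n : ℝ) + 1) + y * ((n : ℝ) + 1) ^ 2)) =
        ee (x * ((h : ℝ) + 1) + y * (((h : ℝ) + 1) ^ 2 + 2 * ((h : ℝ) + 1))) *
          ee (((h + 1 : ℕ) : ℝ) * (2 * y)) ^ n := by
        intro n
        rw [← ee_neg, ← ee_add, ← ee_nat_mul, ← ee_add]
        congr 1
        push_cast
        ring
      simp_rw [e4]
      rw [← mul_sum, norm_mul, norm_ee, one_mul]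
      have e5 : N - 1 - h = N - (h + 1) := by omega
      rw [e5]
    have := (e2 _).trans e3
    linarith

/-- one-sided spacing sum -/
lemma spaced_sum {ι : Type*} (J : Finset ι) (F : ι → ℝ) (r : ι → ℕ) (q : ℕ) (N : ℝ) (hN : 0 ≤ N)
    (hr : Set.InjOn r J) (hq : ∀ j ∈ J, r j ≤ q) (h0 : ∀ j ∈ J, F j ≤ N)
    (h1 : ∀ j ∈ J, 1 ≤ r j → F j ≤ q / r j) :
    ∑ j ∈ J, F j ≤ N + q * (1 + Real.log q) := by
  classical
  let G : ℕ → ℝ := fun i => if i = 0 then N else q / i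
  have hG0 : ∀ i, 0 ≤ G i := by
    intro i; simp only [G]; split_ifs <;> positivity
  have s1 : ∑ j ∈ J, F j ≤ ∑ j ∈ J, G (r j) := by
    apply sum_le_sum
    intro j hj
    simp only [G]
    split_ifs with h
    · exact h0 j hj
    · exact h1 j hj (Nat.one_le_iff_ne_zero.2 h)
  have s2 : ∑ j ∈ J, G (r j) = ∑ i ∈ J.image r, G i := by
    rw [sum_image hr]
  have s3 : ∑ i ∈ J.image r, G i ≤ ∑ i ∈ range (q + 1), G i := by
    apply sum_le_sum_of_subset_of_nonneg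
    · intro i hi
      rw [mem_image] at hi
      obtain ⟨j, hj, rfl⟩ := hi
      rw [mem_range]
      have := hq j hj
      omega
    · intro i _ _
      exact hG0 i
  have s4 : ∑ i ∈ range (q + 1), G i = N + q * (harmonic q : ℝ) := by
    rw [sum_range_succ', add_comm]
    congr 1
    rw [harmonic]
    push_cast
    rw [mul_sum]
    apply sum_congr rfl
    intro i _
    simp only [G]
    rw [if_neg (by omega)]
    push_cast
    rw [div_eq_mul_inv]
  have s5 := harmonic_le_one_add_log q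
  calc ∑ j ∈ J, F j ≤ N + q * (harmonic q : ℝ) := by rw [← s4]; exact s1.trans (s2.le.trans s3)
    _ ≤ _ := by gcongr

end Pool.Agent.W22.MF
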