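import Mathlib
import Pool.Agent.W22.MF1

set_option autoImplicit false

open Finset

namespace Pool.Agent.W22.MF

lemma dist_round_le (x : ℝ) (m : ℤ) : |x - round x| ≤ |x - m| := round_le x m

/-- spacing of multiples -/
lemma spacing {ω : ℝ} {a : ℤ} {q : ℕ} (hq : 1 ≤ q) (hcop : IsCoprime a (q : ℤ))
    (hω : |ω - a / q| ≤ 1 / (q : ℝ) ^ 2) {j : ℤ} (hj0 : j ≠ 0) (hj : 2 * |j| ≤ q)
    (hjq : |j| < q) (m : ℤ) :
    1 / (2 * (q : ℝ)) ≤ |(j : ℝ) * ω - m| := by
  have hq0 : (0 : ℝ) < q := by exact_mod_cast hq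
  have h1 : 1 / (q : ℝ) ≤ |(j : ℝ) * (a / q) - m| := by
    have e : (j : ℝ) * (a / q) - m = ((j * a - m * q : ℤ) : ℝ) / q := by
      push_cast; field_simp
    rw [e, abs_div, abs_of_pos hq0]
    have h2 : j * a - m * q ≠ 0 := by
      intro h
      have h3 : (q : ℤ) ∣ j * a := ⟨m, by linarith⟩
      have h4 : (q : ℤ) ∣ j := hcop.symm.dvd_of_dvd_mul_right h3
      have h5 := Int.le_of_dvd (abs_pos.2 hj0) ((dvd_abs _ _).2 h4)
      omega
    have h3 : (1 : ℝ) ≤ |((j * a - m * q : ℤ) : ℝ)| := by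
      rw [← Int.cast_abs]
      exact_mod_cast Int.one_le_abs h2
    gcongr
  have h2 : |(j : ℝ) * (ω - a / q)| ≤ 1 / (2 * q) := by
    rw [abs_mul]
    have h3 : |(j : ℝ)| ≤ q / 2 := by
      have : ((2 * |j| : ℤ) : ℝ) ≤ ((q : ℤ) : ℝ) := by exact_mod_cast hj
      push_cast at this
      linarith
    calc |(j : ℝ)| * |ω - a / q| ≤ q / 2 * (1 / (q : ℝ) ^ 2) := by gcongr
      _ = 1 / (2 * q) := by field_simp
  have h3 : (j : ℝ) * (a / q) - m = ((j : ℝ) * ω - m) - (j : ℝ) * (ω - a / q) := by ring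
  rw [h3] at h1
  have h4 := abs_sub ((j : ℝ) * ω - m) ((j : ℝ) * (ω - a / q))
  have h5 : 1 / (q : ℝ) = 1 / (2 * q) + 1 / (2 * q) := by field_simp; norm_num
  linarith

/-- sum over a block of length `K ≤ q/2` (plus one) -/
lemma block_sum {ω : ℝ} {a : ℤ} {q : ℕ} (hq : 2 ≤ q) (hcop : IsCoprime a (q : ℤ))
    (hω : |ω - a / q| ≤ 1 / (q : ℝ) ^ 2) (F : ℕ → ℝ) (N : ℝ) (hN : 0 ≤ N)
    (h0 : ∀ h, 0 ≤ F h) (hF1 : ∀ h, F h ≤ N)
    (hF2 : ∀ h : ℕ, F h * (2 * |(h : ℝ) * ω - round ((h : ℝ) * ω)|) ≤ 1) (l : ℕ) (K : ℕ)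
    (hK : 2 * K ≤ q) :
    ∑ j ∈ range K, F (l + j) ≤ 2 * (N + q * (1 + Real.log q)) := by
  classical
  have hq0 : (0 : ℝ) < q := by
    have : 0 < q := by omega
    exact_mod_cast this
  set y : ℕ → ℝ := fun j => ((l + j : ℕ) : ℝ) * ω - round (((l + j : ℕ) : ℝ) * ω) with hy
  set r : ℕ → ℕ := fun j => ⌊2 * q * |y j|⌋₊ with hr
  have hyabs : ∀ j, |y j| ≤ 1 / 2 := fun j => abs_sub_round _
  have hrq : ∀ j, r j ≤ q := by
    intro j
    rw [hr]
    apply Nat.floor_le_of_le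
    have := hyabs j
    nlinarith
  have hrF : ∀ j, 1 ≤ r j → F (l + j) ≤ q / r j := by
    intro j hj
    have h1 : (r j : ℝ) ≤ 2 * q * |y j| := Nat.floor_le (by positivity)
    have hr0 : (0 : ℝ) < r j := by exact_mod_cast hj
    rw [le_div_iff₀ hr0]
    have h2 := hF2 (l + j)
    have h3 := h0 (l + j)
    calc F (l + j) * r j ≤ F (l + j) * (2 * q * |y j|) := by gcongr
      _ = q * (F (l + j) * (2 * |y j|)) := by ring
      _ ≤ q * 1 := by gcongr
      _ = q := mul_one _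
  have hinj : ∀ j ∈ range K, ∀ j' ∈ range K, (0 ≤ y j ↔ 0 ≤ y j') → r j = r j' → j = j' := by
    intro j hj j' hj' hs hrr
    by_contra hne
    rw [mem_range] at hj hj'
    have hd0 : ((j : ℤ) - j') ≠ 0 := by omega
    have hd1 : |((j : ℤ) - j')| < K := by
      rw [abs_lt]; omega
    have hsp := spacing (by omega) hcop hω hd0 (by omega) (by omega)
      (round (((l + j : ℕ) : ℝ) * ω) - round (((l + j' : ℕ) : ℝ) * ω))
    have e : (((j : ℤ) - j' : ℤ) : ℝ) * ω -
        ((round (((l + j : ℕ) : ℝ) * ω) - round (((l + j' : ℕ) : ℝ) * ω) : ℤ) : ℝ) =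
        y j - y j' := by
      rw [hy]; push_cast; ring
    rw [e] at hsp
    have h1 : |y j - y j'| < 1 / (2 * q) := by
      have a1 : (r j : ℝ) ≤ 2 * q * |y j| := Nat.floor_le (by positivity)
      have a2 : 2 * q * |y j| < r j + 1 := Nat.lt_floor_add_one _
      have b1 : (r j' : ℝ) ≤ 2 * q * |y j'| := Nat.floor_le (by positivity)
      have b2 : 2 * q * |y j'| < r j' + 1 := Nat.lt_floor_add_one _
      rw [hrr] at a1 a2
      have c : abs (2 * q * |y j| - 2 * q * |y j'|) < 1 := by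
        rw [abs_lt]; constructor <;> linarith
      have d : |y j - y j'| = abs (|y j| - |y j'|) := by
        by_cases hp : 0 ≤ y j
        · rw [abs_of_nonneg hp, abs_of_nonneg (hs.1 hp)]
        · have hp' : ¬ 0 ≤ y j' := fun h => hp (hs.2 h)
          push Not at hp hp'
          rw [abs_of_neg hp, abs_of_neg hp', ← abs_neg]
          congr 1; ring
      rw [d, lt_div_iff₀ (by positivity)]
      have e2 : 2 * q * |y j| - 2 * q * |y j'| = (|y j| - |y j'|) * (2 * q) := by ring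
      rw [e2, abs_mul, abs_of_pos (by positivity : (0 : ℝ) < 2 * q)] at c
      exact c
    linarith
  have hsplit : ∑ j ∈ range K, F (l + j) = ∑ j ∈ (range K).filter (fun j => 0 ≤ y j), F (l + j) +
      ∑ j ∈ (range K).filter (fun j => ¬ 0 ≤ y j), F (l + j) :=
    (sum_filter_add_sum_filter_not _ _ _).symm
  rw [hsplit, two_mul]
  apply add_le_add
  · apply spaced_sum _ _ r q N hN
    · intro j hj j' hj' h
      simp only [coe_filter, Set.mem_ofPred_eq] at hj hj'
      exact hinj j hj.1 j' hj'.1 (by simp [hj.2, hj'.2]) h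
    · intro j _; exact hrq j
    · intro j _; exact hF1 _
    · intro j _ h; exact hrF j h
  · apply spaced_sum _ _ r q N hN
    · intro j hj j' hj' h
      simp only [coe_filter, Set.mem_ofPred_eq] at hj hj'
      exact hinj j hj.1 j' hj'.1 (by simp [hj.2, hj'.2]) h
    · intro j _; exact hrq j
    · intro j _; exact hF1 _
    · intro j _ h; exact hrF j h

/-- sum over `B` blocks -/
lemma blocks_sum (F : ℕ → ℝ) (K : ℕ) (C : ℝ)
    (h : ∀ l, ∑ j ∈ range K, F (l + j) ≤ C) (l B : ℕ) :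
    ∑ i ∈ range (B * K), F (l + i) ≤ B * C := by
  induction B with
  | zero => simp
  | succ B ih =>
      rw [add_mul, one_mul, sum_range_add]
      push_cast
      have := h (l + B * K)
      simp_rw [add_assoc] at this
      linarith

/-- Weyl's inequality for quadratic phases -/
theorem weyl_ineq (x y : ℝ) {a : ℤ} {q : ℕ} (hq : 2 ≤ q) (hcop : IsCoprime a (q : ℤ))
    (hω : |2 * y - a / q| ≤ 1 / (q : ℝ) ^ 2) (N : ℕ) :
    ‖∑ n ∈ range N, ee (x * ((n : ℝ) + 1) + y * ((n : ℝ) + 1) ^ 2)‖ ^ 2 ≤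
      N + 4 * (3 * N / q + 1) * (N + q * (1 + Real.log q)) := by
  obtain ⟨F, h0, h1, h2, h3⟩ := weyl_diff x y N
  refine h3.trans ?_
  have hq0 : (0 : ℝ) < q := by
    have : 0 < q := by omega
    exact_mod_cast this
  have hlog : 0 ≤ Real.log q := Real.log_nonneg (by
    have : 1 ≤ q := by omega
    exact_mod_cast this)
  set K := q / 2 with hK
  have hK1 : 1 ≤ K := by omega
  have hKq : 2 * K ≤ q := by omega
  have hqK : q ≤ 3 * K := by omega
  have hb := blocks_sum F K (2 * ((N : ℝ) + q * (1 + Real.log q)))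
    (fun l => block_sum hq hcop hω F N (by positivity) h0 h1 h2 l K hKq) 1 (N / K + 1)
  have hle : N ≤ (N / K + 1) * K := by
    have := Nat.lt_div_mul_add (a := N) (b := K) (by omega)
    rw [add_mul, one_mul]
    exact this.le
  have s1 : ∑ h ∈ range N, F (h + 1) ≤ ∑ i ∈ range ((N / K + 1) * K), F (1 + i) := by
    have : ∀ h, F (h + 1) = F (1 + h) := fun h => by rw [add_comm]
    simp_rw [this]
    apply sum_le_sum_of_subset_of_nonneg (range_subset_range.2 hle)
    intro i _ _; exact h0 _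
  have s2 : (((N / K + 1 : ℕ)) : ℝ) ≤ 3 * N / q + 1 := by
    push_cast
    have : ((N / K : ℕ) : ℝ) ≤ (N : ℝ) / K := Nat.cast_div_le
    have h4 : (N : ℝ) / K ≤ 3 * N / q := by
      have hK0 : (0 : ℝ) < K := by exact_mod_cast hK1
      rw [div_le_div_iff₀ hK0 hq0]
      have : (q : ℝ) ≤ 3 * K := by exact_mod_cast hqK
      nlinarith [show (0 : ℝ) ≤ N by positivity]
    linarith
  have s3 : 0 ≤ 2 * ((N : ℝ) + q * (1 + Real.log q)) := by positivity
  have s4 := mul_le_mul_of_nonneg_right s2 s3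
  nlinarith [s1.trans hb]

end Pool.Agent.W22.MF
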