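import Mathlib
import Pool.Agent.W22.MF1

set_option autoImplicit false

open Finset

namespace Pool.Agent.W22.MF

lemma sum_range_mul' {M : Type*} [AddCommMonoid M] (f : ℕ → M) (L Q : ℕ) :
    ∑ i ∈ range (L * Q), f i = ∑ j ∈ range L, ∑ r ∈ range Q, f (j * Q + r) := by
  induction L with
  | zero => simp
  | succ L ih => rw [add_mul, one_mul, sum_range_add, ih, sum_range_succ]

lemma sum_range_zmod {M : Type*} [AddCommMonoid M] (Q : ℕ) [NeZero Q] (g : ZMod Q → M) (l : ℕ) :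
    ∑ r ∈ range Q, g (((l + r : ℕ) : ZMod Q)) = ∑ z : ZMod Q, g z := by
  have h1 : ∑ r ∈ range Q, g (((l + r : ℕ) : ZMod Q)) = ∑ z : ZMod Q, g ((l : ZMod Q) + z) := by
    apply Finset.sum_nbij' (fun r : ℕ => (r : ZMod Q)) (fun z : ZMod Q => z.val)
    · intro r _; exact mem_univ _
    · intro z _; exact mem_range.2 z.val_lt
    · intro r hr; exact ZMod.val_cast_of_lt (mem_range.1 hr)
    · intro z _; exact ZMod.natCast_zmod_val z
    · intro r _; push_cast; rfl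
  rw [h1]
  exact Equiv.sum_comp (Equiv.addLeft (l : ZMod Q)) g

lemma ee_div_eq (Q : ℕ) [NeZero Q] (m : ℤ) :
    ee ((m : ℝ) / Q) = ZMod.stdAddChar (N := Q) (m : ZMod Q) := by
  rw [ZMod.stdAddChar_coe]
  unfold ee
  congr 1
  push_cast
  ring

/-- the square of the modulus of a quadratic Gauss sum with odd modulus -/
lemma gauss_sq (Q : ℕ) [NeZero Q] (hQ : Odd Q) (a p : ZMod Q) (hp : IsUnit p) :
    ‖∑ z : ZMod Q, ZMod.stdAddChar (N := Q) (a * z + p * z ^ 2)‖ ^ 2 = Q := by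
  set ψ := ZMod.stdAddChar (N := Q) with hψ
  have hprim : ψ.IsPrimitive := ZMod.isPrimitive_stdAddChar Q
  have h2 : IsUnit (2 : ZMod Q) := by
    have : ((2 : ℕ) : ZMod Q) = 2 := by norm_cast
    rw [← this, ZMod.isUnit_iff_coprime]
    exact (Nat.coprime_two_left.2 hQ)
  have key : (∑ z : ZMod Q, ψ (a * z + p * z ^ 2)) *
      (starRingEnd ℂ) (∑ z : ZMod Q, ψ (a * z + p * z ^ 2)) = Q := by
    have hconj : ∀ z : ZMod Q, (starRingEnd ℂ) (ψ z) = ψ (-z) := by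
      intro z
      rw [AddChar.map_neg_eq_conj]
    rw [map_sum, Finset.sum_mul_sum]
    simp_rw [hconj, ← AddChar.map_add_eq_mul]
    rw [Finset.sum_comm]
    have e1 : ∀ w : ZMod Q, ∑ z : ZMod Q, ψ (a * z + p * z ^ 2 + -(a * w + p * w ^ 2)) =
        ∑ h : ZMod Q, ψ (a * h + p * h ^ 2) * ψ (w * (2 * p * h)) := by
      intro w
      rw [← Equiv.sum_comp (Equiv.addRight w)]
      apply sum_congr rfl
      intro h _
      rw [← AddChar.map_add_eq_mul]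
      congr 1
      simp only [Equiv.coe_addRight]
      ring
    simp_rw [e1]
    rw [Finset.sum_comm]
    simp_rw [← Finset.mul_sum, AddChar.sum_mulShift _ hprim]
    rw [Finset.sum_eq_single 0]
    · simp
    · intro h _ hh
      have : 2 * p * h ≠ 0 := by
        intro h3
        apply hh
        exact (IsUnit.mul_right_eq_zero (h2.mul hp)).1 h3
      rw [if_neg this]; simp
    · intro h; exact absurd (mem_univ _) h
  have h3 := Complex.mul_conj' (∑ z : ZMod Q, ψ (a * z + p * z ^ 2))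
  rw [key] at h3
  exact_mod_cast h3.symm

lemma cos_ge_half {g : ℝ} (h0 : 0 ≤ g) (h1 : g ≤ 1 / 6) : 1 / 2 ≤ (ee g).re := by
  unfold ee
  rw [show (2 * Real.pi * g * Complex.I : ℂ) = ((2 * Real.pi * g : ℝ) : ℂ) * Complex.I by
    push_cast; ring, Complex.exp_ofReal_mul_I_re, ← Real.cos_pi_div_three]
  apply Real.cos_le_cos_of_nonneg_of_le_pi (by positivity)
  · linarith [Real.pi_pos]
  · nlinarith [Real.pi_pos]

/-- lower bound for quadratic sums close to a rational with odd denominator `Q` -/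
theorem lower_bound (Q L : ℕ) (hQ : Odd Q) (a p : ℤ) (hp : IsCoprime p (Q : ℤ)) (γ β : ℝ)
    (hγ : 0 ≤ γ) (hβ : 0 ≤ β) (hγN : γ * (L * Q : ℕ) ≤ 1 / 12)
    (hβN : β * ((L * Q : ℕ) : ℝ) ^ 2 ≤ 1 / 12) :
    1 / 2 * (L : ℝ) * Real.sqrt Q -
      (L * Q : ℕ) * (2 * Real.pi * (γ * Q + 2 * β * (L * Q : ℕ) * Q)) ≤
    ‖∑ n ∈ range (L * Q), ee ((a / Q + γ) * ((n : ℝ) + 1) + (p / Q + β) * ((n : ℝ) + 1) ^ 2)‖ := by
  have hQ0 : 0 < Q := hQ.pos
  have : NeZero Q := ⟨hQ0.ne'⟩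
  have hQ0' : (0 : ℝ) < Q := by exact_mod_cast hQ0
  set N : ℕ := L * Q with hN
  set ψ := ZMod.stdAddChar (N := Q) with hψ
  set G : ℂ := ∑ z : ZMod Q, ψ ((a : ZMod Q) * z + (p : ZMod Q) * z ^ 2) with hG
  have hGn : ‖G‖ = Real.sqrt Q := by
    have hpu : IsUnit (p : ZMod Q) := (ZMod.coe_int_isUnit_iff_isCoprime p Q).2 hp.symm
    have := gauss_sq Q hQ (a : ZMod Q) (p : ZMod Q) hpu
    rw [← this, Real.sqrt_sq (norm_nonneg _)]
  set g : ℝ → ℝ := fun t => γ * t + β * t ^ 2 with hg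
  -- the block decomposition
  have hblock : ∀ j ∈ range L, ‖∑ r ∈ range Q,
      ee ((a / Q + γ) * (((j * Q + r : ℕ) : ℝ) + 1) + (p / Q + β) * (((j * Q + r : ℕ) : ℝ) + 1) ^ 2)
      - ee (g (j * Q : ℕ)) * G‖ ≤ Q * (2 * Real.pi * (γ * Q + 2 * β * N * Q)) := by
    intro j hj
    rw [mem_range] at hj
    have hG2 : G = ∑ r ∈ range Q, ee (((a * ((j * Q + r + 1 : ℕ) : ℤ) +
        p * ((j * Q + r + 1 : ℕ) : ℤ) ^ 2 : ℤ) : ℝ) / Q) := by
      rw [hG, ← sum_range_zmod Q _ (j * Q + 1)]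
      apply sum_congr rfl
      intro r _
      rw [ee_div_eq]
      congr 1
      push_cast
      ring
    rw [hG2, mul_sum, ← sum_sub_distrib]
    refine (norm_sum_le _ _).trans ?_
    have hterm : ∀ r ∈ range Q, ‖ee ((a / Q + γ) * (((j * Q + r : ℕ) : ℝ) + 1) +
        (p / Q + β) * (((j * Q + r : ℕ) : ℝ) + 1) ^ 2) - ee (g (j * Q : ℕ)) *
        ee (((a * ((j * Q + r + 1 : ℕ) : ℤ) + p * ((j * Q + r + 1 : ℕ) : ℤ) ^ 2 : ℤ) : ℝ) / Q)‖ ≤
        2 * Real.pi * (γ * Q + 2 * β * N * Q) := by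
      intro r hr
      rw [mem_range] at hr
      have e1 : (a / Q + γ) * (((j * Q + r : ℕ) : ℝ) + 1) +
        (p / Q + β) * (((j * Q + r : ℕ) : ℝ) + 1) ^ 2 =
          ((g (((j * Q + r : ℕ) : ℝ) + 1) - g (j * Q : ℕ)) + g (j * Q : ℕ)) +
          ((a * ((j * Q + r + 1 : ℕ) : ℤ) + p * ((j * Q + r + 1 : ℕ) : ℤ) ^ 2 : ℤ) : ℝ) / Q := by
        rw [hg]; push_cast; field_simp; ring
      rw [e1, ee_add, ee_add]
      have e2 : ee (g (((j * Q + r : ℕ) : ℝ) + 1) - g (j * Q : ℕ)) * ee (g (j * Q : ℕ)) *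
          ee (((a * ((j * Q + r + 1 : ℕ) : ℤ) + p * ((j * Q + r + 1 : ℕ) : ℤ) ^ 2 : ℤ) : ℝ) / Q) -
          ee (g (j * Q : ℕ)) *
          ee (((a * ((j * Q + r + 1 : ℕ) : ℤ) + p * ((j * Q + r + 1 : ℕ) : ℤ) ^ 2 : ℤ) : ℝ) / Q) =
          (ee (g (((j * Q + r : ℕ) : ℝ) + 1) - g (j * Q : ℕ)) - 1) * (ee (g (j * Q : ℕ)) *
          ee (((a * ((j * Q + r + 1 : ℕ) : ℤ) + p * ((j * Q + r + 1 : ℕ) : ℤ) ^ 2 : ℤ) : ℝ) / Q)) := by
        ring
      rw [e2, norm_mul, norm_mul, norm_ee, norm_ee, mul_one, mul_one]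
      refine (norm_ee_sub_one_le _).trans ?_
      apply mul_le_mul_of_nonneg_left _ (by positivity)
      have hA : ((j * Q + r : ℕ) : ℝ) + 1 ≤ N := by
        have : j * Q + r + 1 ≤ N := by
          rw [hN]
          calc j * Q + r + 1 ≤ j * Q + Q := by omega
            _ = (j + 1) * Q := by ring
            _ ≤ L * Q := Nat.mul_le_mul_right _ hj
        exact_mod_cast this
      have hr1 : (r : ℝ) + 1 ≤ Q := by exact_mod_cast hr
      have e3 : g (((j * Q + r : ℕ) : ℝ) + 1) - g (j * Q : ℕ) =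
          γ * (r + 1) + β * ((r + 1) * (((j * Q + r : ℕ) : ℝ) + 1 + (j * Q : ℕ))) := by
        rw [hg]; push_cast; ring
      rw [e3, abs_of_nonneg (by positivity)]
      have hB : ((j * Q : ℕ) : ℝ) ≤ N := by
        have : ((j * Q : ℕ) : ℝ) ≤ ((j * Q + r : ℕ) : ℝ) := by exact_mod_cast Nat.le_add_right _ _
        linarith
      have h5 : (r + 1) * (((j * Q + r : ℕ) : ℝ) + 1 + (j * Q : ℕ)) ≤ Q * (2 * N) := by
        apply mul_le_mul hr1 (by linarith) (by positivity) hQ0'.le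
      have h6 : β * ((r + 1) * (((j * Q + r : ℕ) : ℝ) + 1 + (j * Q : ℕ))) ≤ β * (Q * (2 * N)) :=
        mul_le_mul_of_nonneg_left h5 hβ
      have h7 : γ * (r + 1) ≤ γ * Q := mul_le_mul_of_nonneg_left hr1 hγ
      linarith
    refine (sum_le_sum hterm).trans ?_
    rw [sum_const, card_range, nsmul_eq_mul]
  rw [sum_range_mul']
  -- total
  have hdiff : ‖(∑ j ∈ range L, ∑ r ∈ range Q,
      ee ((a / Q + γ) * (((j * Q + r : ℕ) : ℝ) + 1) + (p / Q + β) * (((j * Q + r : ℕ) : ℝ) + 1) ^ 2))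
      - (∑ j ∈ range L, ee (g (j * Q : ℕ))) * G‖ ≤
        N * (2 * Real.pi * (γ * Q + 2 * β * N * Q)) := by
    rw [sum_mul, ← sum_sub_distrib]
    refine (norm_sum_le _ _).trans ((sum_le_sum hblock).trans ?_)
    rw [sum_const, card_range, nsmul_eq_mul, ← mul_assoc]
    rw [hN]; push_cast; rfl
  have hmain : 1 / 2 * (L : ℝ) ≤ ‖∑ j ∈ range L, ee (g (j * Q : ℕ))‖ := by
    refine le_trans ?_ (Complex.re_le_norm _)
    rw [Complex.re_sum]
    have : ∀ j ∈ range L, (1 / 2 : ℝ) ≤ (ee (g (j * Q : ℕ))).re := by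
      intro j hj
      rw [mem_range] at hj
      apply cos_ge_half (by rw [hg]; positivity)
      have hB : ((j * Q : ℕ) : ℝ) ≤ N := by
        rw [hN]
        exact_mod_cast Nat.mul_le_mul_right _ hj.le
      have h1 : γ * ((j * Q : ℕ) : ℝ) ≤ γ * N := mul_le_mul_of_nonneg_left hB hγ
      have h2 : β * ((j * Q : ℕ) : ℝ) ^ 2 ≤ β * (N : ℝ) ^ 2 := by gcongr
      simp only [hg]
      linarith
    calc 1 / 2 * (L : ℝ) = ∑ j ∈ range L, (1 / 2 : ℝ) := by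
          rw [sum_const, card_range, nsmul_eq_mul]; ring
      _ ≤ _ := sum_le_sum this
  have hprod : 1 / 2 * (L : ℝ) * Real.sqrt Q ≤ ‖(∑ j ∈ range L, ee (g (j * Q : ℕ))) * G‖ := by
    rw [norm_mul, hGn]
    gcongr
  have h8 := norm_sub_norm_le ((∑ j ∈ range L, ee (g (j * Q : ℕ))) * G)
    (∑ j ∈ range L, ∑ r ∈ range Q,
      ee ((a / Q + γ) * (((j * Q + r : ℕ) : ℝ) + 1) + (p / Q + β) * (((j * Q + r : ℕ) : ℝ) + 1) ^ 2))
  rw [norm_sub_rev] at h8
  linarith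

end Pool.Agent.W22.MF
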