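import Mathlib

set_option autoImplicit false

open Finset

namespace Pool.Agent.W22.MF

/-- the exponents -/
noncomputable def nn (τ : ℝ) : ℕ → ℕ
  | 0 => 2
  | (k + 1) => ⌈τ * nn τ k⌉₊

section
variable {τ : ℝ} (hτ : 3 < τ)

include hτ

lemma nn_ge (k : ℕ) : 2 ≤ nn τ k := by
  induction k with
  | zero => simp [nn]
  | succ k ih =>
      rw [nn]
      have h1 : (2 : ℝ) ≤ nn τ k := by exact_mod_cast ih
      have h2 : (2 : ℝ) ≤ τ * nn τ k := by nlinarith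
      exact_mod_cast h2.trans (Nat.le_ceil _)

omit hτ in
lemma nn_succ_ge (k : ℕ) : τ * nn τ k ≤ nn τ (k + 1) := Nat.le_ceil _

lemma nn_succ_lt (k : ℕ) : (nn τ (k + 1) : ℝ) < τ * nn τ k + 1 := by
  rw [nn]
  exact Nat.ceil_lt_add_one (by positivity)

lemma nn_succ_ge' (k : ℕ) : 3 * nn τ k + 1 ≤ nn τ (k + 1) := by
  have h1 := nn_succ_ge (τ := τ) k
  have h2 : (2 : ℝ) ≤ nn τ k := by exact_mod_cast nn_ge hτ k
  have h3 : ((3 * nn τ k : ℕ) : ℝ) < nn τ (k + 1) := by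
    push_cast; nlinarith
  have : 3 * nn τ k < nn τ (k + 1) := by exact_mod_cast h3
  omega

lemma nn_strictMono : StrictMono (nn τ) := by
  apply strictMono_nat_of_lt_succ
  intro k
  have := nn_succ_ge' hτ k
  omega

lemma nn_add_le (k j : ℕ) : nn τ k + j ≤ nn τ (k + j) := by
  induction j with
  | zero => simp
  | succ j ih =>
      have h2 : nn τ (k + j) < nn τ (k + j + 1) := nn_strictMono hτ (Nat.lt_succ_self (k + j))
      show nn τ k + (j + 1) ≤ nn τ (k + j + 1)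
      omega

lemma nn_ge_self (k : ℕ) : k ≤ nn τ k := (nn_strictMono hτ).id_le k

/-- the number with digits `c` -/
lemma summable_c (c : ℕ → ℕ) (hc : ∀ k, c k ≤ 2 ^ nn τ k) :
    Summable (fun k => (c k : ℝ) / 9 ^ nn τ k) := by
  apply Summable.of_nonneg_of_le (g := fun k => (c k : ℝ) / 9 ^ nn τ k)
    (f := fun k : ℕ => ((2 : ℝ) / 9) ^ k)
  · intro k; positivity
  · intro k
    have h1 : (c k : ℝ) ≤ 2 ^ nn τ k := by exact_mod_cast hc k
    calc (c k : ℝ) / 9 ^ nn τ k ≤ 2 ^ nn τ k / 9 ^ nn τ k := by gcongr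
      _ = (2 / 9) ^ nn τ k := by rw [div_pow]
      _ ≤ (2 / 9) ^ k := pow_le_pow_of_le_one (by norm_num) (by norm_num) (nn_ge_self hτ k)
  · exact summable_geometric_of_lt_one (by norm_num) (by norm_num)

/-- the tail after level `k` -/
lemma tail_bounds (c : ℕ → ℕ) (hc : ∀ k, c k ≤ 2 ^ nn τ k) (k : ℕ) :
    (c k : ℝ) / 9 ^ nn τ k ≤ ∑' j, (c (j + k) : ℝ) / 9 ^ nn τ (j + k) ∧
    ∑' j, (c (j + k) : ℝ) / 9 ^ nn τ (j + k) ≤ 9 / 7 * (2 / 9) ^ nn τ k := by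
  have hs := (summable_nat_add_iff k).2 (summable_c hτ c hc)
  constructor
  · have := hs.sum_le_tsum {0} (fun j _ => by positivity)
    simpa using this
  · have h1 : ∀ j, (c (j + k) : ℝ) / 9 ^ nn τ (j + k) ≤ (2 / 9) ^ nn τ k * (2 / 9) ^ j := by
      intro j
      have h2 : (c (j + k) : ℝ) ≤ 2 ^ nn τ (j + k) := by exact_mod_cast hc (j + k)
      calc (c (j + k) : ℝ) / 9 ^ nn τ (j + k) ≤ 2 ^ nn τ (j + k) / 9 ^ nn τ (j + k) := by gcongr
        _ = (2 / 9) ^ nn τ (j + k) := by rw [div_pow]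
        _ ≤ (2 / 9) ^ (nn τ k + j) := by
          apply pow_le_pow_of_le_one (by norm_num) (by norm_num)
          rw [add_comm j k]; exact nn_add_le hτ k j
        _ = _ := by rw [pow_add]
    have hg : HasSum (fun j : ℕ => ((2 : ℝ) / 9) ^ nn τ k * (2 / 9) ^ j)
        ((2 / 9) ^ nn τ k * (1 - 2 / 9)⁻¹) :=
      (hasSum_geometric_of_lt_one (by norm_num) (by norm_num)).mul_left _
    refine (hs.tsum_le_tsum h1 hg.summable).trans (le_of_eq ?_)
    rw [hg.tsum_eq]; norm_num; ring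

/-- the tail after level `k`, digits one -/
lemma tail_one (k : ℕ) :
    ∑' j, (1 : ℝ) / 9 ^ nn τ (j + k) ≤ 9 / 8 * (1 / 9) ^ nn τ k := by
  have h1 : ∀ j, (1 : ℝ) / 9 ^ nn τ (j + k) ≤ (1 / 9) ^ nn τ k * (1 / 9) ^ j := by
    intro j
    calc (1 : ℝ) / 9 ^ nn τ (j + k) = (1 / 9) ^ nn τ (j + k) := by rw [one_div_pow]
      _ ≤ (1 / 9) ^ (nn τ k + j) := by
        apply pow_le_pow_of_le_one (by norm_num) (by norm_num)
        rw [add_comm j k]; exact nn_add_le hτ k j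
      _ = _ := by rw [pow_add]
  have hg : HasSum (fun j : ℕ => ((1 : ℝ) / 9) ^ nn τ k * (1 / 9) ^ j)
      ((1 / 9) ^ nn τ k * (1 - 1 / 9)⁻¹) :=
    (hasSum_geometric_of_lt_one (by norm_num) (by norm_num)).mul_left _
  have hs : Summable (fun j => (1 : ℝ) / 9 ^ nn τ (j + k)) :=
    Summable.of_nonneg_of_le (fun j => by positivity) h1 hg.summable
  refine (hs.tsum_le_tsum h1 hg.summable).trans (le_of_eq ?_)
  rw [hg.tsum_eq]; norm_num; ring

/-- partial sums have denominator `9 ^ nn k` -/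
lemma partial_sum (c : ℕ → ℕ) (k : ℕ) :
    ∃ p : ℕ, ∑ j ∈ range (k + 1), (c j : ℝ) / 9 ^ nn τ j = (p : ℝ) / 9 ^ nn τ k ∧
      p % 3 = c k % 3 := by
  refine ⟨∑ j ∈ range (k + 1), c j * 9 ^ (nn τ k - nn τ j), ?_, ?_⟩
  · push_cast
    rw [sum_div]
    apply sum_congr rfl
    intro j hj
    rw [mem_range] at hj
    have hle : nn τ j ≤ nn τ k := (nn_strictMono hτ).monotone (by omega)
    have : (9 : ℝ) ^ nn τ k = 9 ^ nn τ j * 9 ^ (nn τ k - nn τ j) := by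
      rw [← pow_add]; congr 1; omega
    rw [this]
    field_simp
  · rw [sum_range_succ]
    have h1 : (∑ j ∈ range k, c j * 9 ^ (nn τ k - nn τ j)) % 3 = 0 := by
      apply Nat.mod_eq_zero_of_dvd
      apply Finset.dvd_sum
      intro j hj
      rw [mem_range] at hj
      have hlt : nn τ j < nn τ k := nn_strictMono hτ hj
      apply Dvd.dvd.mul_left
      exact dvd_pow (by norm_num) (by omega)
    rw [Nat.add_mod, h1]
    simp

end

/-- the number attached to a digit sequence -/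
noncomputable def num (τ : ℝ) (c : ℕ → ℕ) : ℝ := ∑' k, (c k : ℝ) / 9 ^ nn τ k

lemma num_split {τ : ℝ} (hτ : 3 < τ) (c : ℕ → ℕ) (hc : ∀ k, c k ≤ 2 ^ nn τ k) (k : ℕ) :
    num τ c = ∑ j ∈ range k, (c j : ℝ) / 9 ^ nn τ j +
      ∑' j, (c (j + k) : ℝ) / 9 ^ nn τ (j + k) :=
  ((summable_c hτ c hc).sum_add_tsum_nat_add k).symm

lemma one_le_two_pow (τ : ℝ) (k : ℕ) : (fun _ : ℕ => 1) k ≤ 2 ^ nn τ k := Nat.one_le_two_pow

lemma num_mem {τ : ℝ} (hτ : 3 < τ) (c : ℕ → ℕ) (hc : ∀ k, c k ≤ 2 ^ nn τ k) :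
    num τ c ∈ Set.Ico (0 : ℝ) 1 := by
  have h := (tail_bounds hτ c hc 0)
  constructor
  · exact tsum_nonneg fun k => by positivity
  · have h2 := h.2
    simp only [add_zero] at h2
    unfold num
    refine lt_of_le_of_lt h2 ?_
    have h3 : ((2 : ℝ) / 9) ^ nn τ 0 ≤ (2 / 9) ^ 2 :=
      pow_le_pow_of_le_one (by norm_num) (by norm_num) (nn_ge hτ 0)
    nlinarith

/-- approximation data for the first coordinate -/
lemma num_approx {τ : ℝ} (hτ : 3 < τ) (c : ℕ → ℕ) (hc : ∀ k, c k ≤ 2 ^ nn τ k) (k : ℕ) :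
    ∃ (a : ℕ) (γ : ℝ), num τ c = (a : ℝ) / 9 ^ nn τ k + γ ∧ 0 ≤ γ ∧
      γ ≤ 9 / 7 * (2 / 9) ^ nn τ (k + 1) := by
  obtain ⟨p, hp, -⟩ := partial_sum hτ c k
  refine ⟨p, ∑' j, (c (j + (k + 1)) : ℝ) / 9 ^ nn τ (j + (k + 1)), ?_,
    tsum_nonneg fun k => by positivity, (tail_bounds hτ c hc (k + 1)).2⟩
  rw [← hp]
  exact num_split hτ c hc (k + 1)

/-- the special number -/
noncomputable def xi (τ : ℝ) : ℝ := num τ (fun _ => 1)

lemma xi_approx {τ : ℝ} (hτ : 3 < τ) (k : ℕ) :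
    ∃ (p : ℕ) (β : ℝ), xi τ = (p : ℝ) / 9 ^ nn τ k + β ∧ Nat.Coprime p (9 ^ nn τ k) ∧
      (1 / 9) ^ nn τ (k + 1) ≤ β ∧ β ≤ 9 / 8 * (1 / 9) ^ nn τ (k + 1) := by
  obtain ⟨p, hp, hp3⟩ := partial_sum hτ (fun _ => 1) k
  refine ⟨p, ∑' j, (((fun _ : ℕ => 1) (j + (k + 1)) : ℕ) : ℝ) / 9 ^ nn τ (j + (k + 1)), ?_, ?_, ?_, ?_⟩
  · rw [← hp]
    exact num_split hτ _ (one_le_two_pow τ) (k + 1)
  · apply Nat.Coprime.pow_right
    have : Nat.Coprime p 3 := by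
      rw [Nat.coprime_comm, Nat.Prime.coprime_iff_not_dvd Nat.prime_three]
      intro h
      have := Nat.mod_eq_zero_of_dvd h
      simp at hp3
      omega
    have h9 : (9 : ℕ) = 3 ^ 2 := by norm_num
    rw [h9]
    exact Nat.Coprime.pow_right 2 this
  · have := (tail_bounds hτ (fun _ => 1) (one_le_two_pow τ) (k + 1)).1
    simp only [Nat.cast_one] at this ⊢
    rwa [one_div_pow]
  · simp only [Nat.cast_one]
    exact tail_one hτ (k + 1)

end Pool.Agent.W22.MF
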