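import Mathlib
import Pool.Agent.W22.MF2
import Pool.Agent.W22.MF3
import Pool.Agent.W22.MF4

set_option autoImplicit false

open Finset Filter

namespace Pool.Agent.W22.MF

lemma irr {τ : ℝ} (hτ : 3 < τ) (a : ℤ) (q : ℕ) (hq : 1 ≤ q) :
    1 / 162 / (q : ℝ) ^ τ ≤ |2 * xi τ - a / q| := by
  have hq0 : (0 : ℝ) < q := by exact_mod_cast hq
  have hq1 : (1 : ℝ) ≤ q := by exact_mod_cast hq
  have hqτ : (0 : ℝ) < (q : ℝ) ^ τ := Real.rpow_pos_of_pos hq0 _
  have hex : ∃ k, 5 * q * 9 ^ nn τ k ≤ 9 ^ nn τ (k + 1) := by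
    refine ⟨q, ?_⟩
    have h1 := nn_succ_ge' hτ q
    have h2 := nn_ge_self hτ q
    have h3 : 5 * q ≤ 9 ^ (2 * nn τ q + 1) := by
      have h4 : q + 1 ≤ 9 ^ q := Nat.lt_pow_self (by norm_num)
      calc 5 * q ≤ 9 * 9 ^ q := by omega
        _ = 9 ^ (q + 1) := by ring
        _ ≤ 9 ^ (2 * nn τ q + 1) := Nat.pow_le_pow_right (by norm_num) (by omega)
    calc 5 * q * 9 ^ nn τ q ≤ 9 ^ (2 * nn τ q + 1) * 9 ^ nn τ q := Nat.mul_le_mul_right _ h3
      _ = 9 ^ (3 * nn τ q + 1) := by rw [← pow_add]; congr 1; ring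
      _ ≤ _ := Nat.pow_le_pow_right (by norm_num) h1
  classical
  set k := Nat.find hex with hk
  have hkP : 5 * q * 9 ^ nn τ k ≤ 9 ^ nn τ (k + 1) := Nat.find_spec hex
  obtain ⟨p, β, hx, hcop, hβ1, hβ2⟩ := xi_approx hτ k
  have hQ0 : (0 : ℝ) < 9 ^ nn τ k := by positivity
  have hkR : 5 * (q : ℝ) * 9 ^ nn τ k ≤ 9 ^ nn τ (k + 1) := by exact_mod_cast hkP
  have hβ0 : 0 ≤ β := le_trans (by positivity) hβ1
  have e0 : 2 * xi τ - a / q = (2 * p / 9 ^ nn τ k - a / q) + 2 * β := by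
    rw [hx]; ring
  by_cases hne : a * 9 ^ nn τ k = 2 * p * q
  · -- the fraction is the approximation itself
    have e1 : (2 * p / 9 ^ nn τ k - a / q : ℝ) = 0 := by
      have : (a : ℝ) * 9 ^ nn τ k = 2 * p * q := by exact_mod_cast hne
      field_simp
      linarith
    rw [e0, e1, zero_add, abs_of_nonneg (by positivity)]
    have hdvd : 9 ^ nn τ k ∣ q := by
      have h1 : ((9 ^ nn τ k : ℕ) : ℤ) ∣ ((2 * p : ℕ) : ℤ) * (q : ℤ) :=
        ⟨a, by push_cast; linarith⟩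
      have h2 : 9 ^ nn τ k ∣ 2 * p * q := by exact_mod_cast h1
      have h3 : Nat.Coprime (9 ^ nn τ k) (2 * p) := by
        apply Nat.Coprime.mul_right _ hcop.symm
        exact Nat.Coprime.pow_left _ (by norm_num)
      exact h3.dvd_of_dvd_mul_left h2
    have hle : (9 : ℝ) ^ nn τ k ≤ q := by exact_mod_cast Nat.le_of_dvd (by omega) hdvd
    have h4 : (9 : ℝ) ^ nn τ (k + 1) ≤ 9 * (q : ℝ) ^ τ := by
      calc (9 : ℝ) ^ nn τ (k + 1) = (9 : ℝ) ^ (nn τ (k + 1) : ℝ) := (Real.rpow_natCast _ _).symm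
        _ ≤ (9 : ℝ) ^ (τ * nn τ k + 1) :=
            Real.rpow_le_rpow_of_exponent_le (by norm_num) (nn_succ_lt hτ k).le
        _ = 9 * ((9 : ℝ) ^ nn τ k) ^ τ := by
            rw [Real.rpow_add (by norm_num), Real.rpow_one, mul_comm τ, Real.rpow_mul (by norm_num),
              Real.rpow_natCast]
            ring
        _ ≤ 9 * (q : ℝ) ^ τ := by gcongr
    have h5 : 1 / (9 * (q : ℝ) ^ τ) ≤ β := by
      refine le_trans ?_ hβ1
      rw [one_div_pow]
      exact one_div_le_one_div_of_le (by positivity) h4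
    have h6 : 1 / 162 / (q : ℝ) ^ τ ≤ 1 / (9 * (q : ℝ) ^ τ) := by
      rw [div_div]
      apply one_div_le_one_div_of_le (by positivity)
      nlinarith
    linarith
  · -- generic fraction
    have h1 : 1 / (q * 9 ^ nn τ k : ℝ) ≤ |(2 * p / 9 ^ nn τ k - a / q : ℝ)| := by
      have e1 : (2 * p / 9 ^ nn τ k - a / q : ℝ) =
          ((2 * p * q - a * 9 ^ nn τ k : ℤ) : ℝ) / (q * 9 ^ nn τ k) := by
        push_cast; field_simp
      rw [e1, abs_div, abs_of_pos (by positivity : (0 : ℝ) < q * 9 ^ nn τ k)]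
      have h2 : (2 * p * q - a * 9 ^ nn τ k : ℤ) ≠ 0 := by
        intro h; apply hne; linarith
      have h3 : (1 : ℝ) ≤ |((2 * p * q - a * 9 ^ nn τ k : ℤ) : ℝ)| := by
        rw [← Int.cast_abs]
        exact_mod_cast Int.one_le_abs h2
      gcongr
    have h2 : 2 * β ≤ 1 / 2 * (1 / (q * 9 ^ nn τ k : ℝ)) := by
      have h3 : (1 / 9 : ℝ) ^ nn τ (k + 1) ≤ 1 / (5 * q * 9 ^ nn τ k) := by
        rw [one_div_pow]
        exact one_div_le_one_div_of_le (by positivity) hkR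
      have e2 : 1 / (5 * q * 9 ^ nn τ k : ℝ) = 1 / 5 * (1 / (q * 9 ^ nn τ k : ℝ)) := by
        field_simp
      have h4 : 0 < 1 / (q * 9 ^ nn τ k : ℝ) := by positivity
      rw [e2] at h3
      linarith
    have h3 : 1 / 2 * (1 / (q * 9 ^ nn τ k : ℝ)) ≤ |2 * xi τ - a / q| := by
      rw [e0]
      have := abs_sub_abs_le_abs_sub (2 * p / 9 ^ nn τ k - a / q : ℝ) (-(2 * β))
      rw [abs_neg, abs_of_nonneg (by positivity : (0 : ℝ) ≤ 2 * β), sub_neg_eq_add] at this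
      linarith
    refine le_trans ?_ h3
    -- bound the denominator
    have h4 : (q : ℝ) * 9 ^ nn τ k ≤ 81 * (q : ℝ) ^ τ := by
      rcases Nat.eq_zero_or_pos k with hk0 | hk0
      · rw [hk0]
        simp only [nn]
        have : (q : ℝ) ≤ (q : ℝ) ^ τ := by
          calc (q : ℝ) = (q : ℝ) ^ (1 : ℝ) := (Real.rpow_one _).symm
            _ ≤ _ := Real.rpow_le_rpow_of_exponent_le hq1 (by linarith)
        linarith
      · obtain ⟨k', hk'⟩ : ∃ k', k = k' + 1 := ⟨k - 1, by omega⟩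
        have hnot : ¬ (5 * q * 9 ^ nn τ k' ≤ 9 ^ nn τ (k' + 1)) :=
          Nat.find_min hex (by rw [← hk]; omega)
        push Not at hnot
        have h5 : (9 ^ nn τ k') ^ 3 ≤ 9 ^ nn τ (k' + 1) := by
          rw [← pow_mul]
          apply Nat.pow_le_pow_right (by norm_num)
          have := nn_succ_ge' hτ k'
          omega
        rw [hk']
        set A := 9 ^ nn τ k' with hA
        set B := 9 ^ nn τ (k' + 1) with hB
        have hB0 : 0 < B := by positivity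
        have h6 : B ^ 2 < 125 * q ^ 3 := by
          have h7 : B ^ 3 < (5 * q * A) ^ 3 := Nat.pow_lt_pow_left hnot (by norm_num)
          have h8 : (5 * q * A) ^ 3 = 125 * q ^ 3 * A ^ 3 := by ring
          have h9 : B * B ^ 2 < B * (125 * q ^ 3) := by
            calc B * B ^ 2 = B ^ 3 := by ring
              _ < 125 * q ^ 3 * A ^ 3 := by rw [← h8]; exact h7
              _ ≤ 125 * q ^ 3 * B := Nat.mul_le_mul_left _ h5
              _ = _ := by ring
          exact lt_of_mul_lt_mul_left h9 (Nat.zero_le _)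
        have h7 : B ≤ 12 * q ^ 2 := by
          by_contra hcon
          push Not at hcon
          have : (12 * q ^ 2) ^ 2 < B ^ 2 := Nat.pow_lt_pow_left hcon (by norm_num)
          have h8 : (12 * q ^ 2) ^ 2 = 144 * q ^ 3 * q := by ring
          have h9 : 144 * q ^ 3 * 1 ≤ 144 * q ^ 3 * q := Nat.mul_le_mul_left _ hq
          have h10 : 0 < q ^ 3 := by positivity
          omega
        have h8 : (B : ℝ) ≤ 12 * (q : ℝ) ^ 2 := by exact_mod_cast h7
        have h9 : ((9 : ℝ) ^ nn τ (k' + 1)) = (B : ℝ) := by rw [hB]; push_cast; rfl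
        rw [h9]
        have h10 : (q : ℝ) ^ 3 ≤ (q : ℝ) ^ τ := by
          calc (q : ℝ) ^ 3 = (q : ℝ) ^ (3 : ℝ) := by
                rw [← Real.rpow_natCast]; norm_num
            _ ≤ _ := Real.rpow_le_rpow_of_exponent_le hq1 hτ.le
        have h11 : (q : ℝ) * B ≤ q * (12 * (q : ℝ) ^ 2) := by gcongr
        nlinarith
    have h5 : 1 / (81 * (q : ℝ) ^ τ) ≤ 1 / (q * 9 ^ nn τ k : ℝ) :=
      one_div_le_one_div_of_le (by positivity) h4
    calc 1 / 162 / (q : ℝ) ^ τ = 1 / 2 * (1 / (81 * (q : ℝ) ^ τ)) := by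
          field_simp; norm_num
      _ ≤ _ := by linarith

/-- the two-term Weyl sum -/
noncomputable def S (x y : ℝ) (N : ℕ) : ℂ :=
  ∑ n ∈ range N, ee (x * ((n : ℝ) + 1) + y * ((n : ℝ) + 1) ^ 2)

lemma upper_sq {τ : ℝ} (hτ : 3 < τ) : ∃ C : ℝ, 0 < C ∧ ∀ᶠ N : ℕ in atTop, ∀ x : ℝ,
    ‖S x (xi τ) N‖ ^ 2 ≤ C * ((N : ℝ) ^ (2 * (1 - 1 / τ)) * (1 + Real.log N)) := by
  set α : ℝ := 1 - 1 / τ with hα
  have hτ0 : 0 < τ := by linarith
  have hinv : 1 / τ < 1 / 3 := one_div_lt_one_div_of_lt (by norm_num) hτ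
  have hinv0 : 0 < 1 / τ := by positivity
  have hα1 : 2 / 3 < α := by rw [hα]; linarith
  have hα2 : α < 1 := by rw [hα]; linarith
  set c : ℝ := (1 / 162) ^ (1 / (τ - 1)) with hc
  have hc0 : 0 < c := by rw [hc]; positivity
  refine ⟨45 + 12 * (1 / c), by positivity, ?_⟩
  have hbig : ∀ᶠ N : ℕ in atTop, 2 ≤ c * (N : ℝ) ^ (2 - 2 * α) := by
    have h1 : Tendsto (fun N : ℕ => c * (N : ℝ) ^ (2 - 2 * α)) atTop atTop :=
      Tendsto.const_mul_atTop hc0
        ((tendsto_rpow_atTop (by linarith)).comp tendsto_natCast_atTop_atTop)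
    exact h1.eventually_ge_atTop 2
  filter_upwards [hbig, eventually_ge_atTop 1] with N hN hN1 x
  have hN1' : (1 : ℝ) ≤ N := by exact_mod_cast hN1
  have hN0 : (0 : ℝ) < N := by linarith
  set A : ℝ := (N : ℝ) ^ (2 * α) with hA
  have hNA : (N : ℝ) ≤ A := by
    calc (N : ℝ) = (N : ℝ) ^ (1 : ℝ) := (Real.rpow_one _).symm
      _ ≤ _ := Real.rpow_le_rpow_of_exponent_le hN1' (by linarith)
  have hA1 : 1 ≤ A := hN1'.trans hNA
  set M : ℕ := ⌈A⌉₊ with hM
  have hMA : A ≤ M := Nat.le_ceil _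
  have hM2 : (M : ℝ) ≤ 2 * A := by
    have := Nat.ceil_lt_add_one (by linarith : 0 ≤ A)
    linarith
  have hM0 : 0 < M := by
    have : (0 : ℝ) < M := by linarith
    exact_mod_cast this
  obtain ⟨r, hr1, hr2⟩ := Real.exists_rat_abs_sub_le_and_den_le (2 * xi τ) hM0
  set q : ℕ := r.den with hq
  have hq1 : 1 ≤ q := r.pos
  have hq1' : (1 : ℝ) ≤ q := by exact_mod_cast hq1
  have hq0 : (0 : ℝ) < q := by linarith
  have hrq : (r : ℝ) = (r.num : ℝ) / q := by rw [hq]; exact Rat.cast_def r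
  rw [hrq] at hr1
  have hirr := irr hτ r.num q hq1
  have hqM : (q : ℝ) ≤ M := by exact_mod_cast hr2
  -- lower bound for q
  have h1 : 1 / 162 * A ≤ (q : ℝ) ^ (τ - 1) := by
    have h2 : 1 / 162 / (q : ℝ) ^ τ ≤ 1 / (((M : ℝ) + 1) * q) := hirr.trans hr1
    rw [div_le_div_iff₀ (by positivity) (by positivity)] at h2
    have h3 : (q : ℝ) ^ τ = (q : ℝ) ^ (τ - 1) * q := by
      rw [← Real.rpow_add_one hq0.ne']; congr 1; ring
    rw [h3] at h2
    have h4 : 1 / 162 * ((M : ℝ) + 1) ≤ (q : ℝ) ^ (τ - 1) := by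
      have : (1 / 162 * ((M : ℝ) + 1)) * q ≤ (q : ℝ) ^ (τ - 1) * q := by linarith
      exact le_of_mul_le_mul_right this hq0
    linarith
  have h2 : c * (N : ℝ) ^ (2 - 2 * α) ≤ q := by
    have hτ1 : 0 < τ - 1 := by linarith
    have h3 : (1 / 162 * A) ^ (1 / (τ - 1)) ≤ ((q : ℝ) ^ (τ - 1)) ^ (1 / (τ - 1)) :=
      Real.rpow_le_rpow (by positivity) h1 (by positivity)
    rw [← Real.rpow_mul hq0.le, mul_one_div_cancel hτ1.ne', Real.rpow_one,
      Real.mul_rpow (by norm_num) (by linarith), hA, ← Real.rpow_mul hN0.le] at h3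
    have h4 : 2 * α * (1 / (τ - 1)) = 2 - 2 * α := by
      rw [hα]; field_simp; ring
    rw [h4] at h3
    exact h3
  have hq2 : 2 ≤ q := by
    have : (2 : ℝ) ≤ q := hN.trans h2
    exact_mod_cast this
  have hcop : IsCoprime r.num (q : ℤ) := by
    rw [hq]
    exact Int.isCoprime_iff_gcd_eq_one.2 r.reduced
  have hω : |2 * xi τ - r.num / q| ≤ 1 / (q : ℝ) ^ 2 := by
    refine hr1.trans ?_
    apply one_div_le_one_div_of_le (by positivity)
    nlinarith
  have hw := weyl_ineq x (xi τ) hq2 hcop hω N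
  refine hw.trans ?_
  have hN2 : (N : ℝ) ^ 2 / q ≤ 1 / c * A := by
    rw [div_le_iff₀ hq0]
    have e1 : (N : ℝ) ^ 2 = A * (N : ℝ) ^ (2 - 2 * α) := by
      rw [hA, ← Real.rpow_add hN0, ← Real.rpow_natCast]
      congr 1; push_cast; ring
    have e2 : (N : ℝ) ^ (2 - 2 * α) ≤ 1 / c * q := by
      rw [one_div, ← div_eq_inv_mul, le_div_iff₀ hc0]; linarith
    rw [e1]
    calc A * (N : ℝ) ^ (2 - 2 * α) ≤ A * (1 / c * q) := by gcongr
      _ = _ := by ring
  have hlogN : 0 ≤ Real.log N := Real.log_nonneg hN1'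
  have hlogq0 : 0 ≤ Real.log q := Real.log_nonneg hq1'
  have hlogq : 1 + Real.log q ≤ 2 * (1 + Real.log N) := by
    have h3 : Real.log q ≤ Real.log (2 * A) := Real.log_le_log hq0 (hqM.trans hM2)
    rw [Real.log_mul (by norm_num) (by linarith), hA, Real.log_rpow hN0] at h3
    have h4 := Real.log_two_lt_d9
    nlinarith
  set ℓ : ℝ := 1 + Real.log N with hℓ
  have hℓ1 : 1 ≤ ℓ := by rw [hℓ]; linarith
  have e3 : (N : ℝ) + 4 * (3 * N / q + 1) * (N + q * (1 + Real.log q)) =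
      5 * N + 12 * ((N : ℝ) ^ 2 / q) + 12 * (N * (1 + Real.log q)) + 4 * (q * (1 + Real.log q)) := by
    field_simp; ring
  rw [e3]
  have b1 : (N : ℝ) * (1 + Real.log q) ≤ A * (2 * ℓ) := by
    apply mul_le_mul hNA hlogq (by linarith) (by linarith)
  have b2 : (q : ℝ) * (1 + Real.log q) ≤ 2 * A * (2 * ℓ) := by
    apply mul_le_mul (hqM.trans hM2) hlogq (by linarith) (by linarith)
  have b3 : A ≤ A * ℓ := by nlinarith
  have b4 : 1 / c * A ≤ 1 / c * (A * ℓ) := by gcongr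
  nlinarith

end Pool.Agent.W22.MF
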