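import Mathlib
import Pool.Agent.W22.MF5

set_option autoImplicit false

open Finset Filter

namespace Pool.Agent.W22.MF

/-- lower bound along the special lengths -/
lemma lower_special {τ : ℝ} (hτ : 3 < τ) (c : ℕ → ℕ) (hc : ∀ k, c k ≤ 2 ^ nn τ k) (k : ℕ)
    (hk : 3 * nn τ k + 4 ≤ nn τ (k + 1)) :
    (3 : ℝ) ^ (nn τ (k + 1) - 4 - nn τ k) ≤
      ‖S (num τ c) (xi τ) (3 ^ (nn τ (k + 1) - 2))‖ := by
  obtain ⟨a, γ, hx, hγ0, hγ1⟩ := num_approx hτ c hc k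
  obtain ⟨p, β, hy, hcop, hβ1, hβ2⟩ := xi_approx hτ k
  have hβ0 : 0 ≤ β := le_trans (by positivity) hβ1
  set n := nn τ k with hn
  set n' := nn τ (k + 1) with hn'
  have hn2 : 2 ≤ n := nn_ge hτ k
  have hodd : Odd (9 ^ n) := Odd.pow (by decide)
  have hLQ : 3 ^ (n' - 2 - 2 * n) * 9 ^ n = 3 ^ (n' - 2) := by
    have : (9 : ℕ) = 3 ^ 2 := by norm_num
    rw [this, ← pow_mul, ← pow_add]
    congr 1; omega
  have hNR : ((3 ^ (n' - 2 - 2 * n) * 9 ^ n : ℕ) : ℝ) = 3 ^ n' / 9 := by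
    rw [hLQ]; push_cast
    have : (3 : ℝ) ^ n' = 3 ^ (n' - 2) * 3 ^ 2 := by rw [← pow_add]; congr 1; omega
    rw [this]; norm_num
  have h3n' : (0 : ℝ) < 3 ^ n' := by positivity
  have hγN : γ * ((3 ^ (n' - 2 - 2 * n) * 9 ^ n : ℕ) : ℝ) ≤ 1 / 12 := by
    rw [hNR]
    calc γ * (3 ^ n' / 9) ≤ (9 / 7 * (2 / 9) ^ n') * (3 ^ n' / 9) := by gcongr
      _ = 1 / 7 * (2 / 3) ^ n' := by
          have : (2 / 3 : ℝ) ^ n' = (2 / 9) ^ n' * 3 ^ n' := by
            rw [← mul_pow]; norm_num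
          rw [this]; ring
      _ ≤ 1 / 7 * (2 / 3) ^ 2 := by
          have : (2 / 3 : ℝ) ^ n' ≤ (2 / 3) ^ 2 :=
            pow_le_pow_of_le_one (by norm_num) (by norm_num) (by omega)
          linarith
      _ ≤ 1 / 12 := by norm_num
  have hβN : β * ((3 ^ (n' - 2 - 2 * n) * 9 ^ n : ℕ) : ℝ) ^ 2 ≤ 1 / 72 := by
    rw [hNR]
    calc β * (3 ^ n' / 9) ^ 2 ≤ (9 / 8 * (1 / 9) ^ n') * (3 ^ n' / 9) ^ 2 := by gcongr
      _ = 1 / 72 * ((1 / 9) ^ n' * (3 ^ n') ^ 2) := by ring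
      _ = 1 / 72 := by
          rw [← pow_mul, mul_comm n' 2, pow_mul, ← mul_pow]; norm_num
  have hlow := lower_bound (9 ^ n) (3 ^ (n' - 2 - 2 * n)) hodd (a : ℤ) (p : ℤ)
    (by exact_mod_cast Nat.isCoprime_iff_coprime.2 hcop) γ β hγ0 hβ0 hγN
    (hβN.trans (by norm_num))
  have hxe : num τ c = ((a : ℤ) : ℝ) / ((9 ^ n : ℕ) : ℝ) + γ := by rw [hx]; push_cast; rfl
  have hye : xi τ = ((p : ℤ) : ℝ) / ((9 ^ n : ℕ) : ℝ) + β := by rw [hy]; push_cast; rfl
  rw [← hxe, ← hye] at hlow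
  rw [hLQ] at hlow hγN hβN
  refine le_trans ?_ hlow
  have hsq : Real.sqrt ((9 ^ n : ℕ) : ℝ) = 3 ^ n := by
    have : ((9 ^ n : ℕ) : ℝ) = (3 ^ n) ^ 2 := by
      push_cast; rw [← pow_mul, mul_comm n 2, pow_mul]; norm_num
    rw [this, Real.sqrt_sq (by positivity)]
  rw [hsq]
  set N : ℝ := ((3 ^ (n' - 2) : ℕ) : ℝ) with hN
  have hpi := Real.pi_lt_d2
  have hpi0 := Real.pi_pos
  have herr : N * (2 * Real.pi * (γ * ((9 ^ n : ℕ) : ℝ) + 2 * β * N * ((9 ^ n : ℕ) : ℝ))) ≤ 9 ^ n := by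
    have e : N * (2 * Real.pi * (γ * ((9 ^ n : ℕ) : ℝ) + 2 * β * N * ((9 ^ n : ℕ) : ℝ))) =
        2 * Real.pi * (γ * N + 2 * (β * N ^ 2)) * 9 ^ n := by push_cast; ring
    rw [e]
    have h1 : γ * N + 2 * (β * N ^ 2) ≤ 1 / 12 + 2 * (1 / 72) := by linarith
    have h1' : 0 ≤ γ * N + 2 * (β * N ^ 2) := by positivity
    have h2 : 2 * Real.pi * (γ * N + 2 * (β * N ^ 2)) ≤ 1 := by nlinarith
    calc _ ≤ 1 * (9 : ℝ) ^ n := by gcongr
      _ = _ := one_mul _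
  have e1 : ((3 ^ (n' - 2 - 2 * n) : ℕ) : ℝ) * 3 ^ n = 9 * 3 ^ (n' - 4 - n) := by
    push_cast
    rw [← pow_add, show (9 : ℝ) = 3 ^ 2 by norm_num, ← pow_add]
    congr 1; omega
  have e2 : (9 : ℝ) ^ n ≤ 3 ^ (n' - 4 - n) := by
    rw [show (9 : ℝ) = 3 ^ 2 by norm_num, ← pow_mul]
    exact pow_le_pow_right₀ (by norm_num) (by omega)
  have e3 : 1 / 2 * ((3 ^ (n' - 2 - 2 * n) : ℕ) : ℝ) * 3 ^ n = 9 / 2 * 3 ^ (n' - 4 - n) := by
    rw [mul_assoc, e1]; ring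
  rw [e3]
  have e4 : (0 : ℝ) < 3 ^ (n' - 4 - n) := by positivity
  linarith

/-- the real valued growth exponent of a sequence of nonnegative reals equals `α` -/
lemma limsup_eq_of (u : ℕ → ℝ) (α : ℝ)
    (h1 : ∀ ε > 0, ∀ᶠ N in atTop, u N ≤ α + ε)
    (h2 : ∀ ε > 0, ∃ᶠ N in atTop, α - ε ≤ u N) :
    Filter.limsup u atTop = α := by
  have hbdd : Filter.IsBoundedUnder (· ≤ ·) atTop u := ⟨α + 1, h1 1 one_pos⟩
  have hcob : Filter.IsCoboundedUnder (· ≤ ·) atTop u :=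
    Filter.IsCoboundedUnder.of_frequently_ge (h2 1 one_pos)
  apply le_antisymm
  · apply le_of_forall_pos_le_add
    intro ε hε
    exact Filter.limsup_le_of_le hcob (h1 ε hε)
  · apply le_of_forall_pos_le_add
    intro ε hε
    have := Filter.le_limsup_of_frequently_le (h2 ε hε) hbdd
    linarith

lemma growth_upper {τ : ℝ} (hτ : 3 < τ) (x : ℝ) (ε : ℝ) (hε : 0 < ε) :
    ∀ᶠ N : ℕ in atTop, Real.log ‖S x (xi τ) N‖ / Real.log N ≤ (1 - 1 / τ) + ε := by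
  obtain ⟨C, hC0, hC⟩ := upper_sq hτ
  set α : ℝ := 1 - 1 / τ with hα
  have hinv : 1 / τ < 1 / 3 := one_div_lt_one_div_of_lt (by norm_num) hτ
  have hα0 : 0 < α := by rw [hα]; linarith
  have hsmall : ∀ᶠ N : ℕ in atTop, C * (1 + Real.log N) ≤ (N : ℝ) ^ (2 * ε) := by
    have h1 : (fun y : ℝ => C * (1 + Real.log y)) =o[atTop] (fun y : ℝ => y ^ (2 * ε)) := by
      apply Asymptotics.IsLittleO.const_mul_left
      apply Asymptotics.IsLittleO.add
      · exact Asymptotics.isLittleO_const_left.2 (Or.inr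
          (tendsto_norm_atTop_atTop.comp (tendsto_rpow_atTop (by positivity))))
      · exact isLittleO_log_rpow_atTop (by positivity)
    have h2 := (h1.comp_tendsto tendsto_natCast_atTop_atTop).bound one_pos
    filter_upwards [h2] with N hN
    simp only [Function.comp, one_mul, Real.norm_eq_abs] at hN
    rw [abs_of_nonneg (Real.rpow_nonneg (Nat.cast_nonneg N) _)] at hN
    exact (le_abs_self _).trans hN
  filter_upwards [hC, hsmall, eventually_ge_atTop 2] with N h1 h2 h3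
  have hN1 : (1 : ℝ) < N := by exact_mod_cast h3
  have hN0 : (0 : ℝ) < N := by linarith
  have hlog : 0 < Real.log N := Real.log_pos hN1
  rw [div_le_iff₀ hlog]
  rcases (norm_nonneg (S x (xi τ) N)).eq_or_lt with h0 | h0
  · rw [← h0, Real.log_zero]; positivity
  · have h4 : ‖S x (xi τ) N‖ ^ 2 ≤ ((N : ℝ) ^ (α + ε)) ^ 2 := by
      calc _ ≤ C * ((N : ℝ) ^ (2 * α) * (1 + Real.log N)) := h1 x
        _ = (N : ℝ) ^ (2 * α) * (C * (1 + Real.log N)) := by ring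
        _ ≤ (N : ℝ) ^ (2 * α) * (N : ℝ) ^ (2 * ε) := by gcongr
        _ = ((N : ℝ) ^ (α + ε)) ^ 2 := by
            rw [← Real.rpow_add hN0, ← Real.rpow_natCast, ← Real.rpow_mul hN0.le]
            congr 1; push_cast; ring
    have h5 : ‖S x (xi τ) N‖ ≤ (N : ℝ) ^ (α + ε) :=
      le_of_sq_le_sq h4 (by positivity)
    calc Real.log ‖S x (xi τ) N‖ ≤ Real.log ((N : ℝ) ^ (α + ε)) := Real.log_le_log h0 h5
      _ = (α + ε) * Real.log N := Real.log_rpow hN0 _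

lemma growth_lower {τ : ℝ} (hτ : 3 < τ) (c : ℕ → ℕ) (hc : ∀ k, c k ≤ 2 ^ nn τ k)
    (ε : ℝ) (hε : 0 < ε) :
    ∃ᶠ N : ℕ in atTop, (1 - 1 / τ) - ε ≤ Real.log ‖S (num τ c) (xi τ) N‖ / Real.log N := by
  have hτ0 : 0 < τ := by linarith
  have htend : Tendsto (fun k => nn τ k) atTop atTop := (nn_strictMono hτ).tendsto_atTop
  have ev1 : ∀ᶠ k in atTop, 3 * nn τ k + 4 ≤ nn τ (k + 1) := by
    have h1 : Tendsto (fun k => (τ - 3) * (nn τ k : ℝ)) atTop atTop :=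
      Tendsto.const_mul_atTop (by linarith) (tendsto_natCast_atTop_atTop.comp htend)
    filter_upwards [h1.eventually_ge_atTop 4] with k hk
    have h2 := nn_succ_ge (τ := τ) k
    have h3 : ((3 * nn τ k + 4 : ℕ) : ℝ) ≤ nn τ (k + 1) := by push_cast; linarith
    exact_mod_cast h3
  have ev2 : ∀ᶠ k in atTop, 4 / ε + 2 ≤ (nn τ (k + 1) : ℝ) :=
    (tendsto_natCast_atTop_atTop.comp (htend.comp (tendsto_add_atTop_nat 1))).eventually_ge_atTop _
  rw [Filter.frequently_atTop]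
  intro N0
  have ev3 : ∀ᶠ k in atTop, N0 ≤ k := eventually_ge_atTop N0
  obtain ⟨k, h1, h2, h3⟩ := (ev1.and (ev2.and ev3)).exists
  have hlow := lower_special hτ c hc k h1
  set n := nn τ k with hn
  set n' := nn τ (k + 1) with hn'
  have hn2 : 2 ≤ n := nn_ge hτ k
  have hnk : k ≤ n := nn_ge_self hτ k
  refine ⟨3 ^ (n' - 2), ?_, ?_⟩
  · have : n' - 2 < 3 ^ (n' - 2) := Nat.lt_pow_self (by norm_num)
    omega
  · have hlog3 : 0 < Real.log 3 := Real.log_pos (by norm_num)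
    have hn'2 : (2 : ℝ) < n' := by
      have : 2 < n' := by omega
      exact_mod_cast this
    have e1 : Real.log ((3 ^ (n' - 2) : ℕ) : ℝ) = ((n' : ℝ) - 2) * Real.log 3 := by
      push_cast
      rw [Real.log_pow, Nat.cast_sub (by omega)]
      push_cast; ring
    rw [e1, le_div_iff₀ (mul_pos (by linarith) hlog3)]
    have e2 : Real.log ((3 : ℝ) ^ (n' - 4 - n)) = ((n' : ℝ) - 4 - n) * Real.log 3 := by
      rw [Real.log_pow, Nat.cast_sub (by omega), Nat.cast_sub (by omega)]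
      push_cast; ring
    have h4 : ((n' : ℝ) - 4 - n) * Real.log 3 ≤ Real.log ‖S (num τ c) (xi τ) (3 ^ (n' - 2))‖ := by
      rw [← e2]
      exact Real.log_le_log (by positivity) hlow
    refine le_trans ?_ h4
    rw [← mul_assoc]
    apply mul_le_mul_of_nonneg_right _ hlog3.le
    have h5 : (n : ℝ) ≤ 1 / τ * n' := by
      rw [one_div, ← div_eq_inv_mul, le_div_iff₀ hτ0, mul_comm]
      exact nn_succ_ge k
    have h6 : 4 ≤ ε * (n' - 2) := by
      have h2' : 4 / ε ≤ (n' : ℝ) - 2 := by linarith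
      rw [div_le_iff₀ hε] at h2'
      linarith
    have h7 : 0 < 1 / τ := by positivity
    have h8 : 1 / τ < 1 / 3 := one_div_lt_one_div_of_lt (by norm_num) hτ
    nlinarith

/-- the growth exponent -/
lemma growth_eq {τ : ℝ} (hτ : 3 < τ) (c : ℕ → ℕ) (hc : ∀ k, c k ≤ 2 ^ nn τ k) :
    Filter.limsup (fun N : ℕ => Real.log ‖S (num τ c) (xi τ) N‖ / Real.log N) atTop =
      1 - 1 / τ :=
  limsup_eq_of _ _ (fun ε hε => growth_upper hτ _ ε hε) (fun ε hε => growth_lower hτ c hc ε hε)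

/-- the digits attached to `t` -/
noncomputable def dg (τ t : ℝ) (k : ℕ) : ℕ := ⌊(2 : ℝ) ^ nn τ k * t⌋₊

lemma dg_le {τ t : ℝ} (ht : t ∈ Set.Ico (0 : ℝ) 1) (k : ℕ) : dg τ t k ≤ 2 ^ nn τ k := by
  unfold dg
  apply Nat.floor_le_of_le
  push_cast
  have : (0 : ℝ) < 2 ^ nn τ k := by positivity
  nlinarith [ht.2.le]

/-- separation of the points attached to different parameters -/
lemma separation {τ : ℝ} (hτ : 3 < τ) {t t' : ℝ} (ht : t ∈ Set.Ico (0 : ℝ) 1)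
    (ht' : t' ∈ Set.Ico (0 : ℝ) 1) (htt : t < t') :
    t' - t ≤ 9 * (num τ (dg τ t') - num τ (dg τ t)) ^ (1 / (4 * τ)) := by
  classical
  have hτ0 : 0 < τ := by linarith
  have hex : ∃ k, dg τ t k ≠ dg τ t' k := by
    obtain ⟨m, hm⟩ := pow_unbounded_of_one_lt (1 / (t' - t)) (by norm_num : (1 : ℝ) < 2)
    refine ⟨m, ?_⟩
    have h1 : (2 : ℝ) ^ m ≤ 2 ^ nn τ m := pow_le_pow_right₀ (by norm_num) (nn_ge_self hτ m)
    have h2 : 1 < 2 ^ nn τ m * (t' - t) := by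
      have h3 : 0 < t' - t := by linarith
      rw [div_lt_iff₀ h3] at hm
      nlinarith
    unfold dg
    intro h
    have a1 := Nat.floor_le (a := (2 : ℝ) ^ nn τ m * t)
      (mul_nonneg (by positivity) ht.1)
    have a2 := Nat.lt_floor_add_one ((2 : ℝ) ^ nn τ m * t')
    rw [← h] at a2
    nlinarith
  set k := Nat.find hex with hk
  have hkne : dg τ t k ≠ dg τ t' k := Nat.find_spec hex
  have hmono : ∀ j, dg τ t j ≤ dg τ t' j := by
    intro j
    unfold dg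
    apply Nat.floor_mono
    have : (0 : ℝ) < 2 ^ nn τ j := by positivity
    nlinarith
  have hsep : (1 : ℝ) / 9 ^ nn τ k ≤ num τ (dg τ t') - num τ (dg τ t) := by
    unfold num
    rw [← (summable_c hτ _ (dg_le ht')).tsum_sub (summable_c hτ _ (dg_le ht))]
    have hs := (summable_c hτ _ (dg_le ht')).sub (summable_c hτ _ (dg_le ht))
    have hnn : ∀ j, 0 ≤ (dg τ t' j : ℝ) / 9 ^ nn τ j - (dg τ t j : ℝ) / 9 ^ nn τ j := by
      intro j
      rw [← sub_div]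
      apply div_nonneg _ (by positivity)
      have : (dg τ t j : ℝ) ≤ dg τ t' j := by exact_mod_cast hmono j
      linarith
    have h1 := hs.sum_le_tsum {k} (fun j _ => hnn j)
    rw [sum_singleton, ← sub_div] at h1
    refine le_trans ?_ h1
    apply div_le_div_of_nonneg_right _ (by positivity)
    have : dg τ t k + 1 ≤ dg τ t' k := by
      have := hmono k
      omega
    have : (dg τ t k : ℝ) + 1 ≤ dg τ t' k := by exact_mod_cast this
    linarith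
  have hr0 : 0 < 1 / (4 * τ) := by positivity
  have hpow : ((1 : ℝ) / 9 ^ nn τ k) ^ (1 / (4 * τ)) ≤
      (num τ (dg τ t') - num τ (dg τ t)) ^ (1 / (4 * τ)) :=
    Real.rpow_le_rpow (by positivity) hsep hr0.le
  have hexp : ∀ y : ℝ, ((1 : ℝ) / 9 ^ nn τ k) ^ (1 / (4 * τ)) =
      (9 : ℝ) ^ (-((nn τ k : ℝ) * (1 / (4 * τ)))) := by
    intro _
    rw [one_div, ← Real.rpow_natCast, ← Real.rpow_neg (by norm_num), ← Real.rpow_mul (by norm_num)]
    congr 1; ring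
  rw [hexp 0] at hpow
  rcases Nat.eq_zero_or_pos k with hk0 | hk0
  · -- `k = 0`
    have h1 : (9 : ℝ) ^ (-1 : ℝ) ≤ (9 : ℝ) ^ (-((nn τ k : ℝ) * (1 / (4 * τ)))) := by
      apply Real.rpow_le_rpow_of_exponent_le (by norm_num)
      rw [hk0]
      simp only [nn]
      rw [neg_le_neg_iff]
      push_cast
      rw [mul_one_div, div_le_one (by positivity)]
      linarith
    rw [Real.rpow_neg_one] at h1
    have h2 := ht.1
    have h3 := ht'.2
    have h4 : (9 : ℝ)⁻¹ ≤ (num τ (dg τ t') - num τ (dg τ t)) ^ (1 / (4 * τ)) := h1.trans hpow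
    have h5 : (9 : ℝ) * 9⁻¹ ≤ 9 * (num τ (dg τ t') - num τ (dg τ t)) ^ (1 / (4 * τ)) := by
      gcongr
    norm_num at h5
    linarith
  · obtain ⟨k', hk'⟩ : ∃ k', k = k' + 1 := ⟨k - 1, by omega⟩
    have heq : dg τ t k' = dg τ t' k' := by
      have := Nat.find_min hex (m := k') (by omega)
      push Not at this
      exact this
    have hclose : t' - t ≤ (2 : ℝ) ^ (-(nn τ k' : ℝ)) := by
      unfold dg at heq
      have a1 := Nat.floor_le (a := (2 : ℝ) ^ nn τ k' * t)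
        (mul_nonneg (by positivity) ht.1)
      have a2 := Nat.lt_floor_add_one ((2 : ℝ) ^ nn τ k' * t')
      rw [← heq] at a2
      rw [Real.rpow_neg (by norm_num), Real.rpow_natCast, ← one_div,
        le_div_iff₀ (by positivity)]
      nlinarith
    have h1 : (9 : ℝ) ^ (-1 : ℝ) * (2 : ℝ) ^ (-(nn τ k' : ℝ)) ≤
        (9 : ℝ) ^ (-((nn τ k : ℝ) * (1 / (4 * τ)))) := by
      have h2 : (2 : ℝ) ^ (-(nn τ k' : ℝ)) ≤ (9 : ℝ) ^ (-((nn τ k' : ℝ) / 4)) := by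
        have : (9 : ℝ) ^ (-((nn τ k' : ℝ) / 4)) = ((9 : ℝ) ^ (1 / 4 : ℝ)) ^ (-(nn τ k' : ℝ)) := by
          rw [← Real.rpow_mul (by norm_num)]; congr 1; ring
        rw [this]
        apply Real.rpow_le_rpow_of_nonpos (by positivity)
        · have h3 : (9 : ℝ) ^ (1 / 4 : ℝ) ≤ (16 : ℝ) ^ (1 / 4 : ℝ) :=
            Real.rpow_le_rpow (by norm_num) (by norm_num) (by norm_num)
          have h4 : (16 : ℝ) ^ (1 / 4 : ℝ) = 2 := by
            rw [show (16 : ℝ) = 2 ^ (4 : ℝ) by norm_num, ← Real.rpow_mul (by norm_num)]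
            norm_num
          linarith
        · simp
      calc (9 : ℝ) ^ (-1 : ℝ) * (2 : ℝ) ^ (-(nn τ k' : ℝ))
          ≤ (9 : ℝ) ^ (-1 : ℝ) * (9 : ℝ) ^ (-((nn τ k' : ℝ) / 4)) := by gcongr
        _ = (9 : ℝ) ^ (-1 + -((nn τ k' : ℝ) / 4)) := (Real.rpow_add (by norm_num) _ _).symm
        _ ≤ (9 : ℝ) ^ (-((nn τ k : ℝ) * (1 / (4 * τ)))) := by
            apply Real.rpow_le_rpow_of_exponent_le (by norm_num)
            have h5 := (nn_succ_lt hτ k').le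
            rw [← hk'] at h5
            have h6 : (nn τ k : ℝ) * (1 / (4 * τ)) ≤ (τ * nn τ k' + 1) * (1 / (4 * τ)) := by
              gcongr
            have h7 : (τ * nn τ k' + 1) * (1 / (4 * τ)) = (nn τ k' : ℝ) / 4 + 1 / (4 * τ) := by
              field_simp
            have h8 : 1 / (4 * τ) ≤ 1 := by
              rw [div_le_one (by positivity)]; linarith
            linarith
    have h2 : (9 : ℝ) * ((9 : ℝ) ^ (-1 : ℝ) * (2 : ℝ) ^ (-(nn τ k' : ℝ))) ≤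
        9 * (num τ (dg τ t') - num τ (dg τ t)) ^ (1 / (4 * τ)) := by
      have := h1.trans hpow
      gcongr
    have h9 : (9 : ℝ) * ((9 : ℝ) ^ (-1 : ℝ) * (2 : ℝ) ^ (-(nn τ k' : ℝ))) =
        (2 : ℝ) ^ (-(nn τ k' : ℝ)) := by
      rw [Real.rpow_neg_one, ← mul_assoc, mul_inv_cancel₀ (by norm_num), one_mul]
    rw [h9] at h2
    exact hclose.trans h2

end Pool.Agent.W22.MF
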