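import Pool.Agent.W89.PW.Defs

/-! PW-3: the fourth moment, `b * m4 ≤ 24 / 25`. -/

set_option autoImplicit false

namespace Pool.Agent.W22.PWM4

open Finset PowerSeries Pool.Agent.W89.PW

/-- `1 + X + … + X^(n-1)` -/
noncomputable def P (n : ℕ) : ℚ⟦X⟧ := ∑ i ∈ range n, X ^ i

/-- `(1 - X)^(-8)` -/
noncomputable def g : ℚ⟦X⟧ := mk fun n => (Nat.choose (7 + n) 7 : ℚ)

theorem g_mul : g * (1 - X) ^ 8 = 1 := mk_add_choose_mul_one_sub_pow_eq_one ℚ 7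

theorem P_mul (n : ℕ) : P n * (1 - X) = 1 - X ^ n := geom_sum_mul_neg X n

/-- `w2` as a coefficient -/
theorem coeff_W (s t z : ℕ) : coeff z (P s ^ 2 * P t ^ 2) = (w2 s t z : ℚ) := by
  have h1 : ∀ n, P n ^ 2 = ∑ p ∈ range n ×ˢ range n, (X : ℚ⟦X⟧) ^ (p.1 + p.2) := by
    intro n
    rw [sq, P, Finset.sum_mul_sum, Finset.sum_product]
    refine Finset.sum_congr rfl fun i _ => Finset.sum_congr rfl fun j _ => ?_
    rw [pow_add]
  rw [h1, h1, Finset.sum_mul_sum, ← Finset.sum_product', map_sum]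
  unfold w2
  rw [Finset.card_filter]
  push_cast
  refine Finset.sum_congr rfl fun p _ => ?_
  rw [← pow_add, coeff_X_pow]
  by_cases h : p.1.1 + p.1.2 + (p.2.1 + p.2.2) = z
  · rw [if_pos h, if_pos h.symm]
  · rw [if_neg h, if_neg (fun h' => h h'.symm)]

/-- symmetry of `w2` -/
theorem w2_symm {s t z : ℕ} (hs : 1 ≤ s) (ht : 1 ≤ t) (hz : z ≤ 2 * (s - 1) + 2 * (t - 1)) :
    w2 s t z = w2 s t (2 * (s - 1) + 2 * (t - 1) - z) := by
  unfold w2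
  refine Finset.card_nbij' (fun p => ((s - 1 - p.1.1, s - 1 - p.1.2), (t - 1 - p.2.1, t - 1 - p.2.2)))
    (fun p => ((s - 1 - p.1.1, s - 1 - p.1.2), (t - 1 - p.2.1, t - 1 - p.2.2))) ?_ ?_ ?_ ?_
  · rintro ⟨⟨a, b⟩, ⟨c, d⟩⟩ h
    simp only [Finset.coe_filter, Finset.mem_product, Finset.mem_range, Set.mem_ofPred_eq] at h ⊢
    omega
  · rintro ⟨⟨a, b⟩, ⟨c, d⟩⟩ h
    simp only [Finset.coe_filter, Finset.mem_product, Finset.mem_range, Set.mem_ofPred_eq] at h ⊢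
    omega
  · rintro ⟨⟨a, b⟩, ⟨c, d⟩⟩ h
    simp only [Finset.coe_filter, Finset.mem_product, Finset.mem_range, Set.mem_ofPred_eq] at h
    simp only [Prod.mk.injEq]
    omega
  · rintro ⟨⟨a, b⟩, ⟨c, d⟩⟩ h
    simp only [Finset.coe_filter, Finset.mem_product, Finset.mem_range, Set.mem_ofPred_eq] at h
    simp only [Prod.mk.injEq]
    omega

theorem w2_zero {s t z : ℕ} (hz : 2 * (s - 1) + 2 * (t - 1) < z) : w2 s t z = 0 := by
  unfold w2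
  rw [Finset.card_eq_zero, Finset.filter_eq_empty_iff]
  rintro ⟨⟨a, b⟩, ⟨c, d⟩⟩ h
  simp only [Finset.mem_product, Finset.mem_range] at h ⊢
  omega

theorem sum_sq {s t : ℕ} (hs : 1 ≤ s) (ht : 1 ≤ t) :
    (∑ z ∈ range (2 * (s + t)), (w2 s t z : ℚ) ^ 2) =
      coeff (2 * (s - 1) + 2 * (t - 1)) (g * ((1 - X ^ s) ^ 4 * (1 - X ^ t) ^ 4)) := by
  have h1 : g * ((1 - X ^ s) ^ 4 * (1 - X ^ t) ^ 4) =
      (P s ^ 2 * P t ^ 2) * (P s ^ 2 * P t ^ 2) := by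
    rw [← P_mul, ← P_mul]
    linear_combination (P s ^ 4 * P t ^ 4) * g_mul
  rw [h1, coeff_mul, Finset.Nat.sum_antidiagonal_eq_sum_range_succ_mk]
  simp only [coeff_W]
  rw [← Finset.sum_subset (s₁ := range (2 * (s - 1) + 2 * (t - 1)).succ)]
  · refine Finset.sum_congr rfl fun z hz => ?_
    rw [Finset.mem_range] at hz
    rw [← w2_symm hs ht (by omega), sq]
  · intro z hz
    rw [Finset.mem_range] at hz ⊢
    omega
  · intro z _ hz
    rw [Finset.mem_range] at hz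
    rw [w2_zero (by omega)]
    simp

theorem coeff_g {D e : ℕ} (h : e ≤ D + 7) : coeff D (g * X ^ e) = ((D + 7 - e).choose 7 : ℚ) := by
  rw [mul_comm, coeff_X_pow_mul']
  split_ifs with h1
  · rw [g, coeff_mk]
    congr 2
    omega
  · rw [Nat.choose_eq_zero_of_lt (by omega)]
    simp

theorem coeff_g0 {D e : ℕ} (h : D < e) : coeff D (g * X ^ e) = 0 := by
  rw [mul_comm, coeff_X_pow_mul', if_neg (by omega)]

theorem desc_succ (n k : ℕ) : ((n.descFactorial (k + 1) : ℕ) : ℚ) = (n - k) * n.descFactorial k := by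
  rw [Nat.descFactorial_succ]
  by_cases h : k ≤ n
  · rw [Nat.cast_mul, Nat.cast_sub h]
  · rw [Nat.descFactorial_of_lt (by omega : n < k)]
    simp

theorem choose7 (n : ℕ) : (n.choose 7 : ℚ) =
    n * (n - 1) * (n - 2) * (n - 3) * (n - 4) * (n - 5) * (n - 6) / 5040 := by
  have h : ((n.descFactorial 7 : ℕ) : ℚ) = 5040 * n.choose 7 := by
    rw [Nat.descFactorial_eq_factorial_mul_choose]
    push_cast
    norm_num [Nat.factorial]
  have h2 : ((n.descFactorial 7 : ℕ) : ℚ) =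
      n * (n - 1) * (n - 2) * (n - 3) * (n - 4) * (n - 5) * (n - 6) := by
    simp only [desc_succ, Nat.descFactorial_zero]
    push_cast
    ring
  rw [← h2, h]
  ring

/-- the case `s = t` -/
theorem sum_odd {s : ℕ} (hs : 2 ≤ s) :
    (∑ z ∈ range (2 * (s + s)), (w2 s s z : ℚ) ^ 2) * 315 =
      151 * (s : ℚ) ^ 7 + 70 * s ^ 5 + 49 * s ^ 3 + 45 * s := by
  rw [sum_sq (by omega) (by omega)]
  set D := 2 * (s - 1) + 2 * (s - 1) with hD
  have e : g * ((1 - (X : ℚ⟦X⟧) ^ s) ^ 4 * (1 - X ^ s) ^ 4) =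
      g * X ^ 0 - C 8 * (g * X ^ s) + C 28 * (g * X ^ (2 * s)) - C 56 * (g * X ^ (3 * s))
      + C 70 * (g * X ^ (4 * s)) - C 56 * (g * X ^ (5 * s)) + C 28 * (g * X ^ (6 * s))
      - C 8 * (g * X ^ (7 * s)) + g * X ^ (8 * s) := by
    have c8 : (C (8 : ℚ) : ℚ⟦X⟧) = 8 := map_ofNat C 8
    have c28 : (C (28 : ℚ) : ℚ⟦X⟧) = 28 := map_ofNat C 28
    have c56 : (C (56 : ℚ) : ℚ⟦X⟧) = 56 := map_ofNat C 56
    have c70 : (C (70 : ℚ) : ℚ⟦X⟧) = 70 := map_ofNat C 70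
    rw [c8, c28, c56, c70]
    ring
  rw [e]
  simp only [map_add, map_sub, coeff_C_mul]
  rw [coeff_g (by omega : 0 ≤ D + 7), coeff_g (by omega : s ≤ D + 7),
    coeff_g (by omega : 2 * s ≤ D + 7), coeff_g (by omega : 3 * s ≤ D + 7),
    coeff_g0 (by omega : D < 4 * s), coeff_g0 (by omega : D < 5 * s),
    coeff_g0 (by omega : D < 6 * s), coeff_g0 (by omega : D < 7 * s),
    coeff_g0 (by omega : D < 8 * s)]
  simp only [choose7]
  have k0 : ((D + 7 - 0 : ℕ) : ℚ) = 4 * s + 3 := by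
    rw [show D + 7 - 0 = 4 * s + 3 by omega]; push_cast; ring
  have k1 : ((D + 7 - s : ℕ) : ℚ) = 3 * s + 3 := by
    rw [show D + 7 - s = 3 * s + 3 by omega]; push_cast; ring
  have k2 : ((D + 7 - 2 * s : ℕ) : ℚ) = 2 * s + 3 := by
    rw [show D + 7 - 2 * s = 2 * s + 3 by omega]; push_cast; ring
  have k3 : ((D + 7 - 3 * s : ℕ) : ℚ) = s + 3 := by
    rw [show D + 7 - 3 * s = s + 3 by omega]; push_cast; ring
  rw [k0, k1, k2, k3]
  ring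

/-- the case `t = s + 1` -/
theorem sum_even {s : ℕ} (hs : 2 ≤ s) :
    (∑ z ∈ range (2 * (s + (s + 1))), (w2 s (s + 1) z : ℚ) ^ 2) * 315 =
      151 * (s : ℚ) ^ 7 + 1057 / 2 * s ^ 6 + 1379 / 2 * s ^ 5 + 805 / 2 * s ^ 4 + 203 / 2 * s ^ 3
        + 14 * s ^ 2 + 3 * s := by
  rw [sum_sq (by omega) (by omega)]
  set D := 2 * (s - 1) + 2 * (s + 1 - 1) with hD
  have e : g * ((1 - (X : ℚ⟦X⟧) ^ s) ^ 4 * (1 - X ^ (s + 1)) ^ 4) =
      0 + C 1 * (g * X ^ (0 * s + 0)) - C 4 * (g * X ^ (1 * s + 1)) + C 6 * (g * X ^ (2 * s + 2)) - C 4 * (g * X ^ (3 * s + 3)) + C 1 * (g * X ^ (4 * s + 4)) - C 4 * (g * X ^ (1 * s + 0)) + C 16 * (g * X ^ (2 * s + 1)) - C 24 * (g * X ^ (3 * s + 2)) + C 16 * (g * X ^ (4 * s + 3)) - C 4 * (g * X ^ (5 * s + 4)) + C 6 * (g * X ^ (2 * s + 0)) - C 24 * (g * X ^ (3 * s + 1)) + C 36 * (g * X ^ (4 * s + 2)) - C 24 * (g * X ^ (5 * s + 3)) + C 6 * (g * X ^ (6 *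 s + 4)) - C 4 * (g * X ^ (3 * s + 0)) + C 16 * (g * X ^ (4 * s + 1)) - C 24 * (g * X ^ (5 * s + 2)) + C 16 * (g * X ^ (6 * s + 3)) - C 4 * (g * X ^ (7 * s + 4)) + C 1 * (g * X ^ (4 * s + 0)) - C 4 * (g * X ^ (5 * s + 1)) + C 6 * (g * X ^ (6 * s + 2)) - C 4 * (g * X ^ (7 * s + 3)) + C 1 * (g * X ^ (8 * s + 4)) := by
    have c1 : (C (1 : ℚ) : ℚ⟦X⟧) = 1 := map_one C
    have c4 : (C (4 : ℚ) : ℚ⟦X⟧) = 4 := map_ofNat C 4
    have c6 : (C (6 : ℚ) : ℚ⟦X⟧) = 6 := map_ofNat C 6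
    have c16 : (C (16 : ℚ) : ℚ⟦X⟧) = 16 := map_ofNat C 16
    have c24 : (C (24 : ℚ) : ℚ⟦X⟧) = 24 := map_ofNat C 24
    have c36 : (C (36 : ℚ) : ℚ⟦X⟧) = 36 := map_ofNat C 36
    rw [c1, c4, c6, c16, c24, c36]
    ring
  rw [e]
  simp only [map_add, map_sub, map_zero, coeff_C_mul]
  rw [coeff_g (by omega : 0 * s + 0 ≤ D + 7),
    coeff_g (by omega : 1 * s + 0 ≤ D + 7),
    coeff_g (by omega : 1 * s + 1 ≤ D + 7),
    coeff_g (by omega : 2 * s + 0 ≤ D + 7),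
    coeff_g (by omega : 2 * s + 1 ≤ D + 7),
    coeff_g (by omega : 2 * s + 2 ≤ D + 7),
    coeff_g (by omega : 3 * s + 0 ≤ D + 7),
    coeff_g (by omega : 3 * s + 1 ≤ D + 7),
    coeff_g (by omega : 3 * s + 2 ≤ D + 7),
    coeff_g (by omega : 3 * s + 3 ≤ D + 7),
    coeff_g0 (by omega : D < 4 * s + 0),
    coeff_g0 (by omega : D < 4 * s + 1),
    coeff_g0 (by omega : D < 4 * s + 2),
    coeff_g0 (by omega : D < 4 * s + 3),
    coeff_g0 (by omega : D < 4 * s + 4),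
    coeff_g0 (by omega : D < 5 * s + 1),
    coeff_g0 (by omega : D < 5 * s + 2),
    coeff_g0 (by omega : D < 5 * s + 3),
    coeff_g0 (by omega : D < 5 * s + 4),
    coeff_g0 (by omega : D < 6 * s + 2),
    coeff_g0 (by omega : D < 6 * s + 3),
    coeff_g0 (by omega : D < 6 * s + 4),
    coeff_g0 (by omega : D < 7 * s + 3),
    coeff_g0 (by omega : D < 7 * s + 4),
    coeff_g0 (by omega : D < 8 * s + 4)]
  simp only [choose7]
  have k00 : ((D + 7 - (0 * s + 0) : ℕ) : ℚ) = 4 * s + 5 := by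
    rw [show D + 7 - (0 * s + 0) = 4 * s + 5 by omega]; push_cast; ring
  have k10 : ((D + 7 - (1 * s + 0) : ℕ) : ℚ) = 3 * s + 5 := by
    rw [show D + 7 - (1 * s + 0) = 3 * s + 5 by omega]; push_cast; ring
  have k11 : ((D + 7 - (1 * s + 1) : ℕ) : ℚ) = 3 * s + 4 := by
    rw [show D + 7 - (1 * s + 1) = 3 * s + 4 by omega]; push_cast; ring
  have k20 : ((D + 7 - (2 * s + 0) : ℕ) : ℚ) = 2 * s + 5 := by
    rw [show D + 7 - (2 * s + 0) = 2 * s + 5 by omega]; push_cast; ring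
  have k21 : ((D + 7 - (2 * s + 1) : ℕ) : ℚ) = 2 * s + 4 := by
    rw [show D + 7 - (2 * s + 1) = 2 * s + 4 by omega]; push_cast; ring
  have k22 : ((D + 7 - (2 * s + 2) : ℕ) : ℚ) = 2 * s + 3 := by
    rw [show D + 7 - (2 * s + 2) = 2 * s + 3 by omega]; push_cast; ring
  have k30 : ((D + 7 - (3 * s + 0) : ℕ) : ℚ) = 1 * s + 5 := by
    rw [show D + 7 - (3 * s + 0) = 1 * s + 5 by omega]; push_cast; ring
  have k31 : ((D + 7 - (3 * s + 1) : ℕ) : ℚ) = 1 * s + 4 := by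
    rw [show D + 7 - (3 * s + 1) = 1 * s + 4 by omega]; push_cast; ring
  have k32 : ((D + 7 - (3 * s + 2) : ℕ) : ℚ) = 1 * s + 3 := by
    rw [show D + 7 - (3 * s + 2) = 1 * s + 3 by omega]; push_cast; ring
  have k33 : ((D + 7 - (3 * s + 3) : ℕ) : ℚ) = 1 * s + 2 := by
    rw [show D + 7 - (3 * s + 3) = 1 * s + 2 by omega]; push_cast; ring
  rw [k00, k10, k11, k20, k21, k22, k30, k31, k32, k33]
  ring

/-- **PW-3** -/
theorem main : TaskM4 := by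
  intro b hb
  rcases Nat.even_or_odd' b with ⟨s, rfl | rfl⟩
  · rw [show (2 * s + 1) / 2 = s by omega, show 2 * s + 1 - s = s + 1 by omega]
    have h := sum_even (s := s) (by omega)
    have h' : (∑ z ∈ range (2 * (s + (s + 1))), (w2 s (s + 1) z : ℚ) ^ 2) * 630 =
      302 * (s : ℚ) ^ 7 + 1057 * s ^ 6 + 1379 * s ^ 5 + 805 * s ^ 4 + 203 * s ^ 3
        + 28 * s ^ 2 + 6 * s := by linear_combination 2 * h
    have hR' : (∑ z ∈ range (2 * (s + (s + 1))), (w2 s (s + 1) z : ℝ) ^ 2) * 630 =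
      302 * (s : ℝ) ^ 7 + 1057 * s ^ 6 + 1379 * s ^ 5 + 805 * s ^ 4 + 203 * s ^ 3
        + 28 * s ^ 2 + 6 * s := by exact_mod_cast h'
    have hR : (∑ z ∈ range (2 * (s + (s + 1))), (w2 s (s + 1) z : ℝ) ^ 2) * 315 =
      151 * (s : ℝ) ^ 7 + 1057 / 2 * s ^ 6 + 1379 / 2 * s ^ 5 + 805 / 2 * s ^ 4 + 203 / 2 * s ^ 3
        + 14 * s ^ 2 + 3 * s := by linear_combination hR' / 2
    unfold m4
    set S := ∑ z ∈ range (2 * (s + (s + 1))), (w2 s (s + 1) z : ℝ) ^ 2 with hS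
    obtain ⟨u, rfl⟩ : ∃ u, s = u + 2 := ⟨s - 2, by omega⟩
    push_cast at hR ⊢
    have hu : (0 : ℝ) ≤ u := Nat.cast_nonneg u
    rw [← mul_div_assoc, div_le_div_iff₀ (by positivity) (by norm_num)]
    have key : 24 * (((u : ℝ) + 2) * (u + 2 + 1)) ^ 4 * 315 - 2 * (u + 2) * (S * 315) * 25 =
        1544760 + 4689000 * u + 6058490 * u ^ 2 + 4319700 * u ^ 3 + 1836135 * u ^ 4 +
          465675 * u ^ 5 + 65415 * u ^ 6 + 3975 * u ^ 7 + 10 * u ^ 8 := by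
      rw [hR]; ring
    have hpos : (0 : ℝ) ≤ 1544760 + 4689000 * u + 6058490 * u ^ 2 + 4319700 * u ^ 3 +
        1836135 * u ^ 4 + 465675 * u ^ 5 + 65415 * u ^ 6 + 3975 * u ^ 7 + 10 * u ^ 8 := by
      positivity
    linarith
  · rw [show (2 * s + 1 + 1) / 2 = s + 1 by omega, show 2 * s + 1 + 1 - (s + 1) = s + 1 by omega]
    have h := sum_odd (s := s + 1) (by omega)
    have hR : (∑ z ∈ range (2 * (s + 1 + (s + 1))), (w2 (s + 1) (s + 1) z : ℝ) ^ 2) * 315 =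
      151 * ((s + 1 : ℕ) : ℝ) ^ 7 + 70 * ((s + 1 : ℕ) : ℝ) ^ 5 + 49 * ((s + 1 : ℕ) : ℝ) ^ 3
        + 45 * ((s + 1 : ℕ) : ℝ) := by exact_mod_cast h
    unfold m4
    set S := ∑ z ∈ range (2 * (s + 1 + (s + 1))), (w2 (s + 1) (s + 1) z : ℝ) ^ 2 with hS
    obtain ⟨u, rfl⟩ : ∃ u, s = u + 1 := ⟨s - 1, by omega⟩
    push_cast at hR ⊢
    have hu : (0 : ℝ) ≤ u := Nat.cast_nonneg u
    rw [← mul_div_assoc, div_le_div_iff₀ (by positivity) (by norm_num)]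
    have key : 24 * (((u : ℝ) + 1 + 1) * (u + 1 + 1)) ^ 4 * 315 -
        (2 * (u + 1) + 1) * (S * 315) * 25 =
        281610 + 1097865 * u + 1801020 * u ^ 2 + 1623545 * u ^ 3 + 873250 * u ^ 4 +
          281330 * u ^ 5 + 50470 * u ^ 6 + 3935 * u ^ 7 + 10 * u ^ 8 := by
      rw [hR]; ring
    have hpos : (0 : ℝ) ≤ 281610 + 1097865 * u + 1801020 * u ^ 2 + 1623545 * u ^ 3 +
        873250 * u ^ 4 + 281330 * u ^ 5 + 50470 * u ^ 6 + 3935 * u ^ 7 + 10 * u ^ 8 := by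
      positivity
    linarith

end Pool.Agent.W22.PWM4
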