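import Mathlib

/-! Jordan basis of a nilpotent endomorphism made of chains of eigenvectors of a commuting
endomorphism of finite order. -/

set_option autoImplicit false
open Finset

namespace Pool.Agent.W22.Jord559

variable {k V : Type*} [Field k] [AddCommGroup V] [Module k V]

/-- the projection on the `ω ^ i` eigenspace -/
noncomputable def e (h : V →ₗ[k] V) (ω : k) (m i : ℕ) : V →ₗ[k] V :=
  (m : k)⁻¹ • ∑ j ∈ range m, (ω ^ (i * j))⁻¹ • h ^ j

theorem e_apply (h : V →ₗ[k] V) (ω : k) (m i : ℕ) (x : V) :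
    e h ω m i x = (m : k)⁻¹ • ∑ j ∈ range m, (ω ^ (i * j))⁻¹ • (h ^ j) x := by
  simp [e, LinearMap.sum_apply]

theorem e_comm {h N : V →ₗ[k] V} (hc : N * h = h * N) (ω : k) (m i : ℕ) (x : V) :
    N (e h ω m i x) = e h ω m i (N x) := by
  rw [e_apply, e_apply, map_smul, map_sum]
  congr 1
  refine Finset.sum_congr rfl fun j _ => ?_
  rw [map_smul]
  congr 1
  have : Commute N (h ^ j) := Commute.pow_right hc j
  exact congrArg (fun f => f x) this

theorem e_mem {h : V →ₗ[k] V} {W : Submodule k V} (hW : W ≤ W.comap h) (ω : k) (m i : ℕ) {x : V}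
    (hx : x ∈ W) : e h ω m i x ∈ W := by
  have hp : ∀ j, (h ^ j) x ∈ W := by
    intro j
    induction j with
    | zero => simpa using hx
    | succ j ih =>
      rw [pow_succ']
      exact hW ih
  rw [e_apply]
  exact W.smul_mem _ (W.sum_mem fun j _ => W.smul_mem _ (hp j))

theorem e_of_eigen {h : V →ₗ[k] V} {ω : k} (hω0 : ω ≠ 0) {m : ℕ} (hm : (m : k) ≠ 0) {i : ℕ} {x : V}
    (hx : h x = ω ^ i • x) : e h ω m i x = x := by
  have hp : ∀ j, (h ^ j) x = ω ^ (i * j) • x := by
    intro j
    induction j with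
    | zero => simp
    | succ j ih =>
      rw [pow_succ', Module.End.mul_apply, ih, map_smul, hx, smul_smul, ← pow_add]
      congr 2
  rw [e_apply]
  have : ∀ j ∈ range m, (ω ^ (i * j))⁻¹ • (h ^ j) x = x := by
    intro j _
    rw [hp, smul_smul, inv_mul_cancel₀ (pow_ne_zero _ hω0), one_smul]
  rw [Finset.sum_congr rfl this, Finset.sum_const, Finset.card_range, ← Nat.cast_smul_eq_nsmul k,
    smul_smul, inv_mul_cancel₀ hm, one_smul]

theorem h_e {h : V →ₗ[k] V} {ω : k} (hω0 : ω ≠ 0) {m : ℕ} (hωm : ω ^ m = 1) (hh : h ^ m = 1)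
    (i : ℕ) (x : V) : h (e h ω m i x) = ω ^ i • e h ω m i x := by
  rw [e_apply, map_smul, map_sum, smul_comm]
  congr 1
  have h1 : ∀ j ∈ range m, h ((ω ^ (i * j))⁻¹ • (h ^ j) x)
      = ω ^ i • ((ω ^ (i * (j + 1)))⁻¹ • (h ^ (j + 1)) x) := by
    intro j _
    rw [map_smul, smul_smul, pow_succ' h, Module.End.mul_apply]
    congr 1
    rw [mul_add, mul_one, pow_add, mul_inv, mul_comm ((ω ^ (i * j))⁻¹), ← mul_assoc,
      mul_inv_cancel₀ (pow_ne_zero _ hω0), one_mul]
  rw [Finset.sum_congr rfl h1, ← Finset.smul_sum]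
  congr 1
  have h2 := Finset.sum_range_succ (fun j => (ω ^ (i * j))⁻¹ • (h ^ j) x) m
  have h3 := Finset.sum_range_succ' (fun j => (ω ^ (i * j))⁻¹ • (h ^ j) x) m
  have h4 : (ω ^ (i * m))⁻¹ • (h ^ m) x = (ω ^ (i * 0))⁻¹ • (h ^ 0) x := by
    rw [hh, mul_comm i m, pow_mul, hωm]
    simp
  rw [h2, h4] at h3
  exact (add_right_cancel h3).symm

theorem sum_e {h : V →ₗ[k] V} {ω : k} {m : ℕ} (hm : (m : k) ≠ 0) (hω : IsPrimitiveRoot ω m)
    (x : V) : ∑ i ∈ range m, e h ω m i x = x := by
  have hm0 : 0 < m := Nat.pos_of_ne_zero (by rintro rfl; simp at hm)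
  have hω0 : ω ≠ 0 := hω.ne_zero hm0.ne'
  simp_rw [e_apply]
  rw [← Finset.smul_sum, Finset.sum_comm]
  simp_rw [← Finset.sum_smul]
  have h1 : ∀ j ∈ range m, (∑ i ∈ range m, (ω ^ (i * j))⁻¹) • (h ^ j) x
      = if j = 0 then (m : k) • x else 0 := by
    intro j hj
    have hj' := Finset.mem_range.1 hj
    split_ifs with h0
    · subst h0
      simp
    · have h2 : ∑ i ∈ range m, (ω ^ (i * j))⁻¹ = ∑ i ∈ range m, ((ω ^ j)⁻¹) ^ i := by
        refine Finset.sum_congr rfl fun i _ => ?_
        rw [inv_pow, ← pow_mul, mul_comm]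
      have h3 : (ω ^ j)⁻¹ ≠ 1 := by
        intro h4
        have h5 : ω ^ j = 1 := inv_eq_one.1 h4
        have := (hω.pow_eq_one_iff_dvd j).1 h5
        exact h0 (Nat.eq_zero_of_dvd_of_lt this hj')
      have h4 : ∑ i ∈ range m, ((ω ^ j)⁻¹) ^ i = 0 := by
        have h5 := mul_geom_sum ((ω ^ j)⁻¹) m
        have h6 : ((ω ^ j)⁻¹) ^ m = 1 := by
          rw [inv_pow, ← pow_mul, mul_comm j m, pow_mul, hω.pow_eq_one, one_pow, inv_one]
        rw [h6, sub_self] at h5
        rcases mul_eq_zero.1 h5 with h7 | h7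
        · exact absurd (sub_eq_zero.1 h7) h3
        · exact h7
      rw [h2, h4, zero_smul]
  rw [Finset.sum_congr rfl h1, Finset.sum_ite_eq' (range m) 0 (fun _ => (m : k) • x),
    if_pos (Finset.mem_range.2 hm0), smul_smul, inv_mul_cancel₀ hm, one_smul]

/-- the finrank of a submodule is the sum of those of its image and of its part in the kernel -/
theorem finrank_map_add [FiniteDimensional k V] (N : V →ₗ[k] V) (W : Submodule k V) :
    Module.finrank k (W.map N) + Module.finrank k (W ⊓ LinearMap.ker N : Submodule k V)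
      = Module.finrank k W := by
  have h1 := LinearMap.finrank_range_add_finrank_ker (N.domRestrict W)
  have h2 : LinearMap.range (N.domRestrict W) = W.map N := by
    rw [LinearMap.domRestrict, LinearMap.range_comp, Submodule.range_subtype]
  have h3 : Module.finrank k (LinearMap.ker (N.domRestrict W))
      = Module.finrank k (W ⊓ LinearMap.ker N : Submodule k V) := by
    have h4 : (LinearMap.ker (N.domRestrict W)).map W.subtype = W ⊓ LinearMap.ker N := by
      ext x
      simp only [Submodule.mem_map, LinearMap.mem_ker, Submodule.mem_inf, Submodule.subtype_apply,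
        LinearMap.domRestrict_apply]
      constructor
      · rintro ⟨y, hy, rfl⟩
        exact ⟨y.2, hy⟩
      · rintro ⟨hx, hx'⟩
        exact ⟨⟨x, hx⟩, hx', rfl⟩
    rw [← h4]
    exact (Submodule.finrank_map_subtype_eq _ _).symm
  rw [h2, h3] at h1
  exact h1

theorem aux [FiniteDimensional k V] {N h : V →ₗ[k] V} (hcomm : N * h = h * N) {q : ℕ}
    (hN : N ^ q = 0) {m : ℕ} (hm : (m : k) ≠ 0) {ω : k} (hω : IsPrimitiveRoot ω m)
    (hh : h ^ m = 1) : ∀ (d : ℕ) (W : Submodule k V), Module.finrank k W ≤ d →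
      W ≤ W.comap N → W ≤ W.comap h →
    ∃ (β : Type) (_ : Fintype β) (l χ : β → ℕ) (Y : β → V),
      (∀ b, 0 < l b) ∧ (∀ b, h (Y b) = ω ^ χ b • Y b) ∧ (∀ b, (N ^ l b) (Y b) = 0) ∧
      LinearIndependent k (fun p : Σ b, Fin (l b) => (N ^ (p.2 : ℕ)) (Y p.1)) ∧
      Submodule.span k (Set.range (fun p : Σ b, Fin (l b) => (N ^ (p.2 : ℕ)) (Y p.1))) = W := by
  have hm0 : 0 < m := Nat.pos_of_ne_zero (by rintro rfl; simp at hm)
  have hω0 : ω ≠ 0 := hω.ne_zero hm0.ne'
  intro d
  induction d with
  | zero =>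
    intro W hd hWN hWh
    have hW : W = ⊥ := Submodule.finrank_eq_zero.1 (Nat.le_zero.1 hd)
    refine ⟨Empty, inferInstance, Empty.elim, Empty.elim, Empty.elim, fun b => b.elim,
      fun b => b.elim, fun b => b.elim, ?_, ?_⟩
    · have : IsEmpty (Σ b : Empty, Fin (Empty.elim b)) := ⟨fun p => p.1.elim⟩
      exact linearIndependent_empty_type
    · have : IsEmpty (Σ b : Empty, Fin (Empty.elim b)) := ⟨fun p => p.1.elim⟩
      rw [Set.range_eq_empty, Submodule.span_empty, hW]
  | succ d ih =>
    intro W hd hWN hWh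
    by_cases hW : W = ⊥
    · exact ih W (by rw [hW]; simp) hWN hWh
    set W' := W.map N with hW'
    have hW'le : W' ≤ W := by
      rintro x ⟨y, hy, rfl⟩
      exact hWN hy
    have hW'ne : W' ≠ W := by
      intro heq
      apply hW
      have hp : ∀ j, W.map (N ^ j) = W := by
        intro j
        induction j with
        | zero => simp [Module.End.one_eq_id]
        | succ j ih =>
          rw [pow_succ', Module.End.mul_eq_comp, Submodule.map_comp, ih]
          exact heq
      rw [← hp q, hN, Submodule.map_zero]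
    have hlt : Module.finrank k W' < Module.finrank k W :=
      Submodule.finrank_lt_finrank_of_lt (lt_of_le_of_ne hW'le hW'ne)
    obtain ⟨β, _, l, χ, Y, hl, hY, hNY, hind, hspan⟩ := ih W' (by omega)
      (by
        rintro x ⟨y, hy, rfl⟩
        exact ⟨N y, hWN hy, rfl⟩)
      (by
        rintro x ⟨y, hy, rfl⟩
        exact ⟨h y, hWh hy, congrArg (fun f => f y) hcomm⟩)
    have hYW : ∀ b, Y b ∈ W' := by
      intro b
      rw [← hspan]
      apply Submodule.subset_span
      exact ⟨⟨b, ⟨0, hl b⟩⟩, by simp⟩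
    have hZ : ∀ b, ∃ z ∈ W, N z = Y b ∧ h z = ω ^ χ b • z := by
      intro b
      obtain ⟨z, hz, hzY⟩ := hYW b
      refine ⟨e h ω m (χ b) z, e_mem hWh ω m _ hz, ?_, h_e hω0 hω.pow_eq_one hh _ _⟩
      rw [e_comm hcomm, hzY, e_of_eigen hω0 hm (hY b)]
    choose Z hZW hZN hZh using hZ
    have hpowZ : ∀ b j, (N ^ (j + 1)) (Z b) = (N ^ j) (Y b) := by
      intro b j
      rw [pow_succ, Module.End.mul_apply, hZN]
    -- the kernel
    set K : Submodule k V := W ⊓ LinearMap.ker N with hK
    set t : Set V := {v | v ∈ K ∧ ∃ i, h v = ω ^ i • v} with ht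
    set u : β → V := fun b => (N ^ (l b)) (Z b) with hu
    have hu' : ∀ b, u b = (N ^ (l b - 1)) (Y b) := by
      intro b
      rw [← hpowZ, Nat.sub_add_cancel (hl b)]
    have hKh : K ≤ K.comap h := by
      rintro x ⟨hx, hx'⟩
      refine ⟨hWh hx, ?_⟩
      have h1 : N (h x) = h (N x) := congrArg (fun f => f x) hcomm
      change N (h x) = 0
      rw [h1, LinearMap.mem_ker.1 hx', map_zero]
    have htK : K ≤ Submodule.span k t := by
      intro x hx
      rw [← sum_e (h := h) hm hω x]
      apply Submodule.sum_mem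
      intro i _
      apply Submodule.subset_span
      exact ⟨e_mem hKh ω m i hx, i, h_e hω0 hω.pow_eq_one hh _ _⟩
    have hcommpow : ∀ j x, h ((N ^ j) x) = (N ^ j) (h x) := by
      intro j x
      have : Commute (N ^ j) h := Commute.pow_left hcomm j
      exact (congrArg (fun f => f x) this).symm
    have hpowW : ∀ j x, x ∈ W → (N ^ j) x ∈ W := by
      intro j
      induction j with
      | zero => intro x hx; simpa using hx
      | succ j ih =>
        intro x hx
        rw [pow_succ', Module.End.mul_apply]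
        exact hWN (ih x hx)
    have hut : Set.range u ⊆ t := by
      rintro _ ⟨b, rfl⟩
      refine ⟨⟨hpowW _ _ (hZW b), ?_⟩, χ b, ?_⟩
      · change N ((N ^ (l b)) (Z b)) = 0
        rw [← Module.End.mul_apply, ← pow_succ', hpowZ, hNY]
      · change h ((N ^ (l b)) (Z b)) = ω ^ χ b • (N ^ (l b)) (Z b)
        rw [hcommpow, hZh, map_smul]
    have huind : LinearIndependent k u := by
      have h1 := hind.comp (fun b : β => (⟨b, ⟨l b - 1, by have := hl b; omega⟩⟩ : Σ b, Fin (l b)))
        (by
          intro a b hab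
          exact congrArg Sigma.fst hab)
      convert h1 using 1
      funext b
      exact hu' b
    obtain ⟨B, hBt, huB, htB, hBind⟩ := exists_linearIndepOn_id_extension huind.linearIndepOn_id hut
    have hBK : Submodule.span k B = K := by
      apply le_antisymm
      · rw [Submodule.span_le]
        intro x hx
        exact (hBt hx).1
      · exact htK.trans (Submodule.span_le.2 htB)
    have hBfin : B.Finite := by
      exact hBind.setFinite
    set C : Set V := B \ Set.range u with hC
    have hCfin : C.Finite := hBfin.subset Set.sdiff_subset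
    have : Fintype C := hCfin.fintype
    have hcard : Module.finrank k K = Fintype.card β + Fintype.card C := by
      have : Fintype B := hBfin.fintype
      have h1 := finrank_span_set_eq_card hBind
      rw [hBK] at h1
      rw [h1, ← Set.ncard_eq_toFinset_card', ← Set.ncard_sdiff_add_ncard_of_subset huB hBfin,
        ← hC, add_comm]
      congr 1
      · rw [← Set.image_univ, Set.ncard_image_of_injective _ huind.injective, Set.ncard_univ,
          Nat.card_eq_fintype_card]
      · rw [Set.ncard_eq_toFinset_card', Set.toFinset_card]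
    obtain ⟨eC⟩ : Nonempty (Fin (Fintype.card C) ≃ C) := ⟨(Fintype.equivFin C).symm⟩
    have hCe : ∀ c : Fin (Fintype.card C), ∃ i, h (eC c : V) = ω ^ i • (eC c : V) := fun c =>
      (hBt (eC c).2.1).2
    choose χC hχC using hCe
    have hCker : ∀ c : Fin (Fintype.card C), N (eC c : V) = 0 := fun c =>
      LinearMap.mem_ker.1 (hBt (eC c).2.1).1.2
    have hCW : ∀ c : Fin (Fintype.card C), (eC c : V) ∈ W := fun c => (hBt (eC c).2.1).1.1
    let l2 : β ⊕ Fin (Fintype.card C) → ℕ := Sum.elim (fun b => l b + 1) (fun _ => 1)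
    let Y2 : β ⊕ Fin (Fintype.card C) → V := Sum.elim Z (fun c => (eC c : V))
    let χ2 : β ⊕ Fin (Fintype.card C) → ℕ := Sum.elim χ χC
    have hspan2 : Submodule.span k
        (Set.range (fun p : Σ b, Fin (l2 b) => (N ^ (p.2 : ℕ)) (Y2 p.1))) = W := by
      apply le_antisymm
      · rw [Submodule.span_le]
        rintro _ ⟨⟨b | c, i⟩, rfl⟩
        · exact hpowW _ _ (hZW b)
        · exact hpowW _ _ (hCW c)
      · set S := Submodule.span k
          (Set.range (fun p : Σ b, Fin (l2 b) => (N ^ (p.2 : ℕ)) (Y2 p.1))) with hS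
        have hKS : K ≤ S := by
          rw [← hBK, Submodule.span_le]
          intro x hx
          by_cases hxu : x ∈ Set.range u
          · obtain ⟨b, rfl⟩ := hxu
            exact Submodule.subset_span ⟨⟨Sum.inl b, ⟨l b, Nat.lt_succ_self _⟩⟩, rfl⟩
          · obtain ⟨c, hc⟩ := eC.surjective ⟨x, hx, hxu⟩
            apply Submodule.subset_span
            refine ⟨⟨Sum.inr c, ⟨0, Nat.one_pos⟩⟩, ?_⟩
            change (N ^ 0) ((eC c : V)) = x
            rw [hc]
            simp
        have hW'S : W' ≤ S.map N := by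
          rw [← hspan, Submodule.span_le]
          rintro _ ⟨⟨b, i⟩, rfl⟩
          refine ⟨(N ^ (i : ℕ)) (Z b), ?_, ?_⟩
          · exact Submodule.subset_span ⟨⟨Sum.inl b, ⟨i, Nat.lt_succ_of_lt i.2⟩⟩, rfl⟩
          · rw [← Module.End.mul_apply, ← pow_succ', hpowZ]
        have hSW : S ≤ W := by
          rw [hS, Submodule.span_le]
          rintro _ ⟨⟨b | c, i⟩, rfl⟩
          · exact hpowW _ _ (hZW b)
          · exact hpowW _ _ (hCW c)
        intro x hx
        obtain ⟨y, hy, hyx⟩ := hW'S ⟨x, hx, rfl⟩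
        have h1 : x - y ∈ K := by
          refine ⟨W.sub_mem hx (hSW hy), ?_⟩
          change N (x - y) = 0
          rw [map_sub, hyx, sub_self]
        have h2 := S.add_mem (hKS h1) hy
        rwa [sub_add_cancel] at h2
    refine ⟨β ⊕ Fin (Fintype.card C), inferInstance, l2, χ2, Y2, ?_, ?_, ?_, ?_, hspan2⟩
    · rintro (b | c)
      · exact Nat.succ_pos _
      · exact Nat.one_pos
    · rintro (b | c)
      · exact hZh b
      · exact hχC c
    · rintro (b | c)
      · change (N ^ (l b + 1)) (Z b) = 0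
        rw [hpowZ, hNY]
      · change (N ^ 1) (eC c : V) = 0
        rw [pow_one, hCker]
    · rw [linearIndependent_iff_card_eq_finrank_span]
      change _ = Module.finrank k (Submodule.span k _)
      rw [hspan2, ← finrank_map_add N W, ← hW', ← hK, hcard]
      have h1 := linearIndependent_iff_card_eq_finrank_span.1 hind
      change _ = Module.finrank k (Submodule.span k _) at h1
      rw [hspan] at h1
      rw [← h1, Fintype.card_sigma, Fintype.card_sigma,
        Finset.sum_congr rfl (fun a _ => Fintype.card_fin (l2 a)),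
        Finset.sum_congr rfl (fun a _ => Fintype.card_fin (l a)), Fintype.sum_sum_type]
      simp only [Sum.elim_inl, Sum.elim_inr]
      rw [Finset.sum_add_distrib, Finset.sum_const, Finset.sum_const, Finset.card_univ,
        Finset.card_univ, Fintype.card_fin]
      simp only [smul_eq_mul, mul_one]
      ring

theorem main {k : Type*} [Field k] {n : ℕ} (N h : (Fin n → k) →ₗ[k] (Fin n → k))
    (hcomm : N * h = h * N) (q : ℕ) (hN : N ^ q = 0) (m : ℕ) (hm : (m : k) ≠ 0) (ω : k)
    (hω : IsPrimitiveRoot ω m) (hh : h ^ m = 1) :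
    ∃ (β : Type) (_ : Fintype β) (l χ : β → ℕ) (Y : β → (Fin n → k)),
      (∀ b, 0 < l b ∧ l b ≤ q) ∧ (∀ b, h (Y b) = ω ^ χ b • Y b) ∧
      (∀ b, (N ^ l b) (Y b) = 0) ∧
      ∃ B : Module.Basis (Σ b, Fin (l b)) k (Fin n → k), ∀ p, B p = (N ^ (p.2 : ℕ)) (Y p.1) := by
  obtain ⟨β, hβ, l, χ, Y, hl, hY, hNY, hind, hspan⟩ := aux hcomm hN hm hω hh _ ⊤ le_rfl
    (fun _ _ => trivial) (fun _ _ => trivial)
  refine ⟨β, hβ, l, χ, Y, ?_, hY, hNY, Module.Basis.mk hind hspan.ge, ?_⟩
  · intro b
    refine ⟨hl b, ?_⟩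
    by_contra hlt
    push Not at hlt
    have h1 := hind.ne_zero (⟨b, ⟨q, hlt⟩⟩ : Σ b, Fin (l b))
    apply h1
    change (N ^ q) (Y b) = 0
    rw [hN]
    rfl
  · intro p
    simp

end Pool.Agent.W22.Jord559
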