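import Pool.Agent.W958.ST.Stms
import Pool.Agent.W958.ST.Base

/-! Task ST-1: multi-derivations are alternating forms in the differentials. -/

set_option autoImplicit false

namespace Pool.Agent.W22.STBridge

open Pool.Agent.W958.ST MvPolynomial

section general

variable {K : Type} [Field K] {n : ℕ}

/-- the gradient -/
noncomputable def grad : MvPolynomial (Fin n) K →ₗ[K] (Fin n → MvPolynomial (Fin n) K) :=
  LinearMap.pi fun i => (pderiv i : Derivation K (MvPolynomial (Fin n) K) _).toLinearMap

lemma grad_apply (f : MvPolynomial (Fin n) K) (i : Fin n) : grad f i = pderiv i f := rfl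

lemma grad_X (i : Fin n) : grad (X i : MvPolynomial (Fin n) K) = Pi.single i 1 := by
  funext j
  rw [grad_apply]
  rcases eq_or_ne i j with rfl | h
  · simp
  · rw [pderiv_X_of_ne h, Pi.single_eq_of_ne h.symm]

lemma grad_mul (f g : MvPolynomial (Fin n) K) : grad (f * g) = f • grad g + g • grad f := by
  funext j
  simp only [grad_apply, Pi.add_apply, Pi.smul_apply, Derivation.leibniz, smul_eq_mul]

lemma grad_lin (α : Fin n → K) : grad (lin α) = cv α := by
  rw [lin, map_sum]
  funext j
  rw [Finset.sum_apply]
  have h1 : ∀ i, grad (C (α i) * X i : MvPolynomial (Fin n) K) j =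
      if i = j then C (α i) else 0 := by
    intro i
    rw [grad_mul, grad_X]
    simp only [Pi.add_apply, Pi.smul_apply, grad_apply, pderiv_C, smul_eq_mul, mul_zero, add_zero]
    rcases eq_or_ne i j with rfl | h
    · simp
    · rw [Pi.single_eq_of_ne h.symm, if_neg h, mul_zero]
  simp only [h1, Finset.sum_ite_eq', Finset.mem_univ, if_true]
  rfl

variable {p : ℕ}

/-- the comparison map -/
noncomputable def Phi : Alt (Fin n) K (Fin n) p →ₗ[K]
    AlternatingMap K (MvPolynomial (Fin n) K) (MvPolynomial (Fin n) K) (Fin p) where
  toFun c :=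
    { toMultilinearMap := (c.toMultilinearMap.restrictScalars K).compLinearMap fun _ => grad
      map_eq_zero_of_eq' := by
        intro v i j hij hne
        exact c.map_eq_zero_of_eq (fun l => grad (v l)) (by simp only [hij]) hne }
  map_add' _ _ := rfl
  map_smul' _ _ := rfl

lemma Phi_apply (c : Alt (Fin n) K (Fin n) p) (v : Fin p → MvPolynomial (Fin n) K) :
    Phi c v = c (fun l => grad (v l)) := rfl

lemma Phi_X (c : Alt (Fin n) K (Fin n) p) (w : Fin p → Fin n) :
    Phi c (fun l => X (w l)) = c (fun l => Pi.single (w l) 1) := by
  rw [Phi_apply]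
  simp only [grad_X]

lemma Phi_inj : Function.Injective (Phi : Alt (Fin n) K (Fin n) p →ₗ[K] _) := by
  intro c c' h
  apply ext_single
  intro w
  rw [← Phi_X, h, Phi_X]

lemma grad_update (v : Fin p → MvPolynomial (Fin n) K) (j : Fin p) (x : MvPolynomial (Fin n) K) :
    (fun l => grad (Function.update v j x l)) = Function.update (fun l => grad (v l)) j (grad x) := by
  funext l
  rcases eq_or_ne l j with rfl | h
  · simp
  · simp [Function.update_of_ne h]

lemma Phi_leibniz (c : Alt (Fin n) K (Fin n) p) (v : Fin p → MvPolynomial (Fin n) K) (j : Fin p)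
    (u w : MvPolynomial (Fin n) K) : Phi c (Function.update v j (u * w)) =
      u * Phi c (Function.update v j w) + w * Phi c (Function.update v j u) := by
  simp only [Phi_apply, grad_update, grad_mul]
  rw [c.map_update_add, c.map_update_smul, c.map_update_smul, smul_eq_mul, smul_eq_mul]

/-- a multi-derivation which vanishes on the variables is zero -/
lemma eq_zero_of_vars
    (θ : AlternatingMap K (MvPolynomial (Fin n) K) (MvPolynomial (Fin n) K) (Fin p))
    (hL : ∀ (v : Fin p → MvPolynomial (Fin n) K) (j : Fin p) (u w : MvPolynomial (Fin n) K),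
      θ (Function.update v j (u * w)) =
        u * θ (Function.update v j w) + w * θ (Function.update v j u))
    (h0 : ∀ w : Fin p → Fin n, θ (fun j => X (w j)) = 0) : θ = 0 := by
  have key : ∀ (J : Finset (Fin p)) (v : Fin p → MvPolynomial (Fin n) K),
      (∀ j, j ∉ J → ∃ i, v j = X i) → θ v = 0 := by
    intro J
    induction J using Finset.induction_on with
    | empty =>
      intro v hv
      choose w hw using fun j => hv j (Finset.notMem_empty j)
      rw [show v = fun j => X (w j) from funext hw]
      exact h0 w
    | insert j0 J hj0 ih =>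
      intro v hv
      let D : Derivation K (MvPolynomial (Fin n) K) (MvPolynomial (Fin n) K) :=
        Derivation.mk' (θ.toMultilinearMap.toLinearMap v j0) (by
          intro a b
          exact hL v j0 a b)
      have hD : D = 0 := by
        apply derivation_ext
        intro i
        change θ (Function.update v j0 (X i)) = 0
        apply ih
        intro j hj
        rcases eq_or_ne j j0 with rfl | h
        · exact ⟨i, by simp⟩
        · rw [Function.update_of_ne h]
          exact hv j (by simp [h, hj])
      have h1 : D (v j0) = 0 := by rw [hD]; rfl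
      change θ (Function.update v j0 (v j0)) = 0 at h1
      rwa [Function.update_eq_self] at h1
  ext1 v
  exact key Finset.univ v (fun j hj => absurd (Finset.mem_univ j) hj)

/-- divisibility from basis vectors in the other arguments -/
lemma dvd_of_vars (c : Alt (Fin n) K (Fin n) p) (q : MvPolynomial (Fin n) K)
    (x : Fin n → MvPolynomial (Fin n) K) (j : Fin p)
    (h : ∀ w : Fin p → Fin n, q ∣ c (Function.update (fun l => Pi.single (w l) 1) j x)) :
    ∀ v : Fin p → Fin n → MvPolynomial (Fin n) K, v j = x → q ∣ c v := by
  rcases isEmpty_or_nonempty (Fin n) with hn | hn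
  · intro v _
    rw [c.map_coord_zero j (Subsingleton.elim _ _)]
    exact dvd_zero q
  have key : ∀ (J : Finset (Fin p)) (v : Fin p → Fin n → MvPolynomial (Fin n) K), v j = x →
      (∀ i, i ≠ j → i ∉ J → ∃ l, v i = Pi.single l 1) → q ∣ c v := by
    intro J
    induction J using Finset.induction_on with
    | empty =>
      intro v hv hv2
      have h1 : ∀ i, ∃ l : Fin n, i ≠ j → v i = Pi.single l 1 := by
        intro i
        by_cases hi : i = j
        · exact ⟨hn.some, fun h => absurd hi h⟩
        · obtain ⟨l, hl⟩ := hv2 i hi (Finset.notMem_empty i)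
          exact ⟨l, fun _ => hl⟩
      choose w hw using h1
      have h2 : v = Function.update (fun l => Pi.single (w l) 1) j x := by
        funext i
        rcases eq_or_ne i j with rfl | h3
        · rw [Function.update_self, hv]
        · rw [Function.update_of_ne h3, hw i h3]
      rw [h2]
      exact h w
    | insert i0 J hi0 ih =>
      intro v hv hv2
      by_cases hij : i0 = j
      · apply ih v hv
        intro i hi hiJ
        refine hv2 i hi ?_
        rw [Finset.mem_insert, not_or]
        exact ⟨by rw [hij]; exact hi, hiJ⟩
      · have h1 : v = Function.update v i0 (v i0) := (Function.update_eq_self i0 v).symm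
        have h2 := LinearMap.pi_apply_eq_sum_univ (c.toMultilinearMap.toLinearMap v i0) (v i0)
        have h3 : c v = (c.toMultilinearMap.toLinearMap v i0) (v i0) := by
          change c v = c (Function.update v i0 (v i0))
          rw [Function.update_eq_self]
        rw [h3, h2]
        apply Finset.dvd_sum
        intro l _
        rw [smul_eq_mul]
        apply Dvd.dvd.mul_left
        change q ∣ c (Function.update v i0 _)
        apply ih
        · rw [Function.update_of_ne (Ne.symm hij), hv]
        · intro i hi hiJ
          rcases eq_or_ne i i0 with rfl | h4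
          · refine ⟨l, ?_⟩
            rw [Function.update_self]
            funext m
            rw [Pi.single_apply]
            simp only [eq_comm]
          · rw [Function.update_of_ne h4]
            refine hv2 i hi ?_
            rw [Finset.mem_insert, not_or]
            exact ⟨h4, hiJ⟩
  intro v hv
  exact key Finset.univ v hv (fun i _ hi => absurd (Finset.mem_univ i) hi)

/-- covectors with the same hyperplane are proportional -/
lemma prop_of_ker (α : Fin n → K) (hα : α ≠ 0) (a : Module.Dual K (Fin n → K))
    (h : LinearMap.ker a = hyp α) :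
    ∃ s : K, s ≠ 0 ∧ (fun i => a (Pi.single i 1)) = s • α := by
  have hmem : ∀ x : Fin n → K, x ∈ hyp α ↔ ∑ i, α i * x i = 0 := by
    intro x
    simp [hyp, LinearMap.mem_ker]
  obtain ⟨i0, hi0⟩ := Function.ne_iff.1 hα
  simp only [Pi.zero_apply] at hi0
  have hrel : ∀ i, α i0 * a (Pi.single i 1) = α i * a (Pi.single i0 1) := by
    intro i
    have h1 : α i0 • (Pi.single i 1 : Fin n → K) - α i • (Pi.single i0 1 : Fin n → K) ∈
        LinearMap.ker a := by
      rw [h, hmem]
      simp only [Pi.sub_apply, Pi.smul_apply, smul_eq_mul, mul_sub, Finset.sum_sub_distrib,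
        Pi.single_apply, mul_ite, mul_one, mul_zero, Finset.sum_ite_eq', Finset.mem_univ, if_true]
      ring
    rw [LinearMap.mem_ker, map_sub, map_smul, map_smul, smul_eq_mul, smul_eq_mul] at h1
    exact sub_eq_zero.1 h1
  have hs : a (Pi.single i0 1) ≠ 0 := by
    intro h0
    have h1 : (Pi.single i0 1 : Fin n → K) ∈ hyp α := by
      rw [← h, LinearMap.mem_ker, h0]
    rw [hmem] at h1
    simp only [Pi.single_apply, mul_ite, mul_one, mul_zero, Finset.sum_ite_eq', Finset.mem_univ,
      if_true] at h1
    exact hi0 h1
  refine ⟨a (Pi.single i0 1) / α i0, div_ne_zero hs hi0, ?_⟩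
  funext i
  simp only [Pi.smul_apply, smul_eq_mul]
  field_simp
  rw [mul_comm, hrel i]
  ring

lemma lin_smul (s : K) (α : Fin n → K) : lin (s • α) = C s * lin α := by
  simp only [lin, Pi.smul_apply, smul_eq_mul, C_mul, Finset.mul_sum, mul_assoc]

lemma cv_smul (s : K) (α : Fin n → K) :
    cv (s • α) = (C s : MvPolynomial (Fin n) K) • cv α := by
  funext i
  simp [cv]

lemma image_eq (L : Set (Fin n → K)) (hL : ∀ α ∈ L, α ≠ 0)
    (A : Finset (Submodule K (Fin n → K))) (hA : ∀ H, H ∈ A ↔ ∃ α ∈ L, H = hyp α) (k : ℕ) :
    Phi '' (DD L p k : Set (Alt (Fin n) K (Fin n) p)) = FS A p k := by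
  apply Set.Subset.antisymm
  · rintro _ ⟨c, ⟨hc1, hc2⟩, rfl⟩
    refine ⟨Phi_leibniz c, ?_, ?_⟩
    · intro H hH a ha v j hv
      obtain ⟨α, hα, rfl⟩ := (hA H).1 hH
      obtain ⟨s, hs, hs2⟩ := prop_of_ker α (hL α hα) a ha
      have h1 : (∑ i : Fin n, MvPolynomial.C (a (Pi.single i 1)) * MvPolynomial.X i) =
          C s * lin α := by
        rw [← lin_smul, ← hs2]
        rfl
      rw [h1] at hv ⊢
      have h2 : grad (v j) = (C s : MvPolynomial (Fin n) K) • cv α := by
        rw [hv, ← lin_smul, grad_lin, cv_smul]
      rw [Phi_apply]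
      have h3 : (fun l => grad (v l)) =
          Function.update (fun l => grad (v l)) j ((C s : MvPolynomial (Fin n) K) • cv α) := by
        rw [← h2, Function.update_eq_self]
      rw [h3, c.map_update_smul, smul_eq_mul]
      apply mul_dvd_mul_left
      exact hc1 α hα _ j (by simp)
    · intro w
      rw [Phi_X]
      exact hc2 w
  · rintro θ ⟨h1, h2, h3⟩
    obtain ⟨c, hc⟩ := exists_single (n := p) (fun w : Fin p → Fin n => θ (fun j => X (w j)))
      (by
        intro w hw
        simp only [Function.Injective, not_forall] at hw
        obtain ⟨i, j, hij, hne⟩ := hw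
        exact θ.map_eq_zero_of_eq _ (by simp only [hij]) hne)
      (by
        intro w σ
        exact θ.map_perm (fun j => X (w j)) σ)
    have hθ : Phi c = θ := by
      rw [← sub_eq_zero]
      apply eq_zero_of_vars
      · intro v j u w
        simp only [AlternatingMap.sub_apply]
        rw [Phi_leibniz, h1]
        ring
      · intro w
        rw [AlternatingMap.sub_apply, Phi_X, hc, sub_self]
    refine ⟨c, ⟨?_, ?_⟩, hθ⟩
    · intro α hα v j hv
      have hH : hyp α ∈ A := (hA _).2 ⟨α, hα, rfl⟩
      apply dvd_of_vars c (lin α) (cv α) j _ v hv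
      intro w
      have h4 : Function.update (fun l => (Pi.single (w l) 1 : Fin n → MvPolynomial (Fin n) K)) j
          (cv α) = fun l => grad (Function.update (fun l => (X (w l) : MvPolynomial (Fin n) K)) j
            (lin α) l) := by
        rw [grad_update, grad_lin]
        simp only [grad_X]
      rw [h4, ← Phi_apply, hθ]
      have h5 := h2 (hyp α) hH (∑ i, α i • (LinearMap.proj i : (Fin n → K) →ₗ[K] K)) rfl
        (Function.update (fun l => (X (w l) : MvPolynomial (Fin n) K)) j (lin α)) j
      have h6 : ∀ i, (∑ i, α i • (LinearMap.proj i : (Fin n → K) →ₗ[K] K)) (Pi.single i 1) =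
          α i := by
        intro i
        simp [LinearMap.sum_apply, Pi.single_apply]
      simp only [h6, Function.update_self] at h5
      exact h5 rfl
    · intro w
      rw [hc]
      exact h3 w

end general

theorem main : StBridge := by
  intro K _ n L hL A hA p k
  rw [← image_eq L hL A hA k, ← Submodule.map_span, Submodule.span_eq]
  exact (LinearEquiv.finrank_eq (Submodule.equivMapOfInjective Phi Phi_inj (DD L p k))).symm

end Pool.Agent.W22.STBridge
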