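import Mathlib

set_option autoImplicit false

namespace Pool.Agent.W22.PS

open Real

/-- `ell x = log ((x + 1/2)/(x - 1/2))` -/
noncomputable def ell (x : ℝ) : ℝ := Real.log (x + 1 / 2) - Real.log (x - 1 / 2)

lemma ell_eq (x : ℝ) (hx : 1 / 2 < x) :
    HasSum (fun k : ℕ => 2 * (1 / (2 * (k : ℝ) + 1)) * (1 / (2 * x)) ^ (2 * k + 1)) (ell x) := by
  have hx0 : 0 < x := by linarith
  have h1 : |1 / (2 * x)| < 1 := by
    rw [abs_of_pos (by positivity), div_lt_one (by positivity)]
    linarith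
  have h := Real.hasSum_log_sub_log_of_abs_lt_one h1
  have e1 : Real.log (1 + 1 / (2 * x)) = Real.log (x + 1 / 2) - Real.log x := by
    rw [← Real.log_div (by linarith) hx0.ne']
    congr 1
    field_simp
  have e2 : Real.log (1 - 1 / (2 * x)) = Real.log (x - 1 / 2) - Real.log x := by
    rw [← Real.log_div (by linarith) hx0.ne']
    congr 1
    field_simp
  rw [e1, e2] at h
  have e3 : Real.log (x + 1 / 2) - Real.log x - (Real.log (x - 1 / 2) - Real.log x) = ell x := by
    unfold ell; ring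
  rw [e3] at h
  exact h

lemma ell_lower (x : ℝ) (hx : 1 / 2 < x) : 1 / x + 1 / (12 * x ^ 3) ≤ ell x := by
  have hx0 : 0 < x := by linarith
  have h := sum_le_hasSum (Finset.range 2) (fun i _ => by positivity) (ell_eq x hx)
  simp only [Finset.sum_range_succ, Finset.sum_range_zero] at h
  refine le_trans (le_of_eq ?_) h
  norm_num
  field_simp
  ring

lemma ell_upper (x : ℝ) (hx : 1 / 2 < x) : ell x ≤ x / (x ^ 2 - 1 / 4) := by
  have hx0 : 0 < x := by linarith
  have hz0 : 0 ≤ 1 / (2 * x) := by positivity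
  have hz1 : 1 / (2 * x) < 1 := by
    rw [div_lt_one (by positivity)]; linarith
  have hg : HasSum (fun k : ℕ => 2 * (1 / (2 * x)) * ((1 / (2 * x)) ^ 2) ^ k)
      (2 * (1 / (2 * x)) * (1 - (1 / (2 * x)) ^ 2)⁻¹) := by
    apply HasSum.mul_left
    apply hasSum_geometric_of_lt_one (by positivity)
    nlinarith
  have h := hasSum_le (fun k => ?_) (ell_eq x hx) hg
  · refine le_trans h (le_of_eq ?_)
    have h4 : x ^ 2 - 1 / 4 ≠ 0 := by nlinarith
    have h5 : 1 - (1 / (2 * x)) ^ 2 ≠ 0 := by nlinarith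
    rw [← div_eq_mul_inv, div_eq_div_iff h5 h4]
    field_simp
    ring
  · have e : 2 * (1 / (2 * x)) * ((1 / (2 * x)) ^ 2) ^ k = 2 * 1 * (1 / (2 * x)) ^ (2 * k + 1) := by
      rw [← pow_mul]; ring
    rw [e]
    have : 1 / (2 * (k : ℝ) + 1) ≤ 1 := by
      rw [div_le_one (by positivity)]
      have : (0 : ℝ) ≤ k := by positivity
      linarith
    gcongr

lemma ell_hasDeriv (x : ℝ) (hx : 1 / 2 < x) :
    HasDerivAt ell (1 / (x + 1 / 2) - 1 / (x - 1 / 2)) x := by
  unfold ell
  have h1 : HasDerivAt (fun y : ℝ => Real.log (y + 1 / 2)) (1 / (x + 1 / 2)) x := by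
    have := ((hasDerivAt_id x).add_const (1 / 2 : ℝ)).log (by simp; linarith)
    simpa using this
  have h2 : HasDerivAt (fun y : ℝ => Real.log (y - 1 / 2)) (1 / (x - 1 / 2)) x := by
    have := ((hasDerivAt_id x).sub_const (1 / 2 : ℝ)).log (by simp; linarith)
    simpa using this
  exact h1.sub h2

/-- `(x - 1/50) * ell x` is monotone on `[9, ∞)` -/
lemma mono_f : MonotoneOn (fun x : ℝ => (x - 1 / 50) * ell x) (Set.Ici 9) := by
  have hd : ∀ x : ℝ, 9 ≤ x → HasDerivAt (fun x : ℝ => (x - 1 / 50) * ell x)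
      (1 * ell x + (x - 1 / 50) * (1 / (x + 1 / 2) - 1 / (x - 1 / 2))) x := by
    intro x hx
    exact ((hasDerivAt_id x).sub_const (1 / 50 : ℝ)).mul (ell_hasDeriv x (by linarith))
  apply monotoneOn_of_deriv_nonneg (convex_Ici 9)
  · intro x hx
    exact (hd x hx).continuousAt.continuousWithinAt
  · intro x hx
    rw [interior_Ici] at hx
    exact (hd x hx.le).differentiableAt.differentiableWithinAt
  · intro x hx
    rw [interior_Ici] at hx
    have hx' : (9 : ℝ) < x := hx
    rw [(hd x hx.le).deriv]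
    have h1 := ell_lower x (by linarith)
    have h2 : 1 / (x + 1 / 2) - 1 / (x - 1 / 2) = - (1 / (x ^ 2 - 1 / 4)) := by
      have a : x + 1 / 2 ≠ 0 := by linarith
      have b : x - 1 / 2 ≠ 0 := by linarith
      rw [show x ^ 2 - 1 / 4 = (x + 1 / 2) * (x - 1 / 2) by ring, div_sub_div _ _ a b, ← neg_div]
      congr 1
      ring
    rw [h2]
    have h3 : (x - 1 / 50) * (1 / (x ^ 2 - 1 / 4)) ≤ 1 / x + 1 / (12 * x ^ 3) := by
      have c : 0 < x ^ 2 - 1 / 4 := by nlinarith
      rw [mul_one_div, div_le_iff₀ c]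
      have hx0 : 0 < x := by linarith
      rw [show (1 / x + 1 / (12 * x ^ 3)) * (x ^ 2 - 1 / 4)
        = ((12 * x ^ 2 + 1) * (x ^ 2 - 1 / 4)) / (12 * x ^ 3) by field_simp]
      rw [le_div_iff₀ (by positivity)]
      nlinarith [mul_pos hx0 hx0, mul_pos (mul_pos hx0 hx0) hx0,
        mul_nonneg (mul_nonneg hx0.le hx0.le) (sub_nonneg.2 hx'.le)]
    linarith

/-- `x * ell x` is antitone on `[1, ∞)` -/
lemma anti_g : AntitoneOn (fun x : ℝ => x * ell x) (Set.Ici 1) := by
  have hd : ∀ x : ℝ, 1 ≤ x → HasDerivAt (fun x : ℝ => x * ell x)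
      (1 * ell x + x * (1 / (x + 1 / 2) - 1 / (x - 1 / 2))) x := by
    intro x hx
    exact (hasDerivAt_id x).mul (ell_hasDeriv x (by linarith))
  apply antitoneOn_of_deriv_nonpos (convex_Ici 1)
  · intro x hx
    exact (hd x hx).continuousAt.continuousWithinAt
  · intro x hx
    rw [interior_Ici] at hx
    exact (hd x hx.le).differentiableAt.differentiableWithinAt
  · intro x hx
    rw [interior_Ici] at hx
    have hx' : (1 : ℝ) < x := hx
    rw [(hd x hx.le).deriv]
    have h1 := ell_upper x (by linarith)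
    have h2 : 1 / (x + 1 / 2) - 1 / (x - 1 / 2) = - (1 / (x ^ 2 - 1 / 4)) := by
      have a : x + 1 / 2 ≠ 0 := by linarith
      have b : x - 1 / 2 ≠ 0 := by linarith
      rw [show x ^ 2 - 1 / 4 = (x + 1 / 2) * (x - 1 / 2) by ring, div_sub_div _ _ a b, ← neg_div]
      congr 1
      ring
    rw [h2]
    have : x / (x ^ 2 - 1 / 4) = x * (1 / (x ^ 2 - 1 / 4)) := by ring
    linarith

/-- `exp x ≤ (2 + x) / (2 - x)` for `0 ≤ x < 2` -/
lemma exp_le (x : ℝ) (h0 : 0 ≤ x) (h2 : x < 2) : Real.exp x ≤ (2 + x) / (2 - x) := by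
  rcases h0.eq_or_lt with h | h
  · subst h; simp
  have hx : 1 / 2 < 1 / x := by
    rw [div_lt_div_iff₀ (by norm_num) h]; linarith
  have h1 := ell_lower (1 / x) hx
  have h3 : x ≤ ell (1 / x) := by
    have : 0 ≤ 1 / (12 * (1 / x) ^ 3) := by positivity
    have e : 1 / (1 / x) = x := by field_simp
    linarith
  have h4 : ell (1 / x) = Real.log ((2 + x) / (2 - x)) := by
    unfold ell
    rw [← Real.log_div (by positivity) (by linarith)]
    congr 1
    have : 2 - x ≠ 0 := by linarith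
    field_simp
  rw [h4] at h3
  calc Real.exp x ≤ Real.exp (Real.log ((2 + x) / (2 - x))) := Real.exp_le_exp.2 h3
    _ = (2 + x) / (2 - x) := Real.exp_log (div_pos (by linarith) (by linarith))

end Pool.Agent.W22.PS
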