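import Mathlib
import Pool.Agent.W22.PS

set_option autoImplicit false

namespace Pool.Agent.W22.PS

/-- comparison polynomial -/
noncomputable def V (L Y p : ℝ) : ℝ :=
  Y ^ 2 - 2 * L * p * Y + (3 * L ^ 2 - 2 * L - 3 / 100) * p ^ 2 + 4 * L ^ 2 * p +
    (6 * L ^ 2 - 4 * L - 1 / 10)

structure LB (L : ℝ) : Prop where
  l : 0.6931471803 < L
  u : L < 0.6931471808

lemma LB.sq_l {L : ℝ} (h : LB L) : 0.48045301 ≤ L ^ 2 := by nlinarith [h.l, h.u]
lemma LB.sq_u {L : ℝ} (h : LB L) : L ^ 2 ≤ 0.48045302 := by nlinarith [h.l, h.u]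

lemma key {L Y t : ℝ} (h : LB L) (hY : 50 ≤ Y) (ht : 0 ≤ t) (htY : t ≤ 0.74 * Y) :
    2 * V L Y (t + 1) * (2 * Y - (2 - L) * t) ≤
      (Y ^ 2 + V L Y (t + 2)) * (2 * Y - (2 + L) * t) := by
  have l := h.l
  have u := h.u
  have sl := h.sq_l
  have su := h.sq_u
  set a : ℝ := 3 * L ^ 2 - 2 * L - 3 / 100 with ha
  set b : ℝ := 4 * L ^ 2 with hb
  set c : ℝ := 6 * L ^ 2 - 4 * L - 1 / 10 with hc
  have a0 : 0 ≤ a := by rw [ha]; linarith
  have a1 : a ≤ 0.0251 := by rw [ha]; linarith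
  have b0 : 0 ≤ b := by rw [hb]; linarith
  have b1 : b ≤ 1.922 := by rw [hb]; linarith
  have c0 : 0 ≤ c := by rw [hc]; linarith
  have c1 : c ≤ 0.0102 := by rw [hc]; linarith
  have e : (Y ^ 2 + V L Y (t + 2)) * (2 * Y - (2 + L) * t) -
      2 * V L Y (t + 1) * (2 * Y - (2 - L) * t) =
      Y * (0.06 * t ^ 2 + 0.08) - t * ((3 * L - 2) * (a * t ^ 2 + b * t + c) + 8 * L * a * t +
        a * (4 + 6 * L) + 4 * L * b) := by
    unfold V
    rw [ha, hb, hc]
    ring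
  have t2 : 0 ≤ t ^ 2 := sq_nonneg t
  have p1 : a * t ^ 2 + b * t + c ≤ 0.0251 * t ^ 2 + 1.922 * t + 0.0102 := by gcongr
  have p0 : 0 ≤ a * t ^ 2 + b * t + c := by positivity
  have p2 : (3 * L - 2) * (a * t ^ 2 + b * t + c) ≤
      0.0795 * (0.0251 * t ^ 2 + 1.922 * t + 0.0102) := by
    apply mul_le_mul _ p1 p0 (by norm_num)
    linarith
  have p3 : 8 * L * a * t ≤ 8 * 0.6932 * 0.0251 * t := by
    have : L * a ≤ 0.6932 * 0.0251 := mul_le_mul (by linarith) a1 a0 (by norm_num)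
    have := mul_le_mul_of_nonneg_right this ht
    linarith
  have p4 : a * (4 + 6 * L) ≤ 0.0251 * 8.16 := by
    apply mul_le_mul a1 (by linarith) (by linarith) (by norm_num)
  have p5 : 4 * L * b ≤ 4 * 0.6932 * 1.922 := by
    have : L * b ≤ 0.6932 * 1.922 := mul_le_mul (by linarith) b1 b0 (by norm_num)
    linarith
  have p6 : (3 * L - 2) * (a * t ^ 2 + b * t + c) + 8 * L * a * t +
        a * (4 + 6 * L) + 4 * L * b ≤ 0.002 * t ^ 2 + 0.2925 * t + 5.54 := by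
    linarith
  have p7 := mul_le_mul_of_nonneg_left p6 ht
  have p8 : 0 ≤ Y * (0.06 * t ^ 2 + 0.08) - t * (0.002 * t ^ 2 + 0.2925 * t + 5.54) := by
    have q1 : 0 ≤ t ^ 2 * (0.74 * Y - t) := mul_nonneg t2 (by linarith)
    have q2 : 0 ≤ (Y - 50) * (0.058 * t ^ 2 + 0.08) := by
      apply mul_nonneg (by linarith); positivity
    nlinarith [sq_nonneg (t - 1.05)]
  linarith

lemma key0 {L Y : ℝ} (h : LB L) (hY : 50 ≤ Y) :
    2 * V L Y 0 * ((Y + 1.02) ^ 2 - L * (Y + 1.02) + L ^ 2 / 2) ≤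
      (Y + 1.02) ^ 2 * (Y ^ 2 + V L Y 1) := by
  have l := h.l
  have u := h.u
  have sl := h.sq_l
  have su := h.sq_u
  have h3 : 0.333 ≤ L ^ 3 := by nlinarith
  have h3' : L ^ 3 ≤ 0.334 := by nlinarith
  have h4 : 0.2308 ≤ L ^ 4 := by nlinarith
  have h4' : L ^ 4 ≤ 0.2309 := by nlinarith
  have Y2 : 0 ≤ Y ^ 2 := sq_nonneg Y
  have e : (Y + 1.02) ^ 2 * (Y ^ 2 + V L Y 1) -
      2 * V L Y 0 * ((Y + 1.02) ^ 2 - L * (Y + 1.02) + L ^ 2 / 2) =
      (0.07 - 0.04 * L) * Y ^ 2 +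
      (2.04 * (L ^ 2 + 2 * L + 0.07) + 2 * (6 * L ^ 2 - 4 * L - 1 / 10) * L - 2.0808 * L) * Y +
      (1.0404 * (13 * L ^ 2 - 6 * L - 0.13) - 2 * (6 * L ^ 2 - 4 * L - 1 / 10) *
        (1.0404 - 1.02 * L + L ^ 2 / 2)) := by
    unfold V
    ring
  have c2 : 0 ≤ (0.07 - 0.04 * L) * Y ^ 2 := mul_nonneg (by linarith) Y2
  have c1 : 0 ≤ (2.04 * (L ^ 2 + 2 * L + 0.07) + 2 * (6 * L ^ 2 - 4 * L - 1 / 10) * L -
      2.0808 * L) * Y := by
    apply mul_nonneg _ (by linarith)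
    nlinarith
  have c0 : 0 ≤ (1.0404 * (13 * L ^ 2 - 6 * L - 0.13) - 2 * (6 * L ^ 2 - 4 * L - 1 / 10) *
        (1.0404 - 1.02 * L + L ^ 2 / 2)) := by
    nlinarith
  linarith

lemma neg {L Y p : ℝ} (h : LB L) (hY : 50 ≤ Y) (hp : 0.74 * Y + 1 ≤ p) (hp2 : p ≤ Y + 2) :
    V L Y p ≤ 0 := by
  have l := h.l
  have u := h.u
  have sl := h.sq_l
  have su := h.sq_u
  have hp0 : 0 ≤ p := by linarith
  have a1 : 3 * L ^ 2 - 2 * L - 3 / 100 ≤ 0.0251 := by linarith
  have q1 : (3 * L ^ 2 - 2 * L - 3 / 100) * p ^ 2 ≤ 0.0251 * ((Y + 2) * p) := by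
    calc _ ≤ 0.0251 * p ^ 2 := mul_le_mul_of_nonneg_right a1 (sq_nonneg p)
      _ ≤ _ := by nlinarith
  have q2 : 4 * L ^ 2 * p ≤ 1.922 * p := by
    apply mul_le_mul_of_nonneg_right _ hp0; linarith
  have q3 : 1.3862 * (p * Y) ≤ 2 * L * p * Y := by
    have : 0 ≤ p * Y := mul_nonneg hp0 (by linarith)
    nlinarith
  have q4 : 6 * L ^ 2 - 4 * L - 1 / 10 ≤ 0.0102 := by linarith
  unfold V
  have : Y ^ 2 - p * (1.3611 * Y - 1.9722) + 0.0102 ≤ 0 := by
    have : 0 ≤ (p - (0.74 * Y + 1)) * (1.3611 * Y - 1.9722) :=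
      mul_nonneg (by linarith) (by linarith)
    nlinarith
  nlinarith

lemma LBlog : LB (Real.log 2) := ⟨Real.log_two_gt_d9, Real.log_two_lt_d9⟩

/-- upper bound for `exp (-y)` -/
lemma exp_neg_le (y : ℝ) (hy : 0 ≤ y) : Real.exp (-y) ≤ 1 - y + y ^ 2 / 2 := by
  have h := Real.quadratic_le_exp_of_nonneg hy
  rw [Real.exp_neg]
  have h2 : (Real.exp y)⁻¹ ≤ (1 + y + y ^ 2 / 2)⁻¹ := inv_anti₀ (by positivity) h
  refine h2.trans ?_
  rw [inv_eq_one_div, div_le_iff₀ (by positivity)]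
  nlinarith [sq_nonneg (y ^ 2)]

/-- the step inequality -/
lemma step {m n i : ℕ} (hm : 51 ≤ m) (hi : i + 1 ≤ m)
    (hn : (n : ℝ) * ell ((m : ℝ) - 1 / 2) ≤ Real.log 2)
    (hV : 0 < V (Real.log 2) ((m : ℝ) - 0.52) i) :
    V (Real.log 2) ((m : ℝ) - 0.52) i * (((m : ℝ) - i + 1) / ((m : ℝ) - i)) ^ n ≤
      ((m : ℝ) - 0.52) ^ 2 + V (Real.log 2) ((m : ℝ) - 0.52) (i + 1) := by
  set L := Real.log 2 with hLdef
  have hL : LB L := LBlog
  have l := hL.l
  have u := hL.u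
  have hexpL : Real.exp L = 2 := Real.exp_log (by norm_num)
  set Y : ℝ := (m : ℝ) - 0.52 with hY
  set X : ℝ := (m : ℝ) - 1 / 2 with hX
  have hm' : (51 : ℝ) ≤ m := by exact_mod_cast hm
  have hi' : (i : ℝ) + 1 ≤ m := by exact_mod_cast hi
  have hY50 : 50 ≤ Y := by rw [hY]; linarith
  have hXY : X = Y + 0.02 := by rw [hX, hY]; ring
  have hn0 : (0 : ℝ) ≤ n := by positivity
  -- the power as an exponential
  have hs : ∀ x : ℝ, 1 / 2 < x → ((x + 1 / 2) / (x - 1 / 2)) ^ n = Real.exp (n * ell x) := by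
    intro x hx
    unfold ell
    rw [← Real.log_div (by linarith) (by linarith), mul_comm, Real.exp_mul,
      Real.exp_log (div_pos (by linarith) (by linarith)), Real.rpow_natCast]
  rcases i with _ | t
  · -- i = 0
    simp only [Nat.cast_zero, sub_zero, zero_add] at hV ⊢
    have e1 : (((m : ℝ) + 1) / (m : ℝ)) ^ n = Real.exp (n * ell (X + 1)) := by
      rw [← hs (X + 1) (by rw [hX]; linarith)]
      congr 2 <;> rw [hX] <;> ring
    rw [e1]
    have h1 : (X + 1) * ell (X + 1) ≤ X * ell X :=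
      anti_g (show (1 : ℝ) ≤ X by rw [hX]; linarith) (show (1 : ℝ) ≤ X + 1 by rw [hX]; linarith)
        (by linarith)
    have hXpos : 0 < X + 1 := by rw [hX]; linarith
    have h2 : n * ell (X + 1) ≤ L + -(L / (X + 1)) := by
      have h3 : (X + 1) * (n * ell (X + 1)) ≤ X * L := by
        calc (X + 1) * (n * ell (X + 1)) = n * ((X + 1) * ell (X + 1)) := by ring
          _ ≤ n * (X * ell X) := mul_le_mul_of_nonneg_left h1 hn0
          _ = X * (n * ell X) := by ring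
          _ ≤ X * L := mul_le_mul_of_nonneg_left hn (by rw [hX]; linarith)
      have h4 : L + -(L / (X + 1)) = X * L / (X + 1) := by field_simp; ring
      rw [h4, le_div_iff₀ hXpos]
      linarith
    have hy : 0 ≤ L / (X + 1) := div_nonneg (by linarith) hXpos.le
    have h5 : Real.exp (n * ell (X + 1)) ≤
        2 * (1 - L / (X + 1) + (L / (X + 1)) ^ 2 / 2) := by
      calc Real.exp (n * ell (X + 1)) ≤ Real.exp (L + -(L / (X + 1))) := Real.exp_le_exp.2 h2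
        _ = 2 * Real.exp (-(L / (X + 1))) := by rw [Real.exp_add, hexpL]
        _ ≤ _ := mul_le_mul_of_nonneg_left (exp_neg_le _ hy) (by norm_num)
    have h6 := key0 hL hY50
    have hZ : X + 1 = Y + 1.02 := by rw [hXY]; ring
    have hZpos : 0 < Y + 1.02 := by linarith
    calc V L Y 0 * Real.exp (n * ell (X + 1))
        ≤ V L Y 0 * (2 * (1 - L / (X + 1) + (L / (X + 1)) ^ 2 / 2)) :=
          mul_le_mul_of_nonneg_left h5 hV.le
      _ = 2 * V L Y 0 * ((Y + 1.02) ^ 2 - L * (Y + 1.02) + L ^ 2 / 2) / (Y + 1.02) ^ 2 := by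
          rw [hZ]; field_simp
      _ ≤ (Y + 1.02) ^ 2 * (Y ^ 2 + V L Y 1) / (Y + 1.02) ^ 2 := by gcongr
      _ = Y ^ 2 + V L Y 1 := by field_simp
  · -- i = t + 1
    push_cast at hV hi' ⊢
    have ht0 : (0 : ℝ) ≤ t := by positivity
    have htY : (t : ℝ) < 0.74 * Y := by
      by_contra hcon
      push Not at hcon
      have := neg hL hY50 (p := (t : ℝ) + 1) (by linarith) (by rw [hY]; linarith)
      linarith
    have hXt : 9 ≤ X - t := by rw [hXY]; linarith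
    have e1 : (((m : ℝ) - ((t : ℝ) + 1) + 1) / ((m : ℝ) - ((t : ℝ) + 1))) ^ n =
        Real.exp (n * ell (X - t)) := by
      rw [← hs (X - t) (by linarith)]
      congr 2 <;> rw [hX] <;> ring
    rw [e1]
    have h1 := mono_f (show (9 : ℝ) ≤ X - t from hXt) (show (9 : ℝ) ≤ X by linarith)
      (by linarith : X - t ≤ X)
    simp only at h1
    have hYt : 0 < Y - t := by linarith
    have h2 : (Y - t) * (n * ell (X - t)) ≤ Y * L := by
      calc (Y - t) * (n * ell (X - t)) = n * ((X - t - 1 / 50) * ell (X - t)) := by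
            rw [hXY]; ring
        _ ≤ n * ((X - 1 / 50) * ell X) := mul_le_mul_of_nonneg_left h1 hn0
        _ = Y * (n * ell X) := by rw [hXY]; ring
        _ ≤ Y * L := mul_le_mul_of_nonneg_left hn (by linarith)
    have h3 : n * ell (X - t) ≤ L + L * t / (Y - t) := by
      have : L + L * t / (Y - t) = Y * L / (Y - t) := by field_simp; ring
      rw [this, le_div_iff₀ hYt]
      linarith
    have hden : 0 < 2 * Y - (2 + L) * t := by nlinarith
    have hx0 : 0 ≤ L * t / (Y - t) := div_nonneg (mul_nonneg (by linarith) ht0) hYt.le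
    have hx2 : L * t / (Y - t) < 2 := by
      rw [div_lt_iff₀ hYt]; linarith
    have h4 : Real.exp (n * ell (X - t)) ≤
        2 * ((2 * Y - (2 - L) * t) / (2 * Y - (2 + L) * t)) := by
      calc Real.exp (n * ell (X - t)) ≤ Real.exp (L + L * t / (Y - t)) := Real.exp_le_exp.2 h3
        _ = 2 * Real.exp (L * t / (Y - t)) := by rw [Real.exp_add, hexpL]
        _ ≤ 2 * ((2 + L * t / (Y - t)) / (2 - L * t / (Y - t))) :=
            mul_le_mul_of_nonneg_left (exp_le _ hx0 hx2) (by norm_num)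
        _ = _ := by
            congr 1
            rw [div_eq_div_iff (by linarith) hden.ne']
            field_simp
            ring
    have h5 := key hL hY50 ht0 htY.le
    calc V L Y ((t : ℝ) + 1) * Real.exp (n * ell (X - t))
        ≤ V L Y ((t : ℝ) + 1) * (2 * ((2 * Y - (2 - L) * t) / (2 * Y - (2 + L) * t))) :=
          mul_le_mul_of_nonneg_left h4 hV.le
      _ = 2 * V L Y ((t : ℝ) + 1) * (2 * Y - (2 - L) * t) / (2 * Y - (2 + L) * t) := by ring
      _ ≤ (Y ^ 2 + V L Y ((t : ℝ) + 2)) * (2 * Y - (2 + L) * t) / (2 * Y - (2 + L) * t) := by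
          gcongr
      _ = Y ^ 2 + V L Y ((t : ℝ) + 2) := mul_div_cancel_right₀ _ hden.ne'
      _ = _ := by
          congr 2; ring

end Pool.Agent.W22.PS
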