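import Pool.Agent.W894.HT.MDefs
import Pool.Agent.W505.HTClean

/-!
# HM-GW: the weights of the signed graph
-/

set_option autoImplicit false

namespace Pool.Agent.W22.HMGW
open Pool.Agent.W894.HT Pool.Agent.W505.HTClean

section
variable {N : Type} [DecidableEq N]

/-- `t` and `(u, v)` are the same unordered pair -/
def Mt (u v : N) (t : N × N × Bool) : Prop := (t.1 = u ∧ t.2.1 = v) ∨ (t.1 = v ∧ t.2.1 = u)

theorem gw_cons (t : N × N × Bool) (E : List (N × N × Bool)) (u v : N) :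
    gw (A := ℤ) (t :: E) u v = (if (t.1 = u ∧ t.2.1 = v) ∨ (t.1 = v ∧ t.2.1 = u) then
      (if t.2.2 = true then (-1 : ℤ) else 1) else 0) + gw E u v := by
  unfold gw
  rw [List.map_cons, List.sum_cons]

theorem gw_zero (E : List (N × N × Bool)) (u v : N) (h : ∀ t ∈ E, ¬ Mt u v t) :
    gw (A := ℤ) E u v = 0 := by
  induction E with
  | nil => rfl
  | cons t E ih =>
    have h1 : ¬ ((t.1 = u ∧ t.2.1 = v) ∨ (t.1 = v ∧ t.2.1 = u)) := h t (by simp)
    rw [gw_cons, if_neg h1, zero_add]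
    exact ih fun s hs => h s (List.mem_cons_of_mem _ hs)

theorem gw_edge (E : List (N × N × Bool)) (hE : E.Pairwise fun t t' => ¬ Mt t.1 t.2.1 t')
    (t : N × N × Bool) (ht : t ∈ E) :
    gw (A := ℤ) E t.1 t.2.1 = if t.2.2 = true then -1 else 1 := by
  induction E with
  | nil => simp at ht
  | cons s E ih =>
    rw [List.pairwise_cons] at hE
    rw [gw_cons]
    rcases List.mem_cons.1 ht with rfl | h
    · rw [if_pos (Or.inl ⟨rfl, rfl⟩), gw_zero E _ _ hE.1, add_zero]
    · have h1 : ¬ ((s.1 = t.1 ∧ s.2.1 = t.2.1) ∨ (s.1 = t.2.1 ∧ s.2.1 = t.1)) := by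
        intro h2
        refine hE.1 t h ?_
        rcases h2 with h2 | h2
        · exact Or.inl ⟨h2.1.symm, h2.2.symm⟩
        · exact Or.inr ⟨h2.2.symm, h2.1.symm⟩
      rw [if_neg h1, zero_add]
      exact ih hE.2 h

theorem gw_symm (E : List (N × N × Bool)) (u v : N) : gw (A := ℤ) E u v = gw E v u := by
  unfold gw
  congr 1
  refine List.map_congr_left fun t _ => ?_
  congr 1
  exact propext Or.comm

end

/-! ## codes -/

/-- code of an ordered pair -/
def cc (u v : Nm) : ℕ × ℕ × ℕ × Bool × ℕ :=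
  if v.1 = 4 then (u.1, 4, 2 * u.2.1, u.2.2.2.2, u.2.2.1)
  else (u.1, v.1, 2 * v.2.1, v.2.2.2.2, if u.1 = 0 then u.2.1 else v.2.2.1)

/-- code of an unordered pair -/
def cod (u v : Nm) : ℕ × ℕ × ℕ × Bool × ℕ :=
  if u.1 < v.1 then cc u v else if v.1 < u.1 then cc v u
  else (u.1, u.1, u.2.1 + v.2.1, u.2.2.2.2 && v.2.2.2.2, min u.2.2.1 v.2.2.1)

theorem cod_symm (u v : Nm) : cod u v = cod v u := by
  unfold cod
  rcases lt_trichotomy u.1 v.1 with h | h | h
  · rw [if_pos h, if_neg (by omega), if_pos h]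
  · rw [if_neg (by omega), if_neg (by omega), if_neg (by omega), if_neg (by omega), h,
      Nat.add_comm, Bool.and_comm, Nat.min_comm]
  · rw [if_neg (by omega), if_pos h, if_pos h]

/-- codes of a gadget -/
def gC (k : ℕ) (α : Bool) (i : ℕ) : List (ℕ × ℕ × ℕ × Bool × ℕ) :=
  [(1, 1, 2 * k, α, i), (1, 3, 2 * k, α, i), (2, 3, 2 * k, α, i), (1, 2, 2 * k, α, i),
    (2, 4, 2 * k, α, i), (3, 4, 2 * k, α, i)]

/-- codes of a route -/
def rC (k : ℕ) (α : Bool) (L : List Lb) : List (ℕ × ℕ × ℕ × Bool × ℕ) :=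
  (0, 1, 2 * k, α, k) :: (L.zipIdx.flatMap fun p => gC k α p.2) ++ [(0, 1, 2 * k, α, k + 1)]

/-- code of a signed edge -/
def ce (t : Nm × Nm × Bool) : ℕ × ℕ × ℕ × Bool × ℕ := cod t.1 t.2.1

theorem gS_map (k : ℕ) (α : Bool) (i : ℕ) (a : Lb) : (gS k α i a).map ce = gC k α i := by
  simp [gS, ce, cod, cc, gC, rv, xv, yv, sh]
  omega

theorem rS_map (k : ℕ) (α : Bool) (n : Bool) (L : List Lb) :
    (rS k α n L).map ce = rC k α L := by
  unfold rS rC
  rw [List.map_append, List.map_cons, List.map_flatMap]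
  congr 1
  · congr 1
    refine List.flatMap_congr fun p _ => ?_
    exact gS_map _ _ _ _

/-- codes of the graph -/
def sC (S : Stg) : List (ℕ × ℕ × ℕ × Bool × ℕ) :=
  S.zipIdx.flatMap fun p => rC p.2 false p.1.1 ++ rC p.2 true p.1.2

theorem sE_map (S : Stg) (τ : ℕ → Bool) : (sE S τ).map ce = sC S := by
  unfold sE sC
  rw [List.map_flatMap]
  refine List.flatMap_congr fun p _ => ?_
  rw [List.map_append, rS_map, rS_map]

theorem zip_pw {X : Type} (l : List X) : l.zipIdx.Pairwise fun p q => p.2 ≠ q.2 := by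
  have h : (l.zipIdx.map Prod.snd).Nodup := by
    rw [List.zipIdx_map_snd]
    exact List.nodup_range'
  exact List.pairwise_map.1 h

theorem mem_gC {k i : ℕ} {α : Bool} {c : ℕ × ℕ × ℕ × Bool × ℕ} (h : c ∈ gC k α i) :
    c.1 ≠ 0 ∧ c.2.2.1 = 2 * k ∧ c.2.2.2.1 = α ∧ c.2.2.2.2 = i := by
  simp only [gC, List.mem_cons, List.not_mem_nil, or_false] at h
  rcases h with rfl | rfl | rfl | rfl | rfl | rfl <;> simp

theorem mem_rC {k : ℕ} {α : Bool} {L : List Lb} {c : ℕ × ℕ × ℕ × Bool × ℕ} (h : c ∈ rC k α L) :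
    c.2.2.1 = 2 * k ∧ c.2.2.2.1 = α := by
  unfold rC at h
  rw [List.cons_append, List.mem_cons, List.mem_append, List.mem_flatMap, List.mem_singleton] at h
  rcases h with rfl | ⟨p, _, h⟩ | rfl
  · exact ⟨rfl, rfl⟩
  · exact ⟨(mem_gC h).2.1, (mem_gC h).2.2.1⟩
  · exact ⟨rfl, rfl⟩

theorem nodup_gC (k : ℕ) (α : Bool) (i : ℕ) : (gC k α i).Nodup := by
  simp [gC]

theorem nodup_rC (k : ℕ) (α : Bool) (L : List Lb) : (rC k α L).Nodup := by
  unfold rC
  rw [List.cons_append, List.nodup_cons]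
  constructor
  · rw [List.mem_append, List.mem_flatMap, List.mem_singleton]
    rintro (⟨p, _, h⟩ | h)
    · exact (mem_gC h).1 rfl
    · simp at h
  · rw [List.nodup_append]
    refine ⟨?_, List.nodup_singleton _, ?_⟩
    · rw [List.nodup_flatMap]
      refine ⟨fun p _ => nodup_gC _ _ _, ?_⟩
      refine (zip_pw L).imp fun {p q} h => ?_
      intro c h1 h2
      exact h ((mem_gC h1).2.2.2.symm.trans (mem_gC h2).2.2.2)
    · intro c h1 d h2 h3
      subst h3
      rw [List.mem_flatMap] at h1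
      obtain ⟨p, _, h⟩ := h1
      rw [List.mem_singleton] at h2
      exact (mem_gC h).1 (by rw [h2])

theorem nodup_sC (S : Stg) : (sC S).Nodup := by
  unfold sC
  rw [List.nodup_flatMap]
  constructor
  · intro p _
    rw [List.nodup_append]
    refine ⟨nodup_rC _ _ _, nodup_rC _ _ _, ?_⟩
    intro c h1 d h2 h3
    subst h3
    have := (mem_rC h1).2.symm.trans (mem_rC h2).2
    simp at this
  · refine (zip_pw S).imp fun {p q} h => ?_
    intro c h1 h2
    rw [List.mem_append] at h1 h2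
    have e1 : c.2.2.1 = 2 * p.2 := by
      rcases h1 with h1 | h1
      · exact (mem_rC h1).1
      · exact (mem_rC h1).1
    have e2 : c.2.2.1 = 2 * q.2 := by
      rcases h2 with h2 | h2
      · exact (mem_rC h2).1
      · exact (mem_rC h2).1
    omega

theorem pw_sE (S : Stg) (τ : ℕ → Bool) :
    (sE S τ).Pairwise fun t t' => ¬ Mt t.1 t.2.1 t' := by
  have h : ((sE S τ).map ce).Nodup := by
    rw [sE_map]
    exact nodup_sC S
  refine (List.pairwise_map.1 h).imp fun {t t'} h1 h2 => h1 ?_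
  unfold ce
  rcases h2 with h2 | h2
  · rw [h2.1, h2.2]
  · rw [h2.1, h2.2]
    exact cod_symm _ _

/-! ## membership -/

theorem mem_sE_EE {S : Stg} {τ : ℕ → Bool} {t : Nm × Nm × Bool} (h : t ∈ sE S τ) :
    (t.1, t.2.1) ∈ EE S := by
  have h0 : (sE S τ).map (fun t => (t.1, t.2.1)) = EE S := by
    unfold sE EE
    rw [List.map_flatMap]
    refine List.flatMap_congr fun p _ => ?_
    have h1 : ∀ (k : ℕ) (α n : Bool) (L : List Lb),
        (rS k α n L).map (fun t => (t.1, t.2.1)) = rE k α L := by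
      intro k α n L
      unfold rS rE
      rw [List.map_append, List.map_cons, List.map_flatMap]
      rfl
    rw [List.map_append, h1, h1]
  rw [← h0]
  exact List.mem_map_of_mem (f := fun t : Nm × Nm × Bool => (t.1, t.2.1)) h

theorem mem_gS {S : Stg} {τ : ℕ → Bool} {k i : ℕ} {α : Bool} {a : Lb} (h : (k, α, i, a) ∈ gads S)
    {t : Nm × Nm × Bool} (ht : t ∈ gS k α i a) : t ∈ sE S τ := by
  obtain ⟨st, h1, h2⟩ := mem_gads.1 h
  unfold sE
  rw [List.mem_flatMap]
  refine ⟨(st, k), List.mem_zipIdx_iff_getElem?.2 h1, ?_⟩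
  have h3 : ∀ (n : Bool), t ∈ rS k α n (rt α st) := by
    intro n
    unfold rS
    rw [List.cons_append, List.mem_cons, List.mem_append, List.mem_flatMap]
    exact Or.inr (Or.inl ⟨(a, i), List.mem_zipIdx_iff_getElem?.2 h2, ht⟩)
  rw [List.mem_append]
  cases α
  · exact Or.inl (h3 _)
  · exact Or.inr (h3 _)

theorem main : S_GW := by
  intro S τ
  have h3 : ∀ t ∈ sE S τ, gw (A := ℤ) (sE S τ) t.1 t.2.1 = if t.2.2 = true then -1 else 1 :=
    fun t ht => gw_edge _ (pw_sE S τ) t ht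
  refine ⟨fun u v => gw_symm _ u v, ?_, h3, ?_⟩
  · intro u v h
    refine gw_zero _ _ _ fun t ht hm => ?_
    have h1 := mem_sE_EE ht
    have h2 : adS S u v = true := by
      rw [adS_iff]
      rcases hm with hm | hm
      · rw [hm.1, hm.2] at h1
        exact Or.inl h1
      · rw [hm.1, hm.2] at h1
        exact Or.inr h1
    rw [h] at h2
    exact Bool.noConfusion h2
  · rintro ⟨k, α, i, a⟩ hg
    have key : ∀ (u v : Nm) (b : Bool), (u, v, b) ∈ gS k α i a →
        gw (A := ℤ) (sE S τ) u v = if b = true then -1 else 1 :=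
      fun u v b h => h3 (u, v, b) (mem_gS hg h)
    refine ⟨?_, ?_, ?_, ?_, ?_, ?_⟩
    · rw [gw_symm, key _ _ true (by simp [gS])]
      rfl
    · rw [key _ _ false (by simp [gS])]
      rfl
    · rw [gw_symm, key _ _ false (by simp [gS])]
      rfl
    · rw [key _ _ false (by simp [gS])]
      rfl
    · rw [key _ _ true (by simp [gS])]
      rfl
    · rw [key _ _ false (by simp [gS])]
      rfl

end Pool.Agent.W22.HMGW
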