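import Pool.Agent.W22.KPT3

/-! KP-LOC3 -/

namespace Pool.Agent.W22.KPLoc3

/-- KP-LOC3 -/
theorem main (hs : Pool.Agent.W810.KP.S_sym) : Pool.Agent.W810.KP.S_loc3 := Pool.Agent.W22.KP.loc3 hs

end Pool.Agent.W22.KPLoc3
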