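import Pool.Agent.W22.KPT3

/-! KP-PAIR -/

namespace Pool.Agent.W22.KPPair

/-- KP-PAIR, no hypothesis needed -/
theorem main : Pool.Agent.W810.KP.S_pair := Pool.Agent.W22.KP.pair

end Pool.Agent.W22.KPPair
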