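import Pool.Agent.W810.KP.Defs
import Pool.Agent.H12R2.Sep.LocP

/-! Common lemmas for KP-LOC3 and KP-PAIR: `T3 e g h F` is a `Flip` event. -/

namespace Pool.Agent.W22.KP

open H974 H12S H973N Finset
open Pool.Agent.W810.KP

theorem con_iff (e : Edg) (F : Finset Edg) : W810.KP.Con e F ↔ Cn {src e} {tgt e} ((↑F : Set Edg) \ {e}) := by
  unfold W810.KP.Con Cn
  rw [Finset.coe_erase]
  simp

theorem pf_iff {e g : Edg} (h : e ≠ g) (F : Finset Edg) :
    Pf (W810.KP.Con e) g F ↔ Pv {src e} {tgt e} g ((↑F : Set Edg) \ {e}) := by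
  unfold Pf Pv
  rw [con_iff, con_iff]
  have e1 : (↑(insert g F) : Set Edg) \ {e} = insert g ((↑F : Set Edg) \ {e}) := by
    ext x
    simp only [Finset.coe_insert, Set.mem_sdiff, Set.mem_insert_iff, Set.mem_singleton_iff]
    constructor
    · rintro ⟨h1 | h1, h2⟩
      · exact Or.inl h1
      · exact Or.inr ⟨h1, h2⟩
    · rintro (h1 | ⟨h1, h2⟩)
      · exact ⟨Or.inl h1, fun h3 => h (h3.symm.trans h1)⟩
      · exact ⟨Or.inr h1, h2⟩
  have e2 : (↑(F.erase g) : Set Edg) \ {e} = ((↑F : Set Edg) \ {e}) \ {g} := by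
    ext x
    simp only [Finset.coe_erase, Set.mem_sdiff, Set.mem_singleton_iff]
    tauto
  rw [e1, e2]

theorem t3_iff {e g h : Edg} (heg : e ≠ g) (heh : e ≠ h) (F : Finset Edg) :
    T3 e g h F ↔ Flip {src e} {tgt e} g h ((↑F : Set Edg) \ {e}) := by
  unfold T3 Flip
  rw [pf_iff heg, pf_iff heg]
  have e1 : (↑(insert h F) : Set Edg) \ {e} = insert h ((↑F : Set Edg) \ {e}) := by
    ext x
    simp only [Finset.coe_insert, Set.mem_sdiff, Set.mem_insert_iff, Set.mem_singleton_iff]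
    constructor
    · rintro ⟨h1 | h1, h2⟩
      · exact Or.inl h1
      · exact Or.inr ⟨h1, h2⟩
    · rintro (h1 | ⟨h1, h2⟩)
      · exact ⟨Or.inl h1, fun h3 => heh (h3.symm.trans h1)⟩
      · exact ⟨Or.inr h1, h2⟩
  have e2 : (↑(F.erase h) : Set Edg) \ {e} = ((↑F : Set Edg) \ {e}) \ {h} := by
    ext x
    simp only [Finset.coe_erase, Set.mem_sdiff, Set.mem_singleton_iff]
    tauto
  rw [e1, e2]

/-- the ends of an edge -/
theorem ends (β : Edg) : ∀ v ∈ ({src β} : Set Vtx) ∪ {tgt β},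
    β.1 ≤ v.1 ∧ v.1 ≤ β.1 + 1 ∧ β.2.1 ≤ v.2 ∧ v.2 ≤ β.2.1 + 1 := by
  intro v hv
  obtain ⟨x, y, _ | _⟩ := β
  · rcases hv with hv | hv
    · rw [Set.mem_singleton_iff] at hv
      subst hv
      simp only [src_mk]
      omega
    · rw [Set.mem_singleton_iff] at hv
      subst hv
      simp only [tgt_false]
      omega
  · rcases hv with hv | hv
    · rw [Set.mem_singleton_iff] at hv
      subst hv
      simp only [src_mk]
      omega
    · rw [Set.mem_singleton_iff] at hv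
      subst hv
      simp only [tgt_true]
      omega

theorem not_mem_blk {β : Edg} {c : ℤ × ℤ} {s : ℕ}
    (h : (s:ℤ) + 1 ≤ |β.1 - c.1| ∨ (s:ℤ) + 1 ≤ |β.2.1 - c.2|) : β ∉ blk c s := by
  unfold blk
  obtain ⟨x, y, _ | _⟩ := β
  · rw [mem_RE_false]
    simp only at h ⊢
    rw [le_abs, le_abs] at h
    omega
  · rw [mem_RE_true]
    simp only at h ⊢
    rw [le_abs, le_abs] at h
    omega

theorem off_blk {β : Edg} {c : ℤ × ℤ} {s : ℕ}
    (h : (s:ℤ) + 1 ≤ |β.1 - c.1| ∨ (s:ℤ) + 1 ≤ |β.2.1 - c.2|) :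
    ∀ v ∈ ({src β} : Set Vtx) ∪ {tgt β}, ¬ (|v.1 - c.1| < s ∧ |v.2 - c.2| < s) := by
  intro v hv
  have := ends β v hv
  rw [abs_lt, abs_lt]
  rw [le_abs, le_abs] at h
  omega

/-- removing the edge `β` from the space -/
theorem pr_erase {q : ℝ} {S : Finset Edg} {β : Edg} (A : Set Edg → Prop) :
    PQ q S (fun F => A ((↑F : Set Edg) \ {β})) = PQ q (S.erase β) (fun F => A ↑F) := by
  have h1 : PQ q S (fun F => A ((↑F : Set Edg) \ {β})) =
      PQ q (S.erase β) (fun F => A ((↑F : Set Edg) \ {β})) := by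
    refine Pr_local (Finset.erase_subset _ _) ?_
    intro F hF
    have : (↑(F ∩ S.erase β) : Set Edg) \ {β} = (↑F : Set Edg) \ {β} := by
      ext x
      simp only [Finset.coe_inter, Finset.coe_erase, Set.mem_sdiff, Set.mem_inter_iff,
        Set.mem_singleton_iff, Finset.mem_coe]
      have := @hF x
      tauto
    rw [this]
  rw [h1]
  refine Pr_congr fun F hF => ?_
  have : (↑F : Set Edg) \ {β} = (↑F : Set Edg) := by
    ext x
    simp only [Set.mem_sdiff, Set.mem_singleton_iff, Finset.mem_coe, and_iff_left_iff_imp]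
    intro hx h
    subst h
    exact (Finset.mem_erase.mp (hF hx)).1 rfl
  rw [this]

theorem bf_iff {β : Edg} {b : Finset Edg} (hb : β ∉ b) (F : Finset Edg) :
    Bf (W810.KP.Con β) b F ↔ BPv {src β} {tgt β} b ((↑F : Set Edg) \ {β}) := by
  unfold Bf BPv
  rw [con_iff, con_iff]
  have e1 : (↑(F ∪ b) : Set Edg) \ {β} = ((↑F : Set Edg) \ {β}) ∪ ↑b := by
    ext x
    simp only [Finset.coe_union, Set.mem_sdiff, Set.mem_union, Set.mem_singleton_iff,
      Finset.mem_coe]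
    constructor
    · rintro ⟨h1 | h1, h2⟩
      · exact Or.inl ⟨h1, h2⟩
      · exact Or.inr h1
    · rintro (⟨h1, h2⟩ | h1)
      · exact ⟨Or.inl h1, h2⟩
      · exact ⟨Or.inr h1, fun h3 => hb (h3 ▸ h1)⟩
  have e2 : (↑(F \ b) : Set Edg) \ {β} = ((↑F : Set Edg) \ {β}) \ ↑b := by
    ext x
    simp only [Finset.coe_sdiff, Set.mem_sdiff, Set.mem_singleton_iff, Finset.mem_coe]
    tauto
  rw [e1, e2]

/-- **KP-PAIR** (without any hypothesis) -/
theorem pair : S_pair := by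
  intro q h0 h1 S β g h c s k hk hS hβ h2 h3 h4 h5 hd
  have hβb : β ∉ blk c s := not_mem_blk hβ
  have i1 := abs_le.mp (le_refl |g.1 - c.1|)
  have i2 := abs_le.mp (le_refl |g.2.1 - c.2|)
  have i3 := abs_le.mp (le_refl |h.1 - c.1|)
  have i4 := abs_le.mp (le_refl |h.2.1 - c.2|)
  have hg : β ≠ g := by
    rintro rfl
    rcases hβ with hβ | hβ <;> omega
  have hh : β ≠ h := by
    rintro rfl
    rcases hβ with hβ | hβ <;> omega
  have e1 : PQ q S (T3 β g h) = PQ q (S.erase β) (fun F => Flip {src β} {tgt β} g h ↑F) := by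
    rw [← pr_erase]
    exact Pr_congr fun F _ => t3_iff hg hh F
  have e2 : PQ q S (Bf (W810.KP.Con β) (blk c s)) =
      PQ q (S.erase β) (fun F => BPv {src β} {tgt β} (blk c s) ↑F) := by
    rw [← pr_erase]
    exact Pr_congr fun F _ => bf_iff hβb F
  rw [e1, e2]
  refine two_in_blk h0 h1 hk ?_ (off_blk hβ) h2 h3 h4 h5 hd
  intro x hx
  exact Finset.mem_erase.mpr ⟨fun h => hβb (h ▸ hx), hS hx⟩

theorem dst_comm (e g : Edg) : dst e g = dst g e := by
  unfold dst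
  rw [abs_sub_comm, abs_sub_comm e.2.1]

theorem dst_or {e g : Edg} {n : ℤ} (h : n ≤ dst e g) : n ≤ |e.1 - g.1| ∨ n ≤ |e.2.1 - g.2.1| :=
  le_max_iff.mp h

theorem ebx_disj {e g : Edg} {k : ℕ} (h : 2 * (k:ℤ) + 2 ≤ dst e g) :
    Disjoint (ebx e k) (ebx g k) := by
  have hdist := dst_or h
  rw [Finset.disjoint_left]
  unfold ebx
  rintro ⟨x, y, _ | _⟩ g1 g2
  · rw [mem_RE_false] at g1 g2
    rcases hdist with g | g
    · rw [le_abs] at g; omega
    · rw [le_abs] at g; omega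
  · rw [mem_RE_true] at g1 g2
    rcases hdist with g | g
    · rw [le_abs] at g; omega
    · rw [le_abs] at g; omega

theorem ne_of_dst {e g : Edg} {k : ℕ} (h : 2 * (k:ℤ) + 2 ≤ dst e g) : e ≠ g := by
  rintro rfl
  rcases dst_or h with h | h <;> simp at h <;> omega

theorem off_ebx {e g : Edg} {k : ℕ} (h : 2 * (k:ℤ) + 2 ≤ dst e g) :
    ∀ v ∈ ({src e} : Set Vtx) ∪ {tgt e},
      ¬ (g.1 - k < v.1 ∧ v.1 < g.1 + k ∧ g.2.1 - k < v.2 ∧ v.2 < g.2.1 + k) := by
  intro v hv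
  have := ends e v hv
  have h' := dst_or h
  rw [le_abs, le_abs] at h'
  omega

/-- local event around the second edge -/
theorem t3_A4 {e g h : Edg} {k : ℕ} (hk : 1 ≤ k) (h1 : 2 * (k:ℤ) + 2 ≤ dst e g)
    (h2 : 2 * (k:ℤ) + 2 ≤ dst e h) (h3 : 2 * (k:ℤ) + 2 ≤ dst g h) {F : Finset Edg}
    (hT : T3 e g h F) : A4e k g ↑F := by
  rw [t3_iff (ne_of_dst h1) (ne_of_dst h2)] at hT
  have hn : h ∉ ebx g k := fun hh => (Finset.disjoint_left.mp (ebx_disj h3)) hh (mem_ebx hk)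
  have he : e ∉ ebx g k := fun hh => (Finset.disjoint_left.mp (ebx_disj h1)) (mem_ebx hk) hh
  have h4 : A4e k g ((↑F : Set Edg) \ {e}) :=
    flip_1 (ne_of_dst h3) (mem_ebx hk) hn (off_ebx h1) hT
  refine (A4e_local ?_).mp h4
  ext x
  simp only [Set.mem_inter_iff, Set.mem_sdiff, Set.mem_singleton_iff, Finset.mem_coe]
  constructor
  · rintro ⟨⟨k1, -⟩, k2⟩
    exact ⟨k1, k2⟩
  · rintro ⟨k1, k2⟩
    exact ⟨⟨k1, fun h => he (h ▸ k2)⟩, k2⟩

/-- **KP-LOC3** -/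
theorem loc3 (hs : S_sym) : S_loc3 := by
  intro q h0 h1 S e g h k hk d1 d2 d3 b1 b2 b3
  have b1' : ebx e k ⊆ S := b1
  have b2' : ebx g k ⊆ S := b2
  have b3' : ebx h k ⊆ S := b3
  have d1' : 2 * (k:ℤ) + 2 ≤ dst g e := by rw [dst_comm]; exact d1
  have d3' : 2 * (k:ℤ) + 2 ≤ dst h g := by rw [dst_comm]; exact d3
  have s1 : PQ q S (T3 e g h) ≤
      PQ q S (fun F => A4e k e ↑F ∧ (A4e k g ↑F ∧ A4e k h ↑F)) := by
    apply Pr_mono (okq h0 h1)
    intro F _ hF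
    have hsym := hs e g h (ne_of_dst d1) (ne_of_dst d2) (ne_of_dst d3) F
    exact ⟨t3_A4 hk d1' d3 d2 (hsym.1.mp hF), t3_A4 hk d1 d2 d3 hF,
      t3_A4 hk d2 d1 d3' (hsym.2.mp hF)⟩
  have s2 : PQ q S (fun F => A4e k e ↑F ∧ (A4e k g ↑F ∧ A4e k h ↑F)) ≤
      a4 q k * PQ q S (fun F => A4e k g ↑F ∧ A4e k h ↑F) := by
    refine pr_A4e_and h0 h1 b1' (T := S \ ebx e k) Finset.sdiff_subset
      Finset.disjoint_sdiff (B := fun F => A4e k g ↑F ∧ A4e k h ↑F) ?_
    intro F hF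
    exact and_congr (A4e_local (LP_inter_aux hF (ebx_disj d1)))
      (A4e_local (LP_inter_aux hF (ebx_disj d2)))
  have s3 : PQ q S (fun F => A4e k g ↑F ∧ A4e k h ↑F) ≤
      a4 q k * PQ q S (fun F => A4e k h ↑F) := by
    refine pr_A4e_and h0 h1 b2' (T := S \ ebx g k) Finset.sdiff_subset
      Finset.disjoint_sdiff (B := fun F => A4e k h ↑F) ?_
    intro F hF
    exact A4e_local (LP_inter_aux hF (ebx_disj d3))
  have s4 : PQ q S (fun F => A4e k h ↑F) ≤ a4 q k := pr_A4e h0 h1 b3'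
  have n := LP_a4_nonneg h0 h1 k
  calc PQ q S (T3 e g h) ≤ _ := s1
    _ ≤ _ := s2
    _ ≤ a4 q k * (a4 q k * a4 q k) :=
        mul_le_mul_of_nonneg_left (s3.trans (mul_le_mul_of_nonneg_left s4 n)) n
    _ = _ := by ring

end Pool.Agent.W22.KP
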