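import Pool.Agent.W674.LVF.Stm3
import Pool.Agent.W571.LVF.Ibp
import Pool.Agent.W505.LVF.LVFarea

/-! # LVF-stokes: Stokes' theorem on a cube for Lipschitz functions -/

set_option autoImplicit false

open MeasureTheory Set Filter Topology
open scoped ENNReal NNReal
open Pool.Agent.W674.LVR Pool.Agent.W674.LVF

namespace Pool.Agent.W22.LVFstokes

/-- the clamp -/
noncomputable def cl (r x : ℝ) : ℝ := max (-r) (min r x)

/-- the clamp, coordinatewise -/
noncomputable def clp {m : ℕ} (r : ℝ) (u : Rn m) : Rn m := fun i => cl r (u i)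

lemma cl_lip (r : ℝ) : LipschitzWith 1 (cl r) := (LipschitzWith.id.const_min r).const_max (-r)

lemma clp_lip {m : ℕ} (r : ℝ) : LipschitzWith 1 (clp (m := m) r) := by
  refine LipschitzWith.of_dist_le_mul fun x y => ?_
  rw [dist_pi_le_iff (by positivity)]
  intro i
  refine ((cl_lip r).dist_le_mul (x i) (y i)).trans ?_
  exact mul_le_mul_of_nonneg_left (dist_le_pi_dist x y i) (by positivity)

lemma cl_of_gt {r x : ℝ} (hr : 0 < r) (h : r ≤ x) : cl r x = r := by
  unfold cl
  rw [min_eq_left h]
  exact max_eq_right (by linarith)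

lemma cl_of_lt {r x : ℝ} (hr : 0 < r) (h : x ≤ -r) : cl r x = -r := by
  unfold cl
  rw [min_eq_right (by linarith)]
  exact max_eq_left h

lemma cl_of_mem {r x : ℝ} (h : |x| ≤ r) : cl r x = x := by
  unfold cl
  rw [abs_le] at h
  rw [min_eq_right h.2]
  exact max_eq_right h.1

lemma abs_cl_le {r : ℝ} (hr : 0 < r) (x : ℝ) : |cl r x| ≤ r := by
  unfold cl
  rw [abs_le]
  exact ⟨le_max_left _ _, max_le (by linarith) (min_le_left _ _)⟩

/-- the cut-off -/
noncomputable def chi {m : ℕ} (r : ℝ) (u : Rn m) : ℝ := max 0 (1 - ‖u - clp r u‖)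

lemma chi_lip {m : ℕ} (r : ℝ) : LipschitzWith 2 (chi (m := m) r) := by
  have h1 : LipschitzWith (1 + 1) (fun u : Rn m => u - clp r u) :=
    LipschitzWith.id.sub (clp_lip r)
  have h2 : LipschitzWith (1 * (1 + 1)) (fun u : Rn m => ‖u - clp r u‖) :=
    lipschitzWith_one_norm.comp h1
  have h3 : LipschitzWith 2 (fun u : Rn m => 1 - ‖u - clp r u‖) := by
    refine LipschitzWith.of_dist_le_mul fun x y => ?_
    have h4 := h2.dist_le_mul x y
    rw [Real.dist_eq] at h4 ⊢
    have h5 : (1 - ‖x - clp r x‖) - (1 - ‖y - clp r y‖) =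
      -(‖x - clp r x‖ - ‖y - clp r y‖) := by ring
    rw [h5, abs_neg]
    refine h4.trans (le_of_eq ?_)
    norm_num
  exact h3.const_max 0

lemma chi_nonneg {m : ℕ} (r : ℝ) (u : Rn m) : 0 ≤ chi r u := le_max_left _ _

lemma chi_le {m : ℕ} (r : ℝ) (u : Rn m) : chi r u ≤ 1 :=
  max_le zero_le_one (by linarith [norm_nonneg (u - clp r u)])

/-- the cut-off function `chi * (g ∘ clamp)` -/
noncomputable def FF {m : ℕ} (r : ℝ) (g : Rn m → ℝ) (u : Rn m) : ℝ := chi r u * g (clp r u)

/-- the derivative of the cut-off -/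
noncomputable def bb (r x : ℝ) : ℝ :=
  -(Ioo r (r + 1)).indicator (fun _ => (1 : ℝ)) x + (Ioo (-r - 1) (-r)).indicator (fun _ => 1) x

lemma clp_mem {m : ℕ} {r : ℝ} (hr : 0 < r) (u : Rn m) : clp r u ∈ cube m r := by
  constructor
  · intro i
    exact (abs_le.1 (abs_cl_le hr (u i))).1
  · intro i
    exact (abs_le.1 (abs_cl_le hr (u i))).2

lemma cube_compact (m : ℕ) (r : ℝ) : IsCompact (cube m r) := isCompact_Icc

lemma mem_cube {m : ℕ} {r : ℝ} {u : Rn m} : u ∈ cube m r ↔ ∀ i, |u i| ≤ r := by
  constructor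
  · intro h i
    exact abs_le.2 ⟨h.1 i, h.2 i⟩
  · intro h
    exact ⟨fun i => (abs_le.1 (h i)).1, fun i => (abs_le.1 (h i)).2⟩

lemma FF_lip {m : ℕ} {r : ℝ} (hr : 0 < r) {g : Rn m → ℝ} (hg : Lip g) : Lip (FF r g) := by
  obtain ⟨K, hK⟩ := hg
  obtain ⟨C, hC⟩ := (cube_compact m r).exists_bound_of_continuousOn hK.continuous.continuousOn
  set M : ℝ≥0 := (max C 0).toNNReal with hM
  have hMC : C ≤ (M : ℝ) := (le_max_left _ _).trans (Real.le_coe_toNNReal _)
  refine ⟨K + 2 * M, LipschitzWith.of_dist_le_mul fun x y => ?_⟩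
  have h1 := (hK.comp (clp_lip (m := m) r)).dist_le_mul x y
  have h2 := (chi_lip (m := m) r).dist_le_mul x y
  rw [Real.dist_eq] at h1 h2 ⊢
  have h3 : |g (clp r y)| ≤ M := ((Real.norm_eq_abs _).symm.le.trans
    (hC _ (clp_mem hr y))).trans hMC
  have h4 : |chi r x| ≤ 1 := abs_le.2 ⟨by linarith [chi_nonneg r x], chi_le r x⟩
  have h5 : FF r g x - FF r g y = chi r x * (g (clp r x) - g (clp r y)) +
      (chi r x - chi r y) * g (clp r y) := by
    unfold FF
    ring
  rw [h5]
  refine (abs_add_le _ _).trans ?_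
  rw [abs_mul, abs_mul]
  have h6 : |chi r x| * |g (clp r x) - g (clp r y)| ≤ 1 * (K * dist x y) := by
    refine mul_le_mul h4 ?_ (abs_nonneg _) zero_le_one
    refine h1.trans (le_of_eq ?_)
    push_cast
    ring
  have h7 : |chi r x - chi r y| * |g (clp r y)| ≤ (2 * dist x y) * M :=
    mul_le_mul h2 h3 (abs_nonneg _) (by positivity)
  push_cast
  nlinarith

lemma FF_supp {m : ℕ} {r : ℝ} (hr : 0 < r) (g : Rn m → ℝ) : HasCompactSupport (FF r g) := by
  refine HasCompactSupport.intro (isCompact_closedBall (0 : Rn m) (r + 1)) fun x hx => ?_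
  rw [mem_closedBall_zero_iff, not_le] at hx
  have h1 : ‖clp r x‖ ≤ r := by
    rw [pi_norm_le_iff_of_nonneg hr.le]
    intro i
    rw [Real.norm_eq_abs]
    exact abs_cl_le hr _
  have h2 : ‖x‖ ≤ ‖x - clp r x‖ + ‖clp r x‖ := by
    have := norm_add_le (x - clp r x) (clp r x)
    rwa [sub_add_cancel] at this
  have h3 : chi r x = 0 := max_eq_left (by linarith)
  unfold FF
  rw [h3, zero_mul]

lemma P_lip {m : ℕ} {r : ℝ} {p : Rn m → ℝ} (hp : Lip p) : Lip (fun u => p (clp r u)) := by
  obtain ⟨K, hK⟩ := hp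
  exact ⟨_, hK.comp (clp_lip r)⟩

lemma norm_single_one {m : ℕ} (j : Fin m) : ‖(Pi.single j 1 : Rn m)‖ ≤ 1 := by
  rw [pi_norm_le_iff_of_nonneg zero_le_one]
  intro i
  by_cases h : i = j
  · subst h
    simp
  · simp [Pi.single_eq_of_ne h]

lemma jac_meas {m : ℕ} (G : Fin m → Rn m → ℝ) : Measurable (jac G) := by
  unfold jac
  simp only [Matrix.det_apply, Matrix.of_apply]
  refine Finset.measurable_sum _ fun σ _ => ?_
  refine Measurable.const_smul ?_ _
  refine Finset.measurable_prod _ fun i _ => ?_
  exact measurable_fderiv_apply_const ℝ _ _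

lemma jac_bdd {m : ℕ} (G : Fin m → Rn m → ℝ) (hG : ∀ j, Lip (G j)) :
    ∃ C : ℝ, ∀ u, |jac G u| ≤ C := by
  choose K hK using hG
  refine ⟨(Fintype.card (Fin m)).factorial • (((Finset.univ.sup K : ℝ≥0) : ℝ)) ^
    Fintype.card (Fin m), fun u => ?_⟩
  unfold jac
  have h := Matrix.det_le (A := Matrix.of fun i j => fderiv ℝ (G i) u (Pi.single j 1))
    (abv := AbsoluteValue.abs) (x := ((Finset.univ.sup K : ℝ≥0) : ℝ)) (fun i j => ?_)
  · exact h
  · show |fderiv ℝ (G i) u (Pi.single j 1)| ≤ _
    rw [← Real.norm_eq_abs]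
    have h1 : ‖fderiv ℝ (G i) u‖ ≤ K i := norm_fderiv_le_of_lipschitz ℝ (hK i)
    have h2 : (K i : ℝ) ≤ ((Finset.univ.sup K : ℝ≥0) : ℝ) := by
      exact_mod_cast Finset.le_sup (f := K) (Finset.mem_univ i)
    calc ‖fderiv ℝ (G i) u (Pi.single j 1)‖ ≤ ‖fderiv ℝ (G i) u‖ * ‖(Pi.single j 1 : Rn m)‖ :=
          ContinuousLinearMap.le_opNorm _ _
      _ ≤ (K i : ℝ) * 1 := mul_le_mul h1 (norm_single_one j) (norm_nonneg _) (by positivity)
      _ ≤ _ := by rw [mul_one]; exact h2

lemma jac_intOn {m : ℕ} (r : ℝ) (G : Fin m → Rn m → ℝ) (hG : ∀ j, Lip (G j)) :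
    IntegrableOn (jac G) (cube m r) := by
  obtain ⟨C, hC⟩ := jac_bdd G hG
  refine Measure.integrableOn_of_bounded (M := C) (cube_compact m r).measure_lt_top.ne
    (jac_meas G).aestronglyMeasurable (Eventually.of_forall fun u => ?_)
  rw [Real.norm_eq_abs]
  exact hC u

/-- the insertion is an affine map -/
lemma ins_hasFDerivAt {n : ℕ} (i : Fin (n + 1)) (x : ℝ) (w : Rn n) :
    HasFDerivAt (fun v : Rn n => (i.insertNth x v : Rn (n + 1)))
      (ContinuousLinearMap.pi (Fin.insertNth (α := fun _ => Rn n →L[ℝ] ℝ) i 0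
        (fun k => ContinuousLinearMap.proj k))) w := by
  rw [hasFDerivAt_pi]
  rw [Fin.forall_iff_succAbove i]
  constructor
  · simp only [Fin.insertNth_apply_same]
    exact hasFDerivAt_const x w
  · intro k
    simp only [Fin.insertNth_apply_succAbove]
    exact (ContinuousLinearMap.proj (R := ℝ) (φ := fun _ : Fin n => ℝ) k).hasFDerivAt

lemma insL_single {n : ℕ} (i : Fin (n + 1)) (k : Fin n) :
    (ContinuousLinearMap.pi (Fin.insertNth (α := fun _ => Rn n →L[ℝ] ℝ) i 0
        (fun k => ContinuousLinearMap.proj k))) (Pi.single k (1 : ℝ) : Rn n) =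
      (Pi.single (i.succAbove k) 1 : Rn (n + 1)) := by
  funext j
  rw [ContinuousLinearMap.pi_apply]
  revert j
  rw [Fin.forall_iff_succAbove i]
  constructor
  · rw [Fin.insertNth_apply_same, Pi.single_eq_of_ne (Fin.succAbove_ne i k).symm]
    rfl
  · intro l
    rw [Fin.insertNth_apply_succAbove, ContinuousLinearMap.proj_apply]
    by_cases h : l = k
    · subst h
      rw [Pi.single_eq_same, Pi.single_eq_same]
    · rw [Pi.single_eq_of_ne h, Pi.single_eq_of_ne (fun h' => h (Fin.succAbove_right_injective h'))]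

lemma ins_lip {n : ℕ} (i : Fin (n + 1)) (x : ℝ) :
    LipschitzWith 1 (fun v : Rn n => (i.insertNth x v : Rn (n + 1))) := by
  refine LipschitzWith.of_dist_le_mul fun v w => ?_
  rw [dist_pi_le_iff (by positivity), Fin.forall_iff_succAbove i]
  constructor
  · rw [Fin.insertNth_apply_same, Fin.insertNth_apply_same, dist_self]
    positivity
  · intro k
    rw [Fin.insertNth_apply_succAbove, Fin.insertNth_apply_succAbove, NNReal.coe_one, one_mul]
    exact dist_le_pi_dist v w k

/-- the minors are the Jacobians of the slices -/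
lemma minor_eq {n : ℕ} {r : ℝ} (π : Fin n → Rn (n + 1) → ℝ) (i : Fin (n + 1)) (u : Rn (n + 1))
    (hP : ∀ j, DifferentiableAt ℝ (fun x => π j (clp r x)) u)
    (hu : ∀ k, |u (i.succAbove k)| < r) :
    (Matrix.of fun (j : Fin n) (k : Fin n) =>
      fderiv ℝ (fun x => π j (clp r x)) u (Pi.single (i.succAbove k) 1)).det =
      jac (fun j (v : Rn n) => π j (i.insertNth (cl r (u i)) v)) (i.removeNth u) := by
  unfold jac
  congr 1
  ext j k
  rw [Matrix.of_apply, Matrix.of_apply]
  set w : Rn n := i.removeNth u with hw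
  have hwu : (i.insertNth (u i) w : Rn (n + 1)) = u := Fin.insertNth_self_removeNth i u
  have h1 : HasFDerivAt (fun x => π j (clp r x)) (fderiv ℝ (fun x => π j (clp r x)) u)
      (i.insertNth (u i) w : Rn (n + 1)) := by
    rw [hwu]
    exact (hP j).hasFDerivAt
  have h2 := h1.comp w (ins_hasFDerivAt i (u i) w)
  have h3 : (fun v : Rn n => π j (i.insertNth (cl r (u i)) v)) =ᶠ[𝓝 w]
      ((fun x => π j (clp r x)) ∘ fun v : Rn n => (i.insertNth (u i) v : Rn (n + 1))) := by
    have h4 : ∀ᶠ v : Rn n in 𝓝 w, ∀ k, |v k| < r := by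
      rw [eventually_all]
      intro k
      have h5 : ContinuousAt (fun v : Rn n => |v k|) w :=
        (continuous_abs.comp (continuous_apply k)).continuousAt
      exact h5.eventually_lt continuousAt_const (hu k)
    filter_upwards [h4] with v hv
    show _ = π j (clp r (i.insertNth (u i) v))
    congr 1
    funext l
    revert l
    rw [Fin.forall_iff_succAbove i]
    constructor
    · rw [Fin.insertNth_apply_same]
      show _ = cl r ((i.insertNth (u i) v : Rn (n + 1)) i)
      rw [Fin.insertNth_apply_same]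
    · intro k
      rw [Fin.insertNth_apply_succAbove]
      show _ = cl r ((i.insertNth (u i) v : Rn (n + 1)) (i.succAbove k))
      rw [Fin.insertNth_apply_succAbove, cl_of_mem (hv k).le]
  rw [h3.fderiv_eq, h2.fderiv, ContinuousLinearMap.comp_apply, insL_single]

/-- the derivative along a coordinate -/
lemma fderiv_single {m : ℕ} {F : Rn m → ℝ} {u : Rn m} (hF : DifferentiableAt ℝ F u)
    (i : Fin m) {D : ℝ} {f : ℝ → ℝ} (hf : HasDerivAt f D 0)
    (h : ∀ᶠ t in 𝓝 (0 : ℝ), F (u + t • (Pi.single i 1 : Rn m)) = f t) :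
    fderiv ℝ F u (Pi.single i 1) = D := by
  have h1 : HasLineDerivAt ℝ F (fderiv ℝ F u (Pi.single i 1)) u (Pi.single i 1) :=
    hF.hasFDerivAt.hasLineDerivAt _
  have h2 : HasDerivAt (fun t : ℝ => F (u + t • (Pi.single i 1 : Rn m))) D 0 :=
    hf.congr_of_eventuallyEq h
  exact HasDerivAt.unique h1 h2

lemma clp_add_single {m : ℕ} {r : ℝ} (hr : 0 < r) (u : Rn m) (i : Fin m) (hi : r < |u i|) :
    ∀ᶠ t in 𝓝 (0 : ℝ), clp r (u + t • (Pi.single i 1 : Rn m)) = clp r u := by
  have h1 : ∀ᶠ t in 𝓝 (0 : ℝ), cl r (u i + t) = cl r (u i) := by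
    rcases lt_abs.1 hi with h | h
    · have h2 : ContinuousAt (fun t : ℝ => u i + t) 0 := by fun_prop
      filter_upwards [continuousAt_const.eventually_lt h2 (by simpa using h)] with t ht
      rw [cl_of_gt hr (le_of_lt ht), cl_of_gt hr h.le]
    · have h2 : ContinuousAt (fun t : ℝ => u i + t) 0 := by fun_prop
      have h3 : u i < -r := by linarith
      filter_upwards [h2.eventually_lt continuousAt_const (by simpa using h3)] with t ht
      rw [cl_of_lt hr (le_of_lt ht), cl_of_lt hr h3.le]
  filter_upwards [h1] with t ht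
  funext k
  show cl r (u k + t * (Pi.single i 1 : Rn m) k) = cl r (u k)
  by_cases hk : k = i
  · subst hk
    rw [Pi.single_eq_same, mul_one, ht]
  · rw [Pi.single_eq_of_ne hk, mul_zero, add_zero]

lemma P_single {m : ℕ} {r : ℝ} (hr : 0 < r) {p : Rn m → ℝ} {u : Rn m} (i : Fin m)
    (hi : r < |u i|) (hP : DifferentiableAt ℝ (fun x => p (clp r x)) u) :
    fderiv ℝ (fun x => p (clp r x)) u (Pi.single i 1) = 0 := by
  refine fderiv_single hP i (hasDerivAt_const 0 (p (clp r u))) ?_
  filter_upwards [clp_add_single hr u i hi] with t ht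
  show p (clp r (u + t • (Pi.single i 1 : Rn m))) = _
  rw [ht]

lemma psi_deriv {r x : ℝ} (hr : 0 < r) (h1 : r < |x|) (h2 : |x| ≠ r + 1) :
    HasDerivAt (fun t : ℝ => max 0 (1 - |x + t - cl r x|)) (bb r x) 0 := by
  have hc : ContinuousAt (fun t : ℝ => x + t) 0 := by fun_prop
  rcases lt_abs.1 h1 with h | h
  · have hx : |x| = x := abs_of_pos (hr.trans h)
    rw [hx] at h2
    have hcl : cl r x = r := cl_of_gt hr h.le
    have hn : x ∉ Ioo (-r - 1) (-r) := fun h' => by linarith [h'.2]
    rcases lt_or_gt_of_ne h2 with h3 | h3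
    · have hb : bb r x = -1 := by
        unfold bb
        rw [indicator_of_mem (show x ∈ Ioo r (r + 1) from ⟨h, h3⟩), indicator_of_notMem hn, add_zero]
      rw [hb, hcl]
      have h4 : HasDerivAt (fun t : ℝ => 1 - (x + t - r)) (-1) 0 := by
        have := (((hasDerivAt_id (0 : ℝ)).const_add x).sub_const r).const_sub 1
        simpa using this
      refine h4.congr_of_eventuallyEq ?_
      filter_upwards [continuousAt_const.eventually_lt hc (by simpa using h),
        hc.eventually_lt continuousAt_const (by simpa using h3)] with t ht1 ht2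
      rw [abs_of_pos (by linarith : 0 < x + t - r)]
      exact max_eq_right (by linarith)
    · have hb : bb r x = 0 := by
        unfold bb
        rw [indicator_of_notMem (fun h' : x ∈ Ioo r (r + 1) => by linarith [h'.2]),
          indicator_of_notMem hn]
        norm_num
      rw [hb, hcl]
      refine (hasDerivAt_const 0 (0 : ℝ)).congr_of_eventuallyEq ?_
      filter_upwards [continuousAt_const.eventually_lt hc (by simpa using h3)] with t ht
      rw [abs_of_pos (by linarith : 0 < x + t - r)]
      exact max_eq_left (by linarith)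
  · have hxn : x < 0 := by linarith
    have hx : |x| = -x := abs_of_neg hxn
    rw [hx] at h2
    have hcl : cl r x = -r := cl_of_lt hr (by linarith)
    have hn : x ∉ Ioo r (r + 1) := fun h' => by linarith [h'.1]
    have h3' : x < -r := by linarith
    rcases lt_or_gt_of_ne h2 with h3 | h3
    · have h3'' : -r - 1 < x := by linarith
      have hb : bb r x = 1 := by
        unfold bb
        rw [indicator_of_notMem hn,
          indicator_of_mem (show x ∈ Ioo (-r - 1) (-r) from ⟨h3'', h3'⟩)]
        norm_num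
      rw [hb, hcl]
      have h4 : HasDerivAt (fun t : ℝ => 1 + (x + t - -r)) 1 0 := by
        have := (((hasDerivAt_id (0 : ℝ)).const_add x).sub_const (-r)).const_add 1
        simpa using this
      refine h4.congr_of_eventuallyEq ?_
      filter_upwards [continuousAt_const.eventually_lt hc (by simpa using h3''),
        hc.eventually_lt continuousAt_const (by simpa using h3')] with t ht1 ht2
      rw [abs_of_neg (by linarith : x + t - -r < 0)]
      rw [max_eq_right (by linarith)]
      ring
    · have h3'' : x < -r - 1 := by linarith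
      have hb : bb r x = 0 := by
        unfold bb
        rw [indicator_of_notMem hn,
          indicator_of_notMem (fun h' : x ∈ Ioo (-r - 1) (-r) => by linarith [h'.1])]
        norm_num
      rw [hb, hcl]
      refine (hasDerivAt_const 0 (0 : ℝ)).congr_of_eventuallyEq ?_
      filter_upwards [hc.eventually_lt continuousAt_const (by simpa using h3'')] with t ht
      rw [abs_of_neg (by linarith : x + t - -r < 0)]
      exact max_eq_left (by linarith)

lemma F_single {m : ℕ} {r : ℝ} (hr : 0 < r) {g : Rn m → ℝ} {u : Rn m} (i : Fin m)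
    (hi : r < |u i|) (hi1 : |u i| ≠ r + 1) (hu : ∀ k, k ≠ i → |u k| ≤ r)
    (hF : DifferentiableAt ℝ (FF r g) u) :
    fderiv ℝ (FF r g) u (Pi.single i 1) = bb r (u i) * g (clp r u) := by
  refine fderiv_single hF i ((psi_deriv hr hi hi1).mul_const (g (clp r u))) ?_
  filter_upwards [clp_add_single hr u i hi] with t ht
  unfold FF chi
  rw [ht]
  congr 3
  have h1 : u + t • (Pi.single i 1 : Rn m) - clp r u = Pi.single i (u i + t - cl r (u i)) := by
    funext k
    show u k + t * (Pi.single i 1 : Rn m) k - cl r (u k) = _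
    by_cases hk : k = i
    · subst hk
      rw [Pi.single_eq_same, Pi.single_eq_same, mul_one]
    · rw [Pi.single_eq_of_ne hk, Pi.single_eq_of_ne hk, cl_of_mem (hu k hk)]
      ring
  rw [h1, Pi.norm_single, Real.norm_eq_abs]


/-- the integrand on a face -/
noncomputable def HH {n : ℕ} (r : ℝ) (g : Rn (n + 1) → ℝ) (π : Fin n → Rn (n + 1) → ℝ)
    (i : Fin (n + 1)) (s : ℝ) : Rn n → ℝ :=
  (cube n r).indicator (fun w => g (i.insertNth s w) *
    jac (fun j (v : Rn n) => π j (i.insertNth s v)) w)

lemma bb_zero {r x : ℝ} (h : |x| ≤ r) : bb r x = 0 := by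
  unfold bb
  rw [abs_le] at h
  rw [indicator_of_notMem (fun h' : x ∈ Ioo r (r + 1) => by linarith [h'.1]),
    indicator_of_notMem (fun h' : x ∈ Ioo (-r - 1) (-r) => by linarith [h'.2])]
  norm_num

lemma key {n : ℕ} {r : ℝ} (hr : 0 < r) (g : Rn (n + 1) → ℝ) (π : Fin n → Rn (n + 1) → ℝ)
    (u : Rn (n + 1)) (hne : ∀ k, |u k| ≠ r ∧ |u k| ≠ r + 1)
    (hF : DifferentiableAt ℝ (FF r g) u)
    (hP : ∀ j, DifferentiableAt ℝ (fun x => π j (clp r x)) u) :
    jac (Fin.cons (FF r g) (fun j x => π j (clp r x)) : Fin (n + 1) → Rn (n + 1) → ℝ) u =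
      (cube (n + 1) r).indicator (jac (Fin.cons g π : Fin (n + 1) → Rn (n + 1) → ℝ)) u +
      ∑ i : Fin (n + 1), (-1 : ℝ) ^ (i : ℕ) *
        (bb r (u i) * HH r g π i (cl r (u i)) (i.removeNth u)) := by
  by_cases h : ∀ k, |u k| < r
  · have hmem : u ∈ cube (n + 1) r := mem_cube.2 fun k => (h k).le
    rw [indicator_of_mem hmem, Finset.sum_eq_zero, add_zero]
    · have h4 : ∀ᶠ x : Rn (n + 1) in 𝓝 u, ∀ k, |x k| < r := by
        rw [eventually_all]
        intro k
        have h5 : ContinuousAt (fun x : Rn (n + 1) => |x k|) u :=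
          (continuous_abs.comp (continuous_apply k)).continuousAt
        exact h5.eventually_lt continuousAt_const (h k)
      have h5 : ∀ᶠ x : Rn (n + 1) in 𝓝 u, clp r x = x := by
        filter_upwards [h4] with x hx
        funext k
        exact cl_of_mem (hx k).le
      unfold jac
      congr 1
      ext a b
      rw [Matrix.of_apply, Matrix.of_apply]
      refine congrArg (fun L : Rn (n + 1) →L[ℝ] ℝ => L (Pi.single b 1)) ?_
      refine Fin.cases ?_ (fun j => ?_) a
      · refine Filter.EventuallyEq.fderiv_eq ?_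
        filter_upwards [h5] with x hx
        show FF r g x = g x
        unfold FF chi
        rw [hx, sub_self, norm_zero, sub_zero, max_eq_right zero_le_one, one_mul]
      · refine Filter.EventuallyEq.fderiv_eq ?_
        filter_upwards [h5] with x hx
        show π j (clp r x) = π j x
        rw [hx]
    · intro i _
      rw [bb_zero (h i).le]
      ring
  · push Not at h
    obtain ⟨i, hi⟩ := h
    have hi' : r < |u i| := lt_of_le_of_ne hi (hne i).1.symm
    have hnm : u ∉ cube (n + 1) r := fun h' => absurd (mem_cube.1 h' i) (not_le.2 hi')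
    rw [indicator_of_notMem hnm, zero_add, Finset.sum_eq_single i]
    · have hcol : ∀ (l : Fin (n + 1)), r < |u l| → ∀ j : Fin n,
          fderiv ℝ (fun x => π j (clp r x)) u (Pi.single l 1) = 0 :=
        fun l hl j => P_single hr l hl (hP j)
      unfold jac
      rw [Matrix.det_succ_column _ i, Finset.sum_eq_single 0]
      · have e1 : ((0 : Fin (n + 1)) : ℕ) + (i : ℕ) = (i : ℕ) := by simp
        rw [Matrix.of_apply, Fin.cons_zero, e1, mul_assoc]
        congr 1
        by_cases hw : i.removeNth u ∈ cube n r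
        · have hlt : ∀ k, |u (i.succAbove k)| < r := fun k =>
            lt_of_le_of_ne (mem_cube.1 hw k) (hne _).1
          have hle : ∀ k, k ≠ i → |u k| ≤ r := by
            intro k hk
            obtain ⟨l, rfl⟩ := Fin.exists_succAbove_eq hk
            exact (hlt l).le
          rw [F_single hr i hi' (hne i).2 hle hF]
          have hmin := minor_eq (r := r) π i u hP hlt
          have e2 : (Matrix.of fun (a : Fin (n + 1)) (b : Fin (n + 1)) =>
              fderiv ℝ ((Fin.cons (FF r g) (fun j x => π j (clp r x)) :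
                Fin (n + 1) → Rn (n + 1) → ℝ) a) u (Pi.single b 1)).submatrix
                (Fin.succAbove 0) i.succAbove = Matrix.of fun (j : Fin n) (k : Fin n) =>
              fderiv ℝ (fun x => π j (clp r x)) u (Pi.single (i.succAbove k) 1) := by
            ext a b
            rfl
          rw [e2, hmin]
          unfold HH
          rw [indicator_of_mem hw]
          have e3 : (i.insertNth (cl r (u i)) (i.removeNth u) : Rn (n + 1)) = clp r u := by
            funext l
            revert l
            rw [Fin.forall_iff_succAbove i]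
            constructor
            · rw [Fin.insertNth_apply_same]
              rfl
            · intro k
              rw [Fin.insertNth_apply_succAbove]
              show u (i.succAbove k) = cl r (u (i.succAbove k))
              rw [cl_of_mem (hlt k).le]
          rw [e3, mul_assoc]
        · unfold HH
          rw [indicator_of_notMem hw, mul_zero]
          rw [mem_cube] at hw
          push Not at hw
          obtain ⟨k, hk⟩ := hw
          rw [Matrix.det_eq_zero_of_column_eq_zero k, mul_zero]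
          intro a
          exact hcol _ hk a
      · intro a _ ha
        obtain ⟨j, rfl⟩ := Fin.exists_succ_eq.2 ha
        rw [Matrix.of_apply, Fin.cons_succ, hcol i hi' j]
        ring
      · intro h'
        exact absurd (Finset.mem_univ _) h'
    · intro k _ hk
      obtain ⟨l, hl⟩ := Fin.exists_succAbove_eq hk.symm
      have : k.removeNth u ∉ cube n r := by
        intro h'
        have h2 := mem_cube.1 h' l
        have h3 : (k.removeNth u : Rn n) l = u i := by
          show u (k.succAbove l) = u i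
          rw [hl]
        rw [h3] at h2
        linarith
      unfold HH
      rw [indicator_of_notMem this]
      ring
    · intro h'
      exact absurd (Finset.mem_univ _) h'

lemma HH_int {n : ℕ} {r : ℝ} {g : Rn (n + 1) → ℝ} {π : Fin n → Rn (n + 1) → ℝ} (hg : Lip g)
    (hπ : ∀ j, Lip (π j)) (i : Fin (n + 1)) (s : ℝ) : Integrable (HH r g π i s) := by
  unfold HH
  rw [integrable_indicator_iff (cube_compact n r).measurableSet]
  obtain ⟨K, hK⟩ := hg
  refine IntegrableOn.continuousOn_mul ?_ (jac_intOn r _ fun j => ?_) (cube_compact n r)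
  · exact (hK.continuous.comp (ins_lip i s).continuous).continuousOn
  · obtain ⟨K', hK'⟩ := hπ j
    exact ⟨_, hK'.comp (ins_lip i s)⟩

lemma fubini {n : ℕ} (i : Fin (n + 1)) (a : ℝ → ℝ) (H : Rn n → ℝ) :
    ∫ u : Rn (n + 1), a (u i) * H (i.removeNth u) = (∫ x, a x) * ∫ w, H w := by
  have h1 := (volume_preserving_piFinSuccAbove (fun _ : Fin (n + 1) => ℝ) i).integral_comp
    (MeasurableEquiv.piFinSuccAbove (fun _ : Fin (n + 1) => ℝ) i).measurableEmbedding
    (fun p : ℝ × (Fin n → ℝ) => a p.1 * H p.2)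
  rw [← integral_prod_mul]
  exact h1

lemma fubini_int {n : ℕ} (i : Fin (n + 1)) {a : ℝ → ℝ} {H : Rn n → ℝ} (ha : Integrable a)
    (hH : Integrable H) : Integrable fun u : Rn (n + 1) => a (u i) * H (i.removeNth u) := by
  have h1 := (volume_preserving_piFinSuccAbove (fun _ : Fin (n + 1) => ℝ) i).integrable_comp_emb
    (MeasurableEquiv.piFinSuccAbove (fun _ : Fin (n + 1) => ℝ) i).measurableEmbedding
    (g := fun p : ℝ × (Fin n → ℝ) => a p.1 * H p.2)
  exact h1.2 (ha.mul_prod hH)

lemma Ioo_int (a b : ℝ) : Integrable ((Ioo a b).indicator (fun _ => (1 : ℝ))) := by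
  rw [integrable_indicator_iff measurableSet_Ioo]
  exact integrableOn_const (by simp)

lemma Ioo_integral (a b : ℝ) (h : b = a + 1) :
    ∫ x, (Ioo a b).indicator (fun _ => (1 : ℝ)) x = 1 := by
  rw [integral_indicator measurableSet_Ioo]
  subst h
  simp

lemma bb_split {n : ℕ} {r : ℝ} (hr : 0 < r) (g : Rn (n + 1) → ℝ) (π : Fin n → Rn (n + 1) → ℝ)
    (i : Fin (n + 1)) (x : ℝ) (w : Rn n) :
    bb r x * HH r g π i (cl r x) w =
      -((Ioo r (r + 1)).indicator (fun _ => (1 : ℝ)) x * HH r g π i r w) +
        (Ioo (-r - 1) (-r)).indicator (fun _ => 1) x * HH r g π i (-r) w := by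
  unfold bb
  by_cases h1 : x ∈ Ioo r (r + 1)
  · have h2 : x ∉ Ioo (-r - 1) (-r) := fun h' => by linarith [h1.1, h'.2]
    rw [indicator_of_mem h1, indicator_of_notMem h2, cl_of_gt hr h1.1.le]
    ring
  · by_cases h2 : x ∈ Ioo (-r - 1) (-r)
    · rw [indicator_of_notMem h1, indicator_of_mem h2, cl_of_lt hr h2.2.le]
      ring
    · rw [indicator_of_notMem h1, indicator_of_notMem h2]
      ring

/-- **S_stokes** -/
theorem main : S_stokes := by
  intro n r g π hr hg hπ
  have hibp := Pool.Agent.W571.LVF.Ibp.ibp Pool.Agent.W505.LVF.Area.main n (FF r g)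
    (fun j x => π j (clp r x)) (FF_lip hr hg) (FF_supp hr g) (fun j => P_lip (hπ j))
  have hcons : ∀ i, Lip ((Fin.cons g π : Fin (n + 1) → Rn (n + 1) → ℝ) i) := by
    intro i
    refine Fin.cases ?_ (fun i => ?_) i
    · exact hg
    · exact hπ i
  have hae : jac (Fin.cons (FF r g) (fun j x => π j (clp r x)) :
      Fin (n + 1) → Rn (n + 1) → ℝ) =ᵐ[volume] fun u =>
      (cube (n + 1) r).indicator (jac (Fin.cons g π : Fin (n + 1) → Rn (n + 1) → ℝ)) u +
      ∑ i : Fin (n + 1), (-1 : ℝ) ^ (i : ℕ) *
        (-((Ioo r (r + 1)).indicator (fun _ => (1 : ℝ)) (u i) *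
            HH r g π i r (i.removeNth u)) +
          (Ioo (-r - 1) (-r)).indicator (fun _ => 1) (u i) *
            HH r g π i (-r) (i.removeNth u)) := by
    have hn : ∀ᵐ u : Rn (n + 1), ∀ k, |u k| ≠ r ∧ |u k| ≠ r + 1 := by
      rw [ae_all_iff]
      intro k
      have h1 : ∀ c : ℝ, ∀ᵐ u : Rn (n + 1), u k ≠ c := fun c =>
        Measure.ae_eval_ne (μ := fun _ : Fin (n + 1) => (volume : Measure ℝ)) k c
      filter_upwards [h1 r, h1 (-r), h1 (r + 1), h1 (-(r + 1))] with u h2 h3 h4 h5
      constructor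
      · intro h
        rcases abs_choice (u k) with h6 | h6
        · rw [h6] at h
          exact h2 h
        · rw [h6] at h
          exact h3 (by linarith)
      · intro h
        rcases abs_choice (u k) with h6 | h6
        · rw [h6] at h
          exact h4 h
        · rw [h6] at h
          exact h5 (by linarith)
    have hd1 : ∀ᵐ u : Rn (n + 1), DifferentiableAt ℝ (FF r g) u := by
      obtain ⟨K, hK⟩ := FF_lip hr hg
      exact hK.ae_differentiableAt
    have hd2 : ∀ᵐ u : Rn (n + 1), ∀ j, DifferentiableAt ℝ (fun x => π j (clp r x)) u := by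
      rw [ae_all_iff]
      intro j
      obtain ⟨K, hK⟩ := P_lip (r := r) (hπ j)
      exact hK.ae_differentiableAt
    filter_upwards [hn, hd1, hd2] with u h1 h2 h3
    rw [key hr g π u h1 h2 h3]
    simp only [bb_split hr]
  rw [integral_congr_ae hae] at hibp
  have hint1 : Integrable ((cube (n + 1) r).indicator
      (jac (Fin.cons g π : Fin (n + 1) → Rn (n + 1) → ℝ))) := by
    rw [integrable_indicator_iff (cube_compact (n + 1) r).measurableSet]
    exact jac_intOn r _ hcons
  have hA : ∀ i : Fin (n + 1), Integrable fun u : Rn (n + 1) =>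
      (Ioo r (r + 1)).indicator (fun _ => (1 : ℝ)) (u i) * HH r g π i r (i.removeNth u) :=
    fun i => fubini_int i (Ioo_int _ _) (HH_int hg hπ i r)
  have hB : ∀ i : Fin (n + 1), Integrable fun u : Rn (n + 1) =>
      (Ioo (-r - 1) (-r)).indicator (fun _ => (1 : ℝ)) (u i) *
        HH r g π i (-r) (i.removeNth u) :=
    fun i => fubini_int i (Ioo_int _ _) (HH_int hg hπ i (-r))
  have hAB : ∀ i : Fin (n + 1), Integrable fun u : Rn (n + 1) => (-1 : ℝ) ^ (i : ℕ) *
      (-((Ioo r (r + 1)).indicator (fun _ => (1 : ℝ)) (u i) *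
            HH r g π i r (i.removeNth u)) +
          (Ioo (-r - 1) (-r)).indicator (fun _ => 1) (u i) *
            HH r g π i (-r) (i.removeNth u)) := fun i => ((hA i).neg.add (hB i)).const_mul _
  rw [integral_add hint1 (integrable_finsetSum _ fun i _ => hAB i),
    integral_finsetSum _ fun i _ => hAB i,
    integral_indicator (cube_compact (n + 1) r).measurableSet] at hibp
  have hterm : ∀ i : Fin (n + 1), ∫ u : Rn (n + 1), (-1 : ℝ) ^ (i : ℕ) *
      (-((Ioo r (r + 1)).indicator (fun _ => (1 : ℝ)) (u i) *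
            HH r g π i r (i.removeNth u)) +
          (Ioo (-r - 1) (-r)).indicator (fun _ => 1) (u i) *
            HH r g π i (-r) (i.removeNth u)) = -((-1 : ℝ) ^ (i : ℕ) *
      ((∫ w in cube n r, g (i.insertNth r w) *
          jac (fun j (v : Rn n) => π j (i.insertNth r v)) w) -
        ∫ w in cube n r, g (i.insertNth (-r) w) *
          jac (fun j (v : Rn n) => π j (i.insertNth (-r) v)) w)) := by
    intro i
    have hAn : Integrable fun u : Rn (n + 1) =>
        -((Ioo r (r + 1)).indicator (fun _ => (1 : ℝ)) (u i) *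
          HH r g π i r (i.removeNth u)) := (hA i).neg
    rw [integral_const_mul, integral_add hAn (hB i), integral_neg, fubini, fubini,
      Ioo_integral r (r + 1) rfl, Ioo_integral (-r - 1) (-r) (by ring)]
    unfold HH
    rw [integral_indicator (cube_compact n r).measurableSet,
      integral_indicator (cube_compact n r).measurableSet]
    ring
  rw [Finset.sum_congr rfl fun i _ => hterm i, Finset.sum_neg_distrib] at hibp
  linarith

end Pool.Agent.W22.LVFstokes
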