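import Pool.Agent.W292.RG.Stm

/-! Project RG: a clique minor from single vertices and conflict free pairs. -/

set_option autoImplicit false

namespace Pool.Agent.W22.RGM0

open Finset H331HC Pool.Agent.W292.RG

theorem count_pairs {V : Type} [DecidableEq V] (W : Finset V) (f : V → V)
    (hW : ∀ x ∈ W, f x ∈ W) (hff : ∀ x ∈ W, f (f x) = x) (hne : ∀ x ∈ W, f x ≠ x) :
    W.card = 2 * (W.image (fun x => ({x, f x} : Finset V))).card := by
  have h1 : W.card = ∑ c ∈ W.image (fun x => ({x, f x} : Finset V)),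
      (W.filter (fun x => ({x, f x} : Finset V) = c)).card :=
    Finset.card_eq_sum_card_fiberwise (fun x hx => Finset.mem_image_of_mem _ hx)
  have h2 : ∀ c ∈ W.image (fun x => ({x, f x} : Finset V)),
      (W.filter (fun x => ({x, f x} : Finset V) = c)).card = 2 := by
    intro c hc
    obtain ⟨x, hx, rfl⟩ := Finset.mem_image.1 hc
    have : W.filter (fun y => ({y, f y} : Finset V) = {x, f x}) = {x, f x} := by
      ext y
      rw [mem_filter]
      constructor
      · rintro ⟨_, h⟩
        rw [← h]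
        simp
      · intro h
        rw [mem_insert, mem_singleton] at h
        rcases h with rfl | rfl
        · exact ⟨hx, rfl⟩
        · exact ⟨hW x hx, by rw [hff x hx]; exact Finset.pair_comm _ _⟩
    rw [this]
    exact Finset.card_pair (hne x hx).symm
  rw [Finset.sum_const_nat h2] at h1
  omega

theorem M0 : St_M0 := by
  intro V _ _ G X W f hXW hW hff hadj hX hXs hQ k hk
  classical
  have hne : ∀ x ∈ W, f x ≠ x := fun x hx => (hadj x hx).ne'
  have hnot : ∀ x, x ∈ X → x ∉ W := fun x h1 h2 => Finset.disjoint_left.1 hXW h1 h2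
  have cX : (X.image (fun s => ({s} : Finset V))).card = X.card :=
    Finset.card_image_of_injective _ Finset.singleton_injective
  have cW := count_pairs W f hW hff hne
  have hd : Disjoint (X.image (fun s => ({s} : Finset V)))
      (W.image (fun x => ({x, f x} : Finset V))) := by
    rw [Finset.disjoint_left]
    intro c h1 h2
    obtain ⟨s, hs, rfl⟩ := Finset.mem_image.1 h1
    obtain ⟨x, hx, hx2⟩ := Finset.mem_image.1 h2
    have h3 : x ∈ ({s} : Finset V) := by rw [← hx2]; simp
    rw [mem_singleton] at h3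
    exact hnot s hs (h3 ▸ hx)
  have hcard : Fintype.card {c // c ∈ X.image (fun s => ({s} : Finset V)) ∪
      W.image (fun x => ({x, f x} : Finset V))} = k := by
    rw [Fintype.card_coe, Finset.card_union_of_disjoint hd, cX]
    omega
  rw [← hcard]
  -- membership in a member of the family
  have key : ∀ x ∈ W, ∀ a, a ∈ ({x, f x} : Finset V) →
      a ∈ W ∧ ({x, f x} : Finset V) = {a, f a} := by
    intro x hx a ha
    rw [mem_insert, mem_singleton] at ha
    rcases ha with rfl | rfl
    · exact ⟨hx, rfl⟩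
    · exact ⟨hW x hx, by rw [hff x hx]; exact Finset.pair_comm _ _⟩
  -- single and pair
  have sp : ∀ s ∈ X, ∀ x ∈ W, ∃ a ∈ ({s} : Finset V), ∃ b ∈ ({x, f x} : Finset V),
      G.Adj a b := by
    intro s hs x hx
    by_contra hcon
    push Not at hcon
    have c1 : ¬ G.Adj s x := hcon s (by simp) x (by simp)
    have c2 : ¬ G.Adj s (f x) := hcon s (by simp) (f x) (by simp)
    have e1 : x ≠ s := by rintro rfl; exact hnot x hs hx
    have e2 : f x ≠ s := by intro h; exact hnot s hs (h ▸ hW x hx)
    exact hXs x hx s hs ⟨(SimpleGraph.compl_adj G _ _).2 ⟨e1, fun h => c1 h.symm⟩,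
      (SimpleGraph.compl_adj G _ _).2 ⟨e2, fun h => c2 h.symm⟩⟩
  refine KMinor.of_family G (fun c => ((c.1 : Finset V) : Set V)) ?_ ?_ ?_
  · rintro ⟨c, hc⟩
    rcases Finset.mem_union.1 hc with hc | hc
    · obtain ⟨s, hs, rfl⟩ := mem_image.1 hc
      have h5 : ((({s} : Finset V)) : Set V) = {s} := by simp
      simp only
      rw [h5]
      exact connected_single G s
    · obtain ⟨x, hx, rfl⟩ := mem_image.1 hc
      have h5 : (((({x, f x} : Finset V)) : Set V)) = {x, f x} := by simp
      simp only
      rw [h5]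
      exact connected_pair G (hadj x hx)
  · rintro ⟨c, hc⟩ ⟨d, hdd⟩ hcd
    simp only
    rw [Finset.disjoint_coe, Finset.disjoint_left]
    intro z hz hz'
    apply hcd
    apply Subtype.ext
    simp only
    rcases Finset.mem_union.1 hc with hc | hc <;> rcases Finset.mem_union.1 hdd with hdd | hdd
    · obtain ⟨s, hs, rfl⟩ := mem_image.1 hc
      obtain ⟨t, ht, rfl⟩ := mem_image.1 hdd
      rw [mem_singleton] at hz hz'
      rw [← hz, ← hz']
    · obtain ⟨s, hs, rfl⟩ := mem_image.1 hc
      obtain ⟨x, hx, rfl⟩ := mem_image.1 hdd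
      rw [mem_singleton] at hz
      subst hz
      exact absurd (key x hx z hz').1 (hnot z hs)
    · obtain ⟨x, hx, rfl⟩ := mem_image.1 hc
      obtain ⟨s, hs, rfl⟩ := mem_image.1 hdd
      rw [mem_singleton] at hz'
      subst hz'
      exact absurd (key x hx z hz).1 (hnot z hs)
    · obtain ⟨x, hx, rfl⟩ := mem_image.1 hc
      obtain ⟨y, hy, rfl⟩ := mem_image.1 hdd
      rw [(key x hx z hz).2, (key y hy z hz').2]
  · rintro ⟨c, hc⟩ ⟨d, hdd⟩ hcd
    have hcd' : c ≠ d := fun h => hcd (Subtype.ext h)
    rcases Finset.mem_union.1 hc with hc | hc <;> rcases Finset.mem_union.1 hdd with hdd | hdd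
    · obtain ⟨s, hs, rfl⟩ := mem_image.1 hc
      obtain ⟨t, ht, rfl⟩ := mem_image.1 hdd
      have : s ≠ t := by rintro rfl; exact hcd' rfl
      exact ⟨s, by simp, t, by simp, hX s hs t ht this⟩
    · obtain ⟨s, hs, rfl⟩ := mem_image.1 hc
      obtain ⟨x, hx, rfl⟩ := mem_image.1 hdd
      obtain ⟨a, ha, b, hb, hab⟩ := sp s hs x hx
      exact ⟨a, by simpa using ha, b, by simpa using hb, hab⟩
    · obtain ⟨x, hx, rfl⟩ := mem_image.1 hc
      obtain ⟨s, hs, rfl⟩ := mem_image.1 hdd
      obtain ⟨a, ha, b, hb, hab⟩ := sp s hs x hx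
      exact ⟨b, by simpa using hb, a, by simpa using ha, hab.symm⟩
    · obtain ⟨x, hx, rfl⟩ := mem_image.1 hc
      obtain ⟨y, hy, rfl⟩ := mem_image.1 hdd
      have n1 : y ∉ ({x, f x} : Finset V) := fun h => hcd' (key x hx y h).2
      have n2 : f y ∉ ({x, f x} : Finset V) := by
        intro h
        apply hcd'
        have := (key x hx (f y) h).2
        rw [this, hff y hy]
        exact Finset.pair_comm _ _
      simp only [mem_insert, mem_singleton, not_or] at n1 n2
      by_contra hcon
      push Not at hcon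
      have c1 : ¬ G.Adj x y := hcon x (by simp) y (by simp)
      have c2 : ¬ G.Adj x (f y) := hcon x (by simp) (f y) (by simp)
      have c3 : ¬ G.Adj (f x) y := hcon (f x) (by simp) y (by simp)
      have c4 : ¬ G.Adj (f x) (f y) := hcon (f x) (by simp) (f y) (by simp)
      exact hQ x hx y hy ⟨(SimpleGraph.compl_adj G _ _).2 ⟨fun h => n1.1 h.symm, c1⟩,
          (SimpleGraph.compl_adj G _ _).2 ⟨fun h => n2.1 h.symm, c2⟩,
          (SimpleGraph.compl_adj G _ _).2 ⟨fun h => n1.2 h.symm, c3⟩,
          (SimpleGraph.compl_adj G _ _).2 ⟨fun h => n2.2 h.symm, c4⟩⟩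

end Pool.Agent.W22.RGM0
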